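import Pool.Agent.Lib.MP_fecf72_lc.Defs

namespace Pool.Agent.Lib.MP_d63cb0_gt.H15

open Pool.Agent.Lib.MP_fecf72_lc Set

/-- A set `X` presented by codes `c` of its points, with a family `T` of subsets. -/
structure Sp : Type 1 where
  X : Type
  c : X → V
  T : Set (Set X)

/-- The set coding a subset of the space. -/
noncomputable def Sp.sC (S : Sp) (W : Set S.X) : V := img W S.c

/-- The set (graph) coding a real function on the space. -/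
noncomputable def Sp.fC (S : Sp) (f : S.X → ℝ) : V :=
  img univ fun a => ZFSet.pair (S.c a) (realC (f a))

/-- The continuous real functions on the space that lie in `M`. -/
def Sp.C (S : Sp) (M : Set V) : Set (S.X → ℝ) :=
  {f | S.fC f ∈ M ∧ ∀ q : ℚ, {a | f a < q} ∈ S.T ∧ {a | (q : ℝ) < f a} ∈ S.T}

/-- In `M`, the space is a Tychonoff space. -/
structure Tych (M : Set V) (S : Sp) : Prop where
  inj : Function.Injective S.c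
  mem : S.sC univ ∈ M
  top : img S.T S.sC ∈ M
  all : univ ∈ S.T
  inter : ∀ W ∈ S.T, ∀ W' ∈ S.T, W ∩ W' ∈ S.T
  union : ∀ F ⊆ S.T, img F S.sC ∈ M → ⋃₀ F ∈ S.T
  t1 : ∀ a, {a}ᶜ ∈ S.T
  creg : ∀ W ∈ S.T, ∀ a ∈ W, ∃ f ∈ S.C M, f a = 0 ∧ ∀ b ∉ W, f b = 1

/-- In `M`, `A` is an ALGEBRA on the space. -/
structure IsALG (M : Set V) (S : Sp) (A : Set (S.X → ℝ)) : Prop where
  mem : img A S.fC ∈ M
  sub : A ⊆ S.C M
  const : ∀ r, realC r ∈ M → (fun _ => r) ∈ A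
  add : ∀ f ∈ A, ∀ g ∈ A, f + g ∈ A
  mul : ∀ f ∈ A, ∀ g ∈ A, f * g ∈ A
  unif : ∀ f ∈ S.C M, (∀ ε > 0, ∃ g ∈ A, ∀ a, |f a - g a| < ε) → f ∈ A
  inv : ∀ f ∈ A, (∀ a, f a ≠ 0) → f⁻¹ ∈ A
  sep : ∀ W ∈ S.T, ∀ a ∈ W, ∃ f ∈ A, f a ∉ closure (f '' Wᶜ)

/-- In `M`, `A` is isomorphic as a real algebra to `C(Y)` for a Tychonoff space `Y`. -/
def IsCY (M : Set V) (S : Sp) (A : Set (S.X → ℝ)) : Prop :=
  ∃ Y : Sp, Tych M Y ∧ ∃ Φ : (S.X → ℝ) → Y.X → ℝ,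
    img A (fun f => ZFSet.pair (S.fC f) (Y.fC (Φ f))) ∈ M ∧ BijOn Φ A (Y.C M) ∧
    (∀ f ∈ A, ∀ g ∈ A, Φ (f + g) = Φ f + Φ g ∧ Φ (f * g) = Φ f * Φ g) ∧
    ∀ r, realC r ∈ M → Φ (fun _ => r) = fun _ => r

/-- In `M`, the space is realcompact: every real algebra homomorphism from `C(X)` to the reals
is evaluation at a point. -/
def RealCpt (M : Set V) (S : Sp) : Prop :=
  ∀ h : (S.X → ℝ) → ℝ, img (S.C M) (fun f => ZFSet.pair (S.fC f) (realC (h f))) ∈ M →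
    (∀ f ∈ S.C M, ∀ g ∈ S.C M, h (f + g) = h f + h g ∧ h (f * g) = h f * h g) →
    (∀ r, realC r ∈ M → h (fun _ => r) = r) → ∃ a, ∀ f ∈ S.C M, h f = f a

/-- In `M`, the space is Lindelof. -/
def Lind (M : Set V) (S : Sp) : Prop :=
  ∀ F ⊆ S.T, img F S.sC ∈ M → ⋃₀ F = univ →
    ∃ F' ⊆ F, img F' S.sC ∈ M ∧ CtblIn M (img F' S.sC) ∧ ⋃₀ F' = univ

end Pool.Agent.Lib.MP_d63cb0_gt.H15
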