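import Pool.Agent.Lib.MP_d63cb0_gt.H15.Calc
import Pool.Agent.Lib.MP_d63cb0_gt.H15.Defs

/-!
A calculus of terms for sets of generic extensions of countable hulls.
-/

namespace Pool.Agent.Lib.MP_d63cb0_gt.H15

open Pool.Agent.Lib.MP_fecf72_lc Set Filter

universe u v

theorem mem_img {α : Type} {s : Set α} {f : α → V} {x : V} : x ∈ img s f ↔ ∃ a ∈ s, f a = x := by
  simp [img]

theorem natC_lt {m n : ℕ} (h : m < n) : natC m ∈ natC n := by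
  induction h with
  | refl => exact ZFSet.mem_insert _ _
  | step _ ih => exact ZFSet.mem_insert_of_mem _ ih

theorem natC_inj : Function.Injective natC := fun m n h => by
  rcases lt_trichotomy m n with k | k | k
  · have := natC_lt k
    rw [h] at this
    exact (ZFSet.mem_irrefl _ this).elim
  · exact k
  · have := natC_lt k
    rw [h] at this
    exact (ZFSet.mem_irrefl _ this).elim

theorem mem_realC {q : ℚ} {x : ℝ} : natC (Encodable.encode q) ∈ realC x ↔ (q : ℝ) < x :=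
  mem_img.trans ⟨fun ⟨_, h, e⟩ => Encodable.encode_injective (natC_inj e) ▸ h, fun h => ⟨q, h, rfl⟩⟩

theorem realC_inj : Function.Injective realC := fun x y h =>
  eq_of_forall_rat_lt_iff_lt fun q => by rw [← mem_realC, h, mem_realC]

theorem img_inj {α : Type} {f : α → V} (h : Function.Injective f) :
    Function.Injective fun s => img s f := fun s t e => Set.ext fun a => by
  have : f a ∈ img s f ↔ f a ∈ img t f := by rw [show img s f = img t f from e]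
  simpa [mem_img, h.eq_iff] using this

theorem pair_mem_seqC {f : ℕ → V} {n : ℕ} {y : V} : ZFSet.pair (natC n) y ∈ seqC f ↔ y = f n := by
  simp only [seqC, ZFSet.mem_range, ZFSet.pair_inj]
  exact ⟨fun ⟨_, h1, h2⟩ => natC_inj h1 ▸ h2.symm, fun h => ⟨n, rfl, h.symm⟩⟩

/-- A set given by replacement. -/
noncomputable def imS (t : V) {κ : Type} (Θ : V → κ → Prop) (s : V → κ → V) : V :=
  ZFSet.range fun w : {w : t × κ // Θ w.1 w.2} => s w.1.1 w.1.2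

theorem mem_imS {t y : V} {κ : Type} {Θ : V → κ → Prop} {s : V → κ → V} :
    y ∈ imS t Θ s ↔ ∃ z ∈ t, ∃ k, Θ z k ∧ s z k = y := by
  simp [imS]

variable {U : Type 1} {R : U → U → Prop} {tp : U}

/-- Sets that are given by names. -/
def Tm (R : U → U → Prop) {ι : Type u} [Srt ι] (t : ι → Set Wd → Set U → V) : Prop :=
  ∃ n : ι → Nm U, ∀ᶠ N in Club, ∀ G, GG N R G → ∀ a, In N a → val N G (n a) = t a N G

section

variable {ι : Type u} {κ : Type v} {sι : Srt ι} {sκ : Srt κ} {s t : ι → Set Wd → Set U → V}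

theorem Tm.nm (h : Tm R t) : ∃ n : ι → Nm U, ∀ᶠ N in Club, ∀ G, GG N R G → ∀ a, In N a →
    In N (n a) ∧ val N G (n a) = t a N G := by
  obtain ⟨n, h⟩ := h
  refine ⟨n, ?_⟩
  filter_upwards [h, clo1 n] with N h1 h2 G hG a ha using ⟨h2 a ha, h1 G hG a ha⟩

theorem Tm.mod (h : Tm R t) : ∀ᶠ N in Club, ∀ G, GG N R G → ∀ a, In N a → t a N G ∈ Mod N G :=
  let ⟨_, h⟩ := h.nm; h.mono fun _ h G hG a ha => ⟨_, h G hG a ha⟩

theorem Tm.congr (h : Tm R s)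
    (k : ∀ᶠ N in Club, ∀ G, GG N R G → ∀ a, In N a → s a N G = t a N G) : Tm R t := by
  obtain ⟨n, h⟩ := h
  refine ⟨n, ?_⟩
  filter_upwards [h, k] with N h1 h2 G hG a ha using (h1 G hG a ha).trans (h2 G hG a ha)

theorem Tm.val (n : ι → Nm U) : Tm R fun a N G => val N G (n a) :=
  ⟨n, Eventually.of_forall fun _ _ _ _ _ => rfl⟩

theorem Tm.comap (h : Tm R t) (g : κ → ι) : Tm R fun a => t (g a) := by
  obtain ⟨n, h⟩ := h
  refine ⟨fun a => n (g a), ?_⟩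
  filter_upwards [h, clo1 g] with N h1 h2 G hG a ha using h1 G hG _ (h2 a ha)

theorem Tm.mem (hR : Fo R) (h : Tm R s) (k : Tm R t) : Fc R fun a N G => s a N G ∈ t a N G := by
  obtain ⟨n, h⟩ := h.nm
  obtain ⟨m, k⟩ := k.nm
  refine ⟨fun a => {p | FMem R (n a) (m a) p}, ?_⟩
  filter_upwards [h, k, club_mem hR] with N h1 h2 h3 G hG a ha
  rw [← (h1 G hG a ha).2, ← (h2 G hG a ha).2]
  exact h3 G hG _ _ (h1 G hG a ha).1 (h2 G hG a ha).1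

theorem Tm.pair (ht : ∀ p, R p p → R p tp) (hR : Fo R) (h : Tm R s) (k : Tm R t) :
    Tm R fun a N G => ZFSet.pair (s a N G) (t a N G) := by
  obtain ⟨n, h⟩ := h.nm
  obtain ⟨m, k⟩ := k.nm
  refine ⟨fun a => opN tp (n a) (m a), ?_⟩
  filter_upwards [h, k, club_names ht hR] with N h1 h2 h3 G hG a ha
  rw [← (h1 G hG a ha).2, ← (h2 G hG a ha).2]
  exact ((h3 G hG).2.2.2.2.2.2 _ _ (h1 G hG a ha).1 (h2 G hG a ha).1).2

theorem Tm.nat (ht : ∀ p, R p p → R p tp) (hR : Fo R) (g : ι → ℕ) :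
    Tm R fun a _ _ => natC (g a) :=
  ⟨fun a => nN tp (g a), (club_names ht hR).mono fun _ h G hG _ _ => ((h G hG).2.2.2.1 _).2⟩

end

variable {ι : Type u} [Srt ι]

theorem Tm.imS (hR : Fo R) {κ : Type} [Srt (ι × Nm U × κ)] [Srt (ι × Nm U)]
    {t : ι → Set Wd → Set U → V} {Θ : ι → V → κ → Set Wd → Set U → Prop}
    {s : ι → V → κ → Set Wd → Set U → V} (ht : Tm R t)
    (hΘ : Fc R fun (z : ι × Nm U × κ) N G => Θ z.1 (MP_fecf72_lc.val N G z.2.1) z.2.2 N G)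
    (hs : Tm R fun (z : ι × Nm U × κ) N G => s z.1 (MP_fecf72_lc.val N G z.2.1) z.2.2 N G) :
    Tm R fun a N G => imS (t a N G) (fun z k => In N k ∧ Θ a z k N G) fun z k => s a z k N G := by
  obtain ⟨n, ht⟩ := ht.nm
  obtain ⟨m, hs⟩ := hs.nm
  obtain ⟨b, hb⟩ := hΘ
  refine ⟨fun a => .mk {w : (n a).idx × κ × U // FMem R ((n a).sub w.1) (n a) w.2.2 ∧
    ∃ r ∈ b (a, (n a).sub w.1, w.2.1), R w.2.2 r} (fun w => m (a, (n a).sub w.1.1, w.1.2.1))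
    fun w => w.1.2.2, ?_⟩
  filter_upwards [ht, hs, hb, club_countable, club_mem hR, clo_pair ι (Nm U × κ),
    clo_pair (Nm U) κ, clo_pair ι (Nm U), club_wit1 hR fun (a : ι × Nm U) q (z : Nm U × κ) =>
      FMem R z.1 (n a.1) q ∧ (∃ r ∈ b (a.1, z), R q r) ∧ m (a.1, z) = a.2]
    with N h1 h2 h3 hc cm p1 p2 p3 w G hG a ha
  ext y
  rw [mem_val hc, mem_imS, ← (h1 G hG a ha).2]
  constructor
  · rintro ⟨_, _, ⟨⟨⟨i, k, q⟩, a1, a2⟩, rfl, rfl⟩, a3, a4, rfl⟩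
    obtain ⟨q', b1, ⟨π, k'⟩, b2, b3, ⟨r, b4, b5⟩, b6⟩ := w G hG (a, _) ((p3 _ _).2 ⟨ha, a4⟩)
      ⟨q, a3, (_, k), a1, a2, rfl⟩
    have b7 := (p1 _ _).2 ⟨ha, b2⟩
    exact ⟨_, (cm G hG _ _ ((p2 _ _).1 b2).1 (h1 G hG a ha).1).2 ⟨q', b1, b3⟩, k',
      ⟨((p2 _ _).1 b2).2, (h3 G hG _ b7).2 ⟨r, hG.f.1 q' b1 r b5, b4⟩⟩,
      (h2 G hG _ b7).2.symm.trans (congrArg _ b6)⟩
  · rintro ⟨z, a1, k, ⟨a2, a3⟩, rfl⟩
    obtain ⟨_, _, ⟨i, rfl, rfl⟩, -, a4, rfl⟩ := (mem_val hc).1 a1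
    have b7 := (p1 _ _).2 ⟨ha, (p2 _ _).2 ⟨a4, a2⟩⟩
    obtain ⟨q, b1, b2⟩ := (cm G hG _ _ a4 (h1 G hG a ha).1).1 a1
    obtain ⟨r, b3, b4⟩ := (h3 G hG _ b7).1 a3
    obtain ⟨q', b5, b6, b8⟩ := hG.f.2 q b1 r b3
    exact ⟨_, _, ⟨⟨(i, k, q'), b2.le hR b6, r, b4, b8⟩, rfl, rfl⟩, b5, (h2 G hG _ b7).1,
      (h2 G hG _ b7).2.symm⟩

theorem Tm.img (ht : ∀ p, R p p → R p tp) (hR : Fo R) {κ : Type} [Srt (ι × Nm U × κ)]
    [Srt (ι × Nm U)] [Srt (ι × κ)] {Θ : ι → κ → Set Wd → Set U → Prop}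
    {s : ι → κ → Set Wd → Set U → V} (hΘ : Fc R fun z : ι × κ => Θ z.1 z.2)
    (hs : Tm R fun z : ι × κ => s z.1 z.2) :
    Tm R fun a N G => img {k | In N k ∧ Θ a k N G} fun k => s a k N G :=
  (Tm.imS hR (Θ := fun a _ k => Θ a k) (s := fun a _ k => s a k) (Tm.nat ht hR fun _ => 1)
    (hΘ.comap fun z : ι × Nm U × κ => (z.1, z.2.2))
    (hs.comap fun z : ι × Nm U × κ => (z.1, z.2.2))).congr
    (Eventually.of_forall fun _ _ _ _ _ => ZFSet.ext fun _ => by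
      rw [mem_imS, mem_img]
      exact ⟨fun ⟨_, _, h⟩ => h, fun h => ⟨_, natC_lt one_pos, h⟩⟩)

theorem Tm.real (ht : ∀ p, R p p → R p tp) (hR : Fo R) : Tm R fun (r : ℝ) _ _ => realC r :=
  (Tm.img ht hR (Θ := fun (r : ℝ) (q : ℚ) _ _ => (q : ℝ) < r)
    (s := fun _ q _ _ => natC (Encodable.encode q)) (Fc.ground _) (Tm.nat ht hR _)).congr
    ((clo_ctbl ℚ).mono fun _ h _ _ _ _ => by simp only [h, true_and, realC])

theorem Fc.exM (hR : Fo R) [Srt (ι × Nm U)] {Θ : ι → V → Set Wd → Set U → Prop}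
    (h : Fc R fun (z : ι × Nm U) N G => Θ z.1 (val N G z.2) N G) :
    Fc R fun a N G => ∃ y ∈ Mod N G, Θ a y N G :=
  (Fc.ex hR (Θ := fun a π N G => Θ a (val N G π) N G) h).congr
    (Eventually.of_forall fun _ _ _ _ _ => ⟨fun ⟨_, ⟨π, a, rfl⟩, b⟩ => ⟨π, a, b⟩,
      fun ⟨π, a, b⟩ => ⟨_, ⟨π, a, rfl⟩, b⟩⟩)

theorem club_real (ht : ∀ p, R p p → R p tp) (hR : Fo R) (hS : SC R) :
    ∀ᶠ N in Club, ∀ G, GG N R G → ∀ r : ℝ, (realC r ∈ Mod N G ↔ In N r) := by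
  filter_upwards [(Tm.real ht hR).mod, clo_ctbl Prop,
    icc hR hS (Θ := fun (π : Nm U) n (b : Prop) N G => natC n ∈ val N G π ↔ b)
      ((Tm.mem hR (Tm.nat ht hR _) (Tm.val _)).iff (Fc.ground _)),
    sk1 fun (s : ℕ → Prop) (r : ℝ) => ∀ q : ℚ, s (Encodable.encode q) ↔ (q : ℝ) < r]
    with N h1 h2 h3 h4 G hG r
  refine ⟨fun ⟨π, a1, a2⟩ => ?_, h1 G hG r⟩
  obtain ⟨s, b1, b2⟩ := h3 G hG π a1 fun n => ⟨_, h2 _, Iff.rfl⟩
  have b3 : ∀ q : ℚ, s (Encodable.encode q) ↔ (q : ℝ) < r := fun q => by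
    rw [← b2, a2, mem_realC]
  obtain ⟨r', b4, b5⟩ := h4 s b1 ⟨r, b3⟩
  rwa [eq_of_forall_rat_lt_iff_lt fun q => (b3 q).symm.trans (b5 q)]

theorem club_gg (hR : Fo R) (p : U) (hp : R p p) : ∀ᶠ N in Club, ∃ G, GG N R G := by
  filter_upwards [club_countable, clo0 p, clo0 (univ : Set U),
    sk2 fun (D : Set U) (p q : U) => q ∈ D ∧ R q p] with N hc h1 h2 h3
  obtain ⟨e, he⟩ := ((countable_In (Set U) hc).mono
    (inter_subset_left (t := {D | Dn R D}))).exists_eq_range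
      ⟨univ, h2, fun p hp => ⟨p, trivial, hp⟩⟩
  have e1 : ∀ n, In N (e n) ∧ Dn R (e n) := fun n => (he ▸ mem_range_self n : e n ∈ _ ∩ _)
  have : Nonempty U := ⟨p⟩
  choose! f f1 f2 f3 using fun n (q : U) (a : In N q ∧ R q q) =>
    h3 (e n) q (e1 n).1 a.1 ((e1 n).2 q a.2)
  let s : ℕ → U := fun n => Nat.rec p (fun n q => f n q) n
  have hs : ∀ n, In N (s n) ∧ R (s n) (s n) := by
    intro n
    induction n with
    | zero => exact ⟨h1, hp⟩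
    | succ n ih => exact ⟨f1 n _ ih, hR.l (f3 n _ ih)⟩
  have hm : ∀ n m, n ≤ m → R (s m) (s n) := by
    intro n m hnm
    induction hnm with
    | refl => exact (hs n).2
    | step _ ih => exact hR.tr (f3 _ _ (hs _)) ih
  refine ⟨{q | ∃ n, R (s n) q}, ⟨fun a ⟨n, hn⟩ q hq => ⟨n, hR.tr hn hq⟩,
    fun a ⟨n, hn⟩ b ⟨m, hm'⟩ => ⟨s (max n m), ⟨_, (hs _).2⟩, hR.tr (hm _ _ (le_max_left _ _)) hn,
      hR.tr (hm _ _ (le_max_right _ _)) hm'⟩⟩, fun D a b => ?_⟩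
  obtain ⟨n, rfl⟩ : D ∈ range e := he ▸ ⟨a, b⟩
  exact ⟨s (n + 1), f2 n _ (hs n), ⟨n + 1, (hs (n + 1)).2⟩, (hs (n + 1)).1⟩

end Pool.Agent.Lib.MP_d63cb0_gt.H15
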