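import Mathlib

/-!
Elementary facts on uniformly closed, inverse closed algebras of real functions.
-/

namespace Pool.Agent.Lib.MP_d63cb0_gt.H15

open Set Filter Topology

variable {X : Type} {C A : Set (X → ℝ)} {Rg : Set ℝ} {a b : X → ℝ}

/-- Inverse closed rings of functions containing the constants in `Rg`. -/
structure Rn (A : Set (X → ℝ)) (Rg : Set ℝ) : Prop where
  rat : ∀ q : ℚ, (q : ℝ) ∈ Rg
  const : ∀ r ∈ Rg, (fun _ => r) ∈ A
  add : ∀ f ∈ A, ∀ g ∈ A, f + g ∈ A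
  mul : ∀ f ∈ A, ∀ g ∈ A, f * g ∈ A
  inv : ∀ f ∈ A, (∀ a, f a ≠ 0) → f⁻¹ ∈ A

theorem Rn.cq (h : Rn A Rg) (q : ℚ) : (fun _ => (q : ℝ)) ∈ A := h.const _ (h.rat q)

theorem Rn.of (_h : Rn A Rg) (k : a ∈ A) (e : ∀ x, a x = b x) : b ∈ A := funext e ▸ k

theorem Rn.one (h : Rn A Rg) : (fun _ => (1 : ℝ)) ∈ A := h.of (h.cq 1) fun _ => by simp

theorem Rn.zero (h : Rn A Rg) : (fun _ => (0 : ℝ)) ∈ A := h.of (h.cq 0) fun _ => by simp

theorem Rn.sub (h : Rn A Rg) (ha : a ∈ A) (hb : b ∈ A) : (fun x => a x - b x) ∈ A :=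
  h.of (h.add _ ha _ (h.mul _ (h.cq (-1)) _ hb)) fun x => by simp [sub_eq_add_neg]

theorem Rn.div (h : Rn A Rg) (ha : a ∈ A) (hb : b ∈ A) (k : ∀ x, b x ≠ 0) :
    (fun x => a x / b x) ∈ A := h.of (h.mul _ ha _ (h.inv _ hb k)) fun x => by simp [div_eq_mul_inv]

theorem Rn.sq (h : Rn A Rg) (ha : a ∈ A) : (fun x => 1 + a x ^ 2) ∈ A :=
  h.of (h.add _ h.one _ (h.mul _ ha _ ha)) fun x => by simp [pow_two]

/-- Real homomorphisms. -/
structure Hm (A : Set (X → ℝ)) (Rg : Set ℝ) (h : (X → ℝ) → ℝ) : Prop where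
  op : ∀ f ∈ A, ∀ g ∈ A, h (f + g) = h f + h g ∧ h (f * g) = h f * h g
  const : ∀ r ∈ Rg, h (fun _ => r) = r
  val : ∀ f ∈ A, h f ∈ Rg

variable {h : (X → ℝ) → ℝ}

theorem Hm.ex0 (hh : Hm A Rg h) (hA : Rn A Rg) (ha : a ∈ A) (k : h a = 0) : ∃ x, a x = 0 := by
  by_contra k'
  have k1 : ∀ x, a x ≠ 0 := fun x e => k' ⟨x, e⟩
  have k2 := (hh.op _ ha _ (hA.inv a ha k1)).2
  rw [k, show a * a⁻¹ = fun _ => ((1 : ℚ) : ℝ) from funext fun x => by simp [k1 x],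
    hh.const _ (hA.rat 1)] at k2
  simp at k2

theorem Hm.ex2' (hh : Hm A Rg h) (hA : Rn A Rg) (ha : a ∈ A) (hb : b ∈ A) :
    ∃ w ∈ A, h w = 0 ∧ ∀ x, w x = 0 → a x = h a ∧ b x = h b := by
  have key : ∀ a ∈ A, ∃ w ∈ A, h w = 0 ∧ ∀ x, w x = a x - h a := fun a ha => by
    have k1 := hA.const _ (hh.val a ha)
    have k2 := hA.mul _ (hA.cq (-1)) _ k1
    refine ⟨_, hA.add _ ha _ k2, ?_, fun x => by simp [sub_eq_add_neg]⟩
    rw [(hh.op _ ha _ k2).1, (hh.op _ (hA.cq (-1)) _ k1).2, hh.const _ (hA.rat _),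
      hh.const _ (hh.val a ha)]
    simp
  obtain ⟨u, u1, u2, u3⟩ := key a ha
  obtain ⟨v, v1, v2, v3⟩ := key b hb
  refine ⟨_, hA.add _ (hA.mul _ u1 _ u1) _ (hA.mul _ v1 _ v1), ?_, fun x k => ?_⟩
  · rw [(hh.op _ (hA.mul _ u1 _ u1) _ (hA.mul _ v1 _ v1)).1, (hh.op _ u1 _ u1).2,
      (hh.op _ v1 _ v1).2, u2, v2]
    simp
  · simp only [Pi.add_apply, Pi.mul_apply, mul_self_add_mul_self_eq_zero, u3, v3, sub_eq_zero] at k
    exact k

theorem Hm.ex2 (hh : Hm A Rg h) (hA : Rn A Rg) (ha : a ∈ A) (hb : b ∈ A) :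
    ∃ x, a x = h a ∧ b x = h b :=
  let ⟨_, h1, h2, h3⟩ := hh.ex2' hA ha hb
  let ⟨x, k⟩ := hh.ex0 hA h1 h2
  ⟨x, h3 x k⟩

theorem Hm.ex3 (hh : Hm A Rg h) (hA : Rn A Rg) (ha : a ∈ A) (hb : b ∈ A) {c : X → ℝ}
    (hc : c ∈ A) : ∃ x, a x = h a ∧ b x = h b ∧ c x = h c :=
  let ⟨_, h1, h2, h3⟩ := hh.ex2' hA ha hb
  let ⟨x, k, k'⟩ := hh.ex2 hA h1 hc
  ⟨x, (h3 x (k.trans h2)).1, (h3 x (k.trans h2)).2, k'⟩

/-- Subrings of `C` that are closed under uniform limits in `C`. -/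
structure Al (C A : Set (X → ℝ)) (Rg : Set ℝ) : Prop extends Rn A Rg where
  sub' : A ⊆ C
  unif : ∀ f ∈ C, (∀ ε > 0, ∃ g ∈ A, ∀ a, |f a - g a| < ε) → f ∈ A
  abs' : ∀ f ∈ C, (fun x => |f x|) ∈ C

theorem Rn.poly (h : Rn A Rg) (ha : a ∈ A) (k : ∀ x, |a x| ≤ 1) (p : Polynomial ℝ) :
    ∀ ε > 0, ∃ g ∈ A, ∀ x, |p.eval (a x) - g x| < ε := by
  induction p using Polynomial.induction_on' with
  | add p q ih1 ih2 =>
    intro ε hε
    obtain ⟨g, g1, g2⟩ := ih1 _ (half_pos hε)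
    obtain ⟨f, f1, f2⟩ := ih2 _ (half_pos hε)
    refine ⟨_, h.add _ g1 _ f1, fun x => ?_⟩
    have := abs_lt.1 (g2 x)
    have := abs_lt.1 (f2 x)
    simp only [Polynomial.eval_add, Pi.add_apply, abs_lt]
    constructor <;> linarith
  | monomial n r =>
    intro ε hε
    obtain ⟨q, q1, q2⟩ := exists_rat_btwn (show r < r + ε by linarith)
    have k1 : ∀ n : ℕ, (fun x => a x ^ n) ∈ A := fun n => by
      induction n with
      | zero => simpa using h.one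
      | succ n ih => exact h.of (h.mul _ ih _ ha) fun x => by simp [pow_succ]
    refine ⟨_, h.mul _ (h.cq q) _ (k1 n), fun x => ?_⟩
    simp only [Polynomial.eval_monomial, Pi.mul_apply, ← sub_mul, abs_mul, abs_pow]
    exact (mul_le_of_le_one_right (abs_nonneg _) (pow_le_one₀ (abs_nonneg _) (k x))).trans_lt
      (abs_lt.2 ⟨by linarith, by linarith⟩)

theorem Al.abs (h : Al C A Rg) (ha : a ∈ A) : (fun x => |a x|) ∈ A := by
  have k0 : ∀ x, 0 < 1 + a x ^ 2 := fun x => by positivity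
  have k1 := h.toRn.div ha (h.toRn.sq ha) fun x => (k0 x).ne'
  have k2 : ∀ x, |a x / (1 + a x ^ 2)| ≤ 1 := fun x => by
    rw [abs_div, abs_of_pos (k0 x), div_le_one (k0 x), ← sq_abs]
    nlinarith [sq_nonneg (|a x| - 1), abs_nonneg (a x)]
  refine h.toRn.of (h.mul _ (h.toRn.sq ha) _ (h.unif _ (h.abs' _ (h.sub' k1)) fun ε hε => ?_))
    fun x => ?_
  · obtain ⟨p, hp⟩ := exists_polynomial_near_of_continuousOn (-1) 1 (fun t => |t|)
      continuous_abs.continuousOn _ (half_pos hε)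
    obtain ⟨g, g1, g2⟩ := h.toRn.poly k1 k2 p _ (half_pos hε)
    refine ⟨g, g1, fun x => ?_⟩
    have := abs_lt.1 (hp _ (abs_le.1 (k2 x)))
    have := abs_lt.1 (g2 x)
    rw [abs_lt]
    constructor <;> linarith
  · simp only [Pi.mul_apply, abs_div, abs_of_pos (k0 x)]
    field_simp [(k0 x).ne']

/-- Separation by a member of `A`. -/
def Sepa (A : Set (X → ℝ)) (s t : Set X) : Prop := ∃ u ∈ A, (∀ x ∈ s, u x = 1) ∧ ∀ x ∈ t, u x = 0

theorem Rn.symm (h : Rn A Rg) {s t : Set X} (k : Sepa A s t) : Sepa A t s :=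
  let ⟨_, h1, h2, h3⟩ := k
  ⟨_, h.sub h.one h1, fun x a => by simp [h3 x a], fun x a => by simp [h2 x a]⟩

theorem Al.trunc (h : Al C A Rg) (ha : a ∈ A) {α β : ℝ} (k : α < β) :
    Sepa A {x | β ≤ a x} {x | a x ≤ α} := by
  obtain ⟨s, s1, s2⟩ := exists_rat_btwn k
  obtain ⟨t, t1, t2⟩ := exists_rat_btwn s2
  have k0 : (0 : ℝ) < t - s := by linarith
  have k1 := h.toRn.sub (h.abs (h.toRn.sub ha (h.toRn.cq s))) (h.abs (h.toRn.sub ha (h.toRn.cq t)))
  refine ⟨_, h.toRn.div (h.add _ k1 _ (h.toRn.cq (t - s))) (h.toRn.cq (2 * (t - s))) fun _ => ?_,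
    fun x (b : β ≤ a x) => ?_, fun x (b : a x ≤ α) => ?_⟩
  · push_cast
    positivity
  · simp only [Pi.add_apply]
    rw [abs_of_pos (by linarith), abs_of_pos (by linarith)]
    push_cast
    field_simp
    ring
  · simp only [Pi.add_apply]
    rw [abs_of_neg (by linarith), abs_of_neg (by linarith)]
    push_cast
    rw [div_eq_zero_iff]
    exact Or.inl (by ring)

/-- The sum used to glue countably many separating functions. -/
noncomputable def sm (v : ℕ → ℝ) : ℝ := ∑' n, (1 / 2) ^ n * (v n ^ 2 / (1 + v n ^ 2))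

theorem sm_le (t : ℝ) (n : ℕ) : ‖(1 / 2 : ℝ) ^ n * (t ^ 2 / (1 + t ^ 2))‖ ≤ (1 / 2) ^ n := by
  rw [Real.norm_of_nonneg (by positivity)]
  exact mul_le_of_le_one_right (by positivity) ((div_le_one (by positivity)).2 (by linarith))

theorem sm_pos {v : ℕ → ℝ} {n : ℕ} (h : v n ≠ 0) : 0 < sm v :=
  (Summable.of_norm_bounded summable_geometric_two fun n => sm_le (v n) n).tsum_pos
    (fun _ => by positivity) n (by positivity)

theorem sm_nonneg (v : ℕ → ℝ) : 0 ≤ sm v := tsum_nonneg fun _ => by positivity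

theorem Al.sm (h : Al C A Rg) {u : ℕ → X → ℝ} (hu : ∀ n, u n ∈ A)
    (k : (fun x => sm fun n => u n x) ∈ C) : (fun x => sm fun n => u n x) ∈ A := by
  refine h.unif _ k fun ε hε => ?_
  obtain ⟨m, hm⟩ := (Metric.tendstoUniformly_iff.1 (tendstoUniformly_tsum_nat
    summable_geometric_two fun n x => sm_le (u n x) n) ε hε).exists
  refine ⟨_, ?_, hm⟩
  clear hm
  induction m with
  | zero => simpa using h.toRn.zero
  | succ m ih =>
    exact h.toRn.of (h.add _ ih _ (h.mul _ (h.toRn.cq ((1 / 2) ^ m)) _ (h.toRn.div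
      (h.mul _ (hu m) _ (hu m)) (h.toRn.sq (hu m)) fun x => by positivity))) fun x => by
        simp [Finset.sum_range_succ, pow_two]

theorem Al.bdd (h : Al C A Rg) {f : X → ℝ} (hf : f ∈ C) (k : ∀ x, |f x| ≤ 1)
    (k' : ∀ s t : ℝ, s < t → ∃ u ∈ A, ∀ x, 0 ≤ u x ∧ u x ≤ 1 ∧ (f x ≤ s → u x = 0) ∧
      (t ≤ f x → u x = 1)) : f ∈ A := by
  refine h.unif f hf fun ε hε => ?_
  obtain ⟨e, e1, e2⟩ := exists_rat_btwn hε
  have key : ∀ m : ℕ, ∃ g ∈ A, ∀ x, (-1 + m * e ≤ f x → g x = -1 + m * e) ∧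
      (f x ≤ -1 + m * e → |f x - g x| ≤ e) := by
    intro m
    induction m with
    | zero =>
      refine ⟨_, h.toRn.cq (-1), fun x => ⟨fun _ => by simp, fun a => ?_⟩⟩
      have := abs_le.1 (k x)
      simp only [Nat.cast_zero, zero_mul, add_zero] at a
      rw [abs_le]
      push_cast
      constructor <;> linarith
    | succ m ih =>
      obtain ⟨g, g1, g2⟩ := ih
      obtain ⟨u, u1, u2⟩ := k' (-1 + m * e) (-1 + (m + 1) * e) (by linarith)
      refine ⟨_, h.add _ g1 _ (h.mul _ (h.toRn.cq e) _ u1), fun x => ?_⟩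
      obtain ⟨a1, a2, a3, a4⟩ := u2 x
      simp only [Pi.add_apply, Pi.mul_apply]
      push_cast
      refine ⟨fun a => by rw [a4 a, (g2 x).1 (by linarith)]; ring, fun a => ?_⟩
      rcases le_total (f x) (-1 + m * e) with b | b
      · simpa [a3 b] using (g2 x).2 b
      · rw [(g2 x).1 b, abs_le]
        constructor <;> nlinarith
  obtain ⟨m, hm⟩ := exists_nat_gt (2 / (e : ℝ))
  obtain ⟨g, g1, g2⟩ := key m
  refine ⟨g, g1, fun x => ((g2 x).2 ?_).trans_lt e2⟩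
  have := (div_lt_iff₀ e1).1 hm
  linarith [(abs_le.1 (k x)).2]

theorem psi_mono : StrictMono fun t : ℝ => t / (1 + |t|) := by
  intro s t h
  rw [div_lt_div_iff₀ (by positivity) (by positivity)]
  rcases abs_cases s with a | a <;> rcases abs_cases t with b | b <;> rw [a.1, b.1] <;> nlinarith

theorem Al.mem (h : Al C A Rg) {f : X → ℝ} (hf : (fun x => f x / (1 + |f x|)) ∈ C)
    (k : ∀ s t : ℚ, s < t → (∃ v ∈ A, ∀ x, 0 ≤ v x ∧ ((t : ℝ) ≤ f x → v x = 0) ∧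
      (f x ≤ s → 0 < v x)) ∧ ∃ v ∈ A, ∀ x, 0 ≤ v x ∧ (f x ≤ s → v x = 0) ∧
        ((t : ℝ) ≤ f x → 0 < v x)) : f ∈ A := by
  have k0 : ∀ t : ℝ, |t / (1 + |t|)| = |t| / (1 + |t|) := fun t => by
    rw [abs_div, abs_of_pos (a := 1 + |t|) (by positivity)]
  have k1 : ∀ t : ℝ, 1 - |t / (1 + |t|)| = 1 / (1 + |t|) := fun t => by
    rw [k0]
    field_simp
    ring
  have k2 := h.bdd hf (fun x => by
    rw [k0]
    exact (div_le_one (by positivity)).2 (by linarith)) fun s t hst => by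
      by_cases a : ∃ y : ℝ, y / (1 + |y|) ≤ s
      swap
      · exact ⟨_, h.toRn.one, fun x => ⟨zero_le_one, le_rfl, fun b => (a ⟨_, b⟩).elim, fun _ => rfl⟩⟩
      by_cases b : ∃ y : ℝ, t ≤ y / (1 + |y|)
      swap
      · exact ⟨_, h.toRn.zero, fun x => ⟨le_rfl, zero_le_one, fun _ => rfl,
          fun c => (b ⟨_, c⟩).elim⟩⟩
      obtain ⟨y, a⟩ := a
      obtain ⟨y', b⟩ := b
      have c := intermediate_value_univ y y' (f := fun t : ℝ => t / (1 + |t|))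
        (continuous_id.div (by fun_prop) fun t => by positivity)
      obtain ⟨α, hα⟩ := c ⟨a, hst.le.trans b⟩
      obtain ⟨β, hβ⟩ := c ⟨a.trans hst.le, b⟩
      have c1 : α < β := psi_mono.lt_iff_lt.1 (hα.trans_lt (hst.trans_eq hβ.symm))
      obtain ⟨q2, c2, c3⟩ := exists_rat_btwn c1
      obtain ⟨q1, c4, c5⟩ := exists_rat_btwn c2
      obtain ⟨q3, c6, c7⟩ := exists_rat_btwn c3
      obtain ⟨⟨v, v1, v2⟩, -⟩ := k q2 q3 (by exact_mod_cast c6)
      obtain ⟨-, w, w1, w2⟩ := k q1 q2 (by exact_mod_cast c5)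
      have c8 : ∀ x, 0 < v x + w x := fun x => (le_total (f x) q2).elim
        (fun d => add_pos_of_pos_of_nonneg ((v2 x).2.2 d) (w2 x).1)
        fun d => add_pos_of_nonneg_of_pos (v2 x).1 ((w2 x).2.2 d)
      refine ⟨_, h.toRn.div w1 (h.add _ v1 _ w1) fun x => (c8 x).ne', fun x =>
        ⟨div_nonneg (w2 x).1 (c8 x).le, (div_le_one (c8 x)).2 (le_add_of_nonneg_left (v2 x).1),
          fun d => ?_, fun d => ?_⟩⟩
      · rw [(w2 x).2.1 ((psi_mono.le_iff_le.1 (d.trans_eq hα.symm)).trans c4.le), zero_div]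
      · have := (v2 x).2.1 (c7.le.trans (psi_mono.le_iff_le.1 (hβ.trans_le d)))
        have d1 := c8 x
        simp only [Pi.add_apply, this, zero_add] at d1 ⊢
        exact div_self d1.ne'
  refine h.toRn.of (h.toRn.div k2 (h.toRn.sub h.toRn.one (h.abs k2)) fun x => ?_) fun x => ?_
  · rw [k1]
    positivity
  · rw [k1]
    field_simp

end Pool.Agent.Lib.MP_d63cb0_gt.H15
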