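import Pool.Agent.Lib.MP_d63cb0_gt.H15.Cond

/-!
Reductions of conditions and amalgamation.
-/

namespace Pool.Agent.Lib.MP_d63cb0_gt.H15

open Pool.Agent.Lib.MP_fecf72_lc Set

variable {p p0 q r : Cn} {δ : K} {σ : K → K}

/-- `p0` is a reduction of `p` below the level `δ`. -/
structure Red (p : Cn) (δ : K) (p0 : Cn) (σ : K → K) : Prop where
  v0 : Val p0
  S0 : p0.S = p.S ∩ Iio δ
  I0 : p0.I = σ '' p.I
  ins : p0.I ⊆ Iio δ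
  nrm : ∀ v, ∀ ξ ∈ p0.l v, v ∈ p0.I ∧ ξ ∈ p0.S
  lab : ∀ i ∈ p.I, Eqo p0.S (p0.l (σ i)) (p.l i)
  lt : ∀ i < δ, σ i = i
  cls : ∀ i, δ ≤ i → ∀ k, δ ≤ k → Ag p δ i k → σ i = σ k
  top : ∀ i ∈ p.I, δ ≤ i → Top p0 (σ i)

theorem red (h : Val p) (hδ : δ ∈ p.S) (h0 : om ≤ δ) (hL : Lim (Iio δ)) :
    ∃ p0 σ, Red p δ p0 σ := by
  classical
  let tr : K → Set K := fun i => p.l i ∩ (p.S ∩ Iio δ)
  obtain ⟨n, n1, n2⟩ := hL.fresh inter_subset_right (h.cS.mono (inter_subset_left (t := Iio δ)))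
    (h.cI.image tr)
  let σ : K → K := fun i => if i < δ then i else n (tr i)
  have s1 : ∀ i < δ, σ i = i := fun i hi => if_pos hi
  have s2 : ∀ i, δ ≤ i → σ i = n (tr i) := fun i hi => if_neg hi.not_gt
  have s3 : ∀ i ∈ p.I, ∀ k ∈ p.I, σ i = σ k → tr i = tr k := by
    intro i hi k hk a
    rcases lt_or_ge i δ with b | b <;> rcases lt_or_ge k δ with c | c
    · rw [s1 i b, s1 k c] at a
      rw [a]
    · rw [s1 i b, s2 k c] at a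
      exact absurd a ((n2 _).2.2 i ⟨h.memS hi hδ b.le, b⟩).ne
    · rw [s2 i b, s1 k c] at a
      exact absurd a ((n2 _).2.2 k ⟨h.memS hk hδ c.le, c⟩).ne'
    · rw [s2 i b, s2 k c] at a
      exact n1 ⟨i, hi, rfl⟩ ⟨k, hk, rfl⟩ a
  let l : K → Set K := fun v => {ξ | ∃ i ∈ p.I, σ i = v ∧ ξ ∈ tr i}
  have l1 : ∀ i ∈ p.I, Eqo (p.S ∩ Iio δ) (l (σ i)) (p.l i) := fun i hi ξ hξ =>
    ⟨fun ⟨k, a1, a2, a3⟩ => (s3 k a1 i hi a2 ▸ a3 : ξ ∈ tr i).1, fun a => ⟨i, hi, rfl, a, hξ⟩⟩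
  have t1 : ∀ i ∈ p.I, δ ≤ i → Top ⟨p.S ∩ Iio δ, σ '' p.I, l⟩ (σ i) := fun i hi a =>
    ⟨⟨i, hi, rfl⟩, s2 i a ▸ (n2 _).2.2⟩
  refine ⟨⟨p.S ∩ Iio δ, σ '' p.I, l⟩, σ, ⟨h.cS.mono inter_subset_left, h.cI.image _, ?_,
    ⟨_, h.d0, s1 _ (d0_lt.trans_le h0)⟩, fun ξ a b => ⟨ξ, h.sI ξ a.1 b, s1 ξ a.2⟩, ?_,
    fun ξ a b => ⟨ξ, h.sI ξ a.1 b, s1 ξ a.2, h.self ξ a.1 b, a⟩, ?_, ?_⟩, rfl, rfl, ?_,
    fun v ξ ⟨i, a1, a2, a3⟩ => ⟨⟨i, a1, a2⟩, a3.2⟩, l1, s1, fun i a k b c => ?_, t1⟩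
  · rintro _ ⟨i, hi, rfl⟩
    rcases lt_or_ge i δ with b | b
    exacts [(s1 i b).symm ▸ h.iD hi, (s2 i b).symm ▸ (n2 _).2.1]
  · rintro _ ⟨i, hi, rfl⟩ a
    rcases lt_or_ge i δ with b | b
    · exact (a ((s1 i b).symm ▸ ⟨h.memS hi hδ b.le, b⟩)).elim
    · exact (t1 i hi b).2
  · rintro ξ a b _ ⟨i, hi, rfl⟩ c
    have := h.rs ξ a.1 b i hi ((l1 i hi ξ a).1 c)
    rwa [s1 i (this.trans_lt a.2)]
  · rintro _ ⟨i, hi, rfl⟩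
    rcases lt_or_ge i δ with b | b
    · obtain ⟨t, a1, a2⟩ := h.up i hi
      refine ⟨_, t1 t a1.1 (a1.2 δ hδ).le, fun ξ hξ => ?_⟩
      exact (l1 i hi ξ hξ.1).trans ((a2 ξ ⟨hξ.1.1, s1 i b ▸ hξ.2⟩).trans (l1 t a1.1 ξ hξ.1).symm)
    · exact ⟨_, t1 i hi b, Eqo.rfl⟩
  · rintro _ ⟨i, hi, rfl⟩
    rcases lt_or_ge i δ with b | b
    exacts [(s1 i b).symm ▸ b, (s2 i b).symm ▸ (n2 _).1]
  · rw [s2 i a, s2 k b]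
    exact congrArg n (Set.ext fun ξ => and_congr_left (c ξ))

/-- Agreement up to the coordinates of `p0`. -/
def Au (r p0 : Cn) (t v : K) : Prop := ∀ η ∈ p0.S, Eqo (r.S ∩ Iic η) (r.l t) (r.l v)

theorem amal (h : Val p) (hδ : δ ∈ p.S) (R0 : Red p δ p0 σ) (hr : Le r p0)
    (hJ : r.S ∪ r.I ⊆ Iio δ) (lam : K → K)
    (hl : ∀ i ∈ p.I, δ ≤ i → Top r (lam (σ i)) ∧ Au r p0 (lam (σ i)) (σ i))
    {k0 i0 : K} (k1 : k0 ∈ r.I) (k2 : k0 < om) (k3 : i0 ∈ p.I) (k4 : Eqo p0.S (r.l k0) (p.l i0)) :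
    ∃ q, Le q r ∧ Le q p ∧ q.S ⊆ r.S ∪ r.I ∪ p.S ∧
      (∀ i ∈ p.I, δ ≤ i → Eqo r.S (q.l i) (r.l (lam (σ i)))) ∧ Eqo p.S (q.l k0) (p.l i0) := by
  classical
  have vr := hr.vq
  have rS : ∀ ξ ∈ r.S, ξ < δ := fun ξ a => hJ (Or.inl a)
  have rI : ∀ ξ ∈ r.I, ξ < δ := fun ξ a => hJ (Or.inr a)
  have S0 : ∀ ξ ∈ p.S, ξ < δ → ξ ∈ p0.S := fun ξ a b => R0.S0 ▸ ⟨a, b⟩
  have S1 : ∀ ξ ∈ p0.S, ξ ∈ p.S ∩ Iio δ := fun ξ a => R0.S0 ▸ a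
  have I0 : ∀ i ∈ p.I, σ i ∈ p0.I := fun i a => R0.I0 ▸ ⟨i, a, rfl⟩
  have I1 : ∀ i ∈ p.I, i < δ → i ∈ r.I := fun i a b => hr.I (R0.lt i b ▸ I0 i a)
  have lab : ∀ i ∈ p.I, Eqo p0.S (r.l (σ i)) (p.l i) := fun i a =>
    (hr.l _ (I0 i a)).trans (R0.lab i a)
  have d1 : ∀ u ∈ r.I, ∃ i, i ∈ p.I ∧ Eqo p0.S (r.l u ∩ p0.S) (p.l i) ∧ (i < δ ∨ Top p i) := by
    intro u hu
    obtain ⟨v, a1, a2⟩ := hr.o3 u hu
    obtain ⟨i, a3, rfl⟩ : v ∈ σ '' p.I := R0.I0 ▸ a1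
    have a4 : Eqo p0.S (r.l u ∩ p0.S) (p.l i) := fun ξ hξ =>
      (and_iff_left hξ).trans ((a2.trans (R0.lab i a3)) ξ hξ)
    rcases lt_or_ge i δ with b | b
    · exact ⟨i, a3, a4, Or.inl b⟩
    · obtain ⟨t, a5, a6⟩ := h.up i a3
      exact ⟨t, a5.1, a4.trans fun ξ hξ => a6 ξ ⟨(S1 ξ hξ).1, lt_of_lt_of_le (S1 ξ hξ).2 b⟩,
        Or.inr a5⟩
  let df : Set K → K := fun y =>
    Classical.epsilon fun i => i ∈ p.I ∧ Eqo p0.S y (p.l i) ∧ (i < δ ∨ Top p i)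
  have d2 : ∀ u ∈ r.I, df (r.l u ∩ p0.S) ∈ p.I ∧ Eqo p0.S (r.l u) (p.l (df (r.l u ∩ p0.S))) ∧
      (df (r.l u ∩ p0.S) < δ ∨ Top p (df (r.l u ∩ p0.S))) := fun u hu =>
    let ⟨a1, a2, a3⟩ := Classical.epsilon_spec (d1 u hu)
    ⟨a1, fun ξ hξ => (and_iff_left hξ).symm.trans (a2 ξ hξ), a3⟩
  have c0 := ((vr.cS.union vr.cI).union h.cS).union h.cI
  obtain ⟨m, m1, m2⟩ := lim_univ.fresh (subset_univ _) c0 (C := {t | Top r t})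
    (vr.cI.mono fun _ a => a.1)
  let S := r.S ∪ r.I ∪ p.S
  let I := (r.I ∪ p.I) ∪ m '' {t | Top r t}
  obtain ⟨ρ, ρ1, ρ2⟩ := ex_lab (r.I ∪ p.I) (fun u => if u < δ then u else lam (σ u)) m1
    (fun t _ a => lt_irrefl _ ((m2 t).2.2 _ (a.elim (fun a => Or.inl (Or.inl (Or.inr a))) Or.inr)))
    id
  have ρ3 : ∀ u ∈ r.I, ρ u = u := fun u a => (ρ1 u (Or.inl a)).trans (if_pos (rI u a))
  have ρ4 : ∀ u ∈ p.I, δ ≤ u → ρ u = lam (σ u) := fun u a b =>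
    (ρ1 u (Or.inr a)).trans (if_neg b.not_gt)
  have mδ : ∀ t, δ < m t := fun t => (m2 t).2.2 δ (Or.inl (Or.inr hδ))
  have I2 : ∀ u ∈ I, u < δ → u ∈ r.I := by
    rintro u ((a | a) | ⟨t, -, rfl⟩) b
    exacts [a, I1 u a b, absurd b (mδ t).not_gt]
  have ρ5 : ∀ u ∈ I, δ ≤ u → Top r (ρ u) := by
    rintro u ((a | a) | ⟨t, a, rfl⟩) b
    exacts [absurd (rI u a) b.not_gt, ρ4 u a b ▸ (hl u a b).1, (ρ2 t a).symm ▸ a]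
  have ρ6 : ∀ u ∈ I, ρ u ∈ r.I := fun u a => (lt_or_ge u δ).elim
    (fun b => (ρ3 u (I2 u a b)).symm ▸ I2 u a b) fun b => (ρ5 u a b).1
  have ρ7 : ∀ i ∈ p.I, Au r p0 (ρ i) (σ i) := fun i a => (lt_or_ge i δ).elim
    (fun b η _ => by rw [ρ3 i (I1 i a b), R0.lt i b]; exact Eqo.rfl)
    fun b => ρ4 i a b ▸ (hl i a b).2
  let φ : K → K := fun u => if u ∈ p.I then u else if u = k0 then i0 else df (r.l (ρ u) ∩ p0.S)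
  have φ1 : ∀ u ∈ p.I, φ u = u := fun u a => if_pos a
  have φ2 : φ k0 = i0 := by
    by_cases a : k0 ∈ p.I
    · rw [φ1 k0 a]
      refine h.sing hδ a k3 (rI k0 k1) fun ξ hξ => ?_
      have b := S0 ξ hξ.1 hξ.2
      exact (R0.lt k0 (rI k0 k1) ▸ lab k0 a ξ b).symm.trans (k4 ξ b)
    · exact (if_neg a).trans (if_pos rfl)
  have φ3 : ∀ u ∉ p.I, u ≠ k0 → φ u = df (r.l (ρ u) ∩ p0.S) := fun u a b =>
    (if_neg a).trans (if_neg b)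
  have φ4 : ∀ u ∈ I, φ u ∈ p.I ∧ Eqo p0.S (r.l (ρ u)) (p.l (φ u)) := by
    intro u hu
    by_cases a : u ∈ p.I
    · rw [φ1 u a]
      exact ⟨a, fun ξ hξ => (ρ7 u a ξ hξ ξ ⟨hr.S hξ, mem_Iic.2 le_rfl⟩).trans (lab u a ξ hξ)⟩
    by_cases b : u = k0
    · rw [b, φ2, ρ3 k0 k1]
      exact ⟨k3, k4⟩
    · rw [φ3 u a b]
      exact ⟨(d2 _ (ρ6 u hu)).1, (d2 _ (ρ6 u hu)).2.1⟩
  have φ5 : ∀ u ∈ I, u ∉ p.I → δ ≤ u → Top p (φ u) := by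
    intro u hu a b
    have a1 := φ4 u hu
    have a2 := (d2 _ (ρ6 u hu)).2.2
    rw [← φ3 u a fun e => (rI k0 k1).not_ge (e ▸ b)] at a2
    refine a2.resolve_left fun c => ?_
    have a3 := h.memS a1.1 hδ c.le
    have a4 := S0 _ a3 c
    exact (vr.rs _ (hr.S a4) (h.iD a1.1) _ (ρ6 u hu) ((a1.2 _ a4).2
      (h.self _ a3 (h.iD a1.1)))).not_gt ((ρ5 u hu b).2 _ (hr.S a4))
  let l : K → Set K := fun u => {ξ | (ξ = u ∧ u < δ) ∨ (ξ ∈ r.S ∧ ξ ∈ r.l (ρ u)) ∨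
    (ξ ∈ p.S ∧ δ ≤ ξ ∧ ξ ∈ p.l (φ u))}
  have ID : I ⊆ D := by
    rintro u ((a | a) | ⟨t, -, rfl⟩)
    exacts [vr.iD a, h.iD a, (m2 t).2.1]
  have Lr : ∀ u ∈ I, Eqo r.S (l u) (r.l (ρ u)) := by
    refine fun u hu ξ hξ => ⟨?_, fun a => Or.inr (Or.inl ⟨hξ, a⟩)⟩
    rintro (⟨rfl, a⟩ | a | a)
    exacts [(ρ3 ξ (I2 ξ hu a)).symm ▸ vr.self ξ hξ (ID hu), a.2, absurd (rS ξ hξ) a.2.1.not_gt]
  have Lp : ∀ u ∈ I, Eqo p.S (l u) (p.l (φ u)) := by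
    intro u hu ξ hξ
    rcases lt_or_ge ξ δ with b | b
    · exact (Lr u hu ξ (hr.S (S0 ξ hξ b))).trans ((φ4 u hu).2 ξ (S0 ξ hξ b))
    · refine ⟨?_, fun a => Or.inr (Or.inr ⟨hξ, b, a⟩)⟩
      rintro (⟨rfl, a⟩ | a | a)
      exacts [absurd a b.not_gt, absurd (rS ξ a.1) b.not_gt, a.2.2]
  have Lt : ∀ u, ∀ ξ ∉ r.S, ξ < δ → ξ ∈ l u → ξ = u := by
    rintro u ξ a b (c | c | c)
    exacts [c.1, (a c.1).elim, absurd b c.2.1.not_gt]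
  have S3 : ∀ ξ ∈ S, ξ ∈ r.S ∨ (ξ ∈ p.S ∧ δ ≤ ξ) ∨ (ξ ∉ r.S ∧ Top r ξ) := by
    intro ξ a
    by_cases b : ξ ∈ r.S
    · exact Or.inl b
    rcases a with (a | a) | a
    · exact (b a).elim
    · exact Or.inr (Or.inr ⟨b, a, vr.top ξ a b⟩)
    · exact Or.inr (Or.inl ⟨a, not_lt.1 fun c => b (hr.S (S0 ξ a c))⟩)
  have S4 : ∀ α ∈ r.S, ∀ ξ ∈ S ∩ Iio α, ξ ∈ r.S ∩ Iio α := fun α hα ξ hξ =>
    ⟨(S3 ξ hξ.1).elim id fun a => a.elim (fun a => absurd (lt_trans hξ.2 (rS α hα)) a.2.not_gt)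
      fun a => absurd (a.2.2 α hα) (not_lt.2 (le_of_lt hξ.2)), hξ.2⟩
  have pI : p.I ⊆ I := fun i a => Or.inl (Or.inr a)
  have o2 : ∀ i ∈ p.I, ∀ k ∈ p.I, ∀ α ∈ p.S, Ag p α i k → Eqo (S ∩ Iio α) (l i) (l k) := by
    intro i hi k hk α hα a
    rcases lt_or_ge α δ with b | b
    · intro ξ hξ
      have a1 := S0 α hα b
      have a2 := S4 α (hr.S a1) ξ hξ
      have a3 : ξ ∈ r.S ∩ Iic α := ⟨a2.1, mem_Iic.2 (le_of_lt hξ.2)⟩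
      rw [Lr i (pI hi) ξ a2.1, Lr k (pI hk) ξ a2.1, ρ7 i hi α a1 ξ a3, ρ7 k hk α a1 ξ a3]
      exact hr.o2 _ (I0 i hi) _ (I0 k hk) α a1 (fun η hη => ((R0.lab i hi η hη.1).trans
        (a η ⟨(S1 η hη.1).1, hη.2⟩)).trans (R0.lab k hk η hη.1).symm) ξ a2
    have a' : Ag p δ i k := a.mono (inter_subset_inter_right _ (Iio_subset_Iio b))
    rcases lt_or_ge i δ with c | c
    · exact h.sing hδ hi hk c a' ▸ Eqo.rfl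
    rcases lt_or_ge k δ with d | d
    · exact h.sing hδ hk hi d a'.symm ▸ Eqo.rfl
    intro ξ hξ
    rcases S3 ξ hξ.1 with e | e | e
    · rw [Lr i (pI hi) ξ e, Lr k (pI hk) ξ e, ρ4 i hi c, ρ4 k hk d, R0.cls i c k d a']
    · rw [Lp i (pI hi) ξ e.1, Lp k (pI hk) ξ e.1, φ1 i hi, φ1 k hk]
      exact a ξ ⟨e.1, hξ.2⟩
    · have e1 := rI ξ e.2.1
      exact iff_of_false (fun a => c.not_gt (Lt i ξ e.1 e1 a ▸ e1))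
        fun a => d.not_gt (Lt k ξ e.1 e1 a ▸ e1)
  have mt : ∀ t, Top r t → Top ⟨S, I, l⟩ (m t) := fun t a =>
    ⟨Or.inr ⟨t, a, rfl⟩, fun ξ b => (m2 t).2.2 ξ (Or.inl b)⟩
  have pt : ∀ t, Top p t → Top ⟨S, I, l⟩ t := fun t a =>
    ⟨pI a.1, fun ξ b => b.elim (fun b => lt_trans (hJ b) (a.2 δ hδ)) (a.2 ξ)⟩
  have vq : Val ⟨S, I, l⟩ := by
    refine ⟨c0.mono subset_union_left, (vr.cI.union h.cI).union
      ((vr.cI.mono fun _ a => a.1).image _), ID, pI h.d0, ?_, ?_, fun ξ a b => ?_,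
      fun ξ a b j hj c => ?_, ?_⟩
    · rintro ξ ((a | a) | a) b
      exacts [Or.inl (Or.inl (vr.sI ξ a b)), Or.inl (Or.inl a), pI (h.sI ξ a b)]
    · rintro u ((a | a) | ⟨t, a, rfl⟩) b
      exacts [(b (Or.inl (Or.inr a))).elim, (pt u ⟨a, h.top u a fun c => b (Or.inr c)⟩).2,
        (mt t a).2]
    · rcases S3 ξ a with e | e | e
      · exact Or.inl ⟨rfl, rS ξ e⟩
      · exact Or.inr (Or.inr ⟨e.1, e.2, (φ1 ξ (h.sI ξ e.1 b)).symm ▸ h.self ξ e.1 b⟩)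
      · exact Or.inl ⟨rfl, rI ξ e.2.1⟩
    · rcases S3 ξ a with e | e | e
      · have e1 := vr.rs ξ e b _ (ρ6 j hj) ((Lr j hj ξ e).1 c)
        rcases lt_or_ge j δ with d | d
        exacts [ρ3 j (I2 j hj d) ▸ e1, absurd ((ρ5 j hj d).2 ξ e) e1.not_gt]
      · have e1 := h.rs ξ e.1 b _ (φ4 j hj).1 ((Lp j hj ξ e.1).1 c)
        rcases lt_or_ge j δ with d | d
        · exact d.le.trans e.2
        by_cases f : j ∈ p.I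
        exacts [φ1 j f ▸ e1, absurd ((φ5 j hj f d).2 ξ e.1) e1.not_gt]
      · exact (Lt j ξ e.1 (rI ξ e.2.1) c).ge
    · rintro u ((a | a) | ⟨t, a, rfl⟩)
      · obtain ⟨t, a1, a2⟩ := vr.up u a
        refine ⟨_, mt t a1, fun ξ hξ => ?_⟩
        by_cases b : ξ ∈ r.S
        · refine (Lr u (Or.inl (Or.inl a)) ξ b).trans (Iff.trans ?_ (Lr _ (mt t a1).1 ξ b).symm)
          rw [ρ3 u a, ρ2 t a1]
          exact a2 ξ ⟨b, hξ.2⟩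
        · have c := lt_trans hξ.2 (rI u a)
          exact iff_of_false (fun d => ne_of_lt hξ.2 (Lt u ξ b c d))
            fun d => (mδ t).not_gt (Lt _ ξ b c d ▸ c)
      · obtain ⟨t, a1, rfl | a2⟩ := h.up' a
        exacts [⟨_, pt _ a1, Eqo.rfl⟩, ⟨t, pt t a1, o2 u a t a1.1 u a2.1 a2.2⟩]
      · exact ⟨_, mt t a, Eqo.rfl⟩
  have rI' : r.I ⊆ I := fun i a => Or.inl (Or.inl a)
  refine ⟨_, ⟨vq, vr, fun ξ a => Or.inl (Or.inl a), rI', fun i a => ?_,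
    fun i a k b α c d ξ hξ => ?_, fun j a => ⟨_, ρ6 j a, Lr j a⟩,
    fun α a _ u b _ _ _ => Or.inr ⟨_, ρ6 u b, fun ξ hξ => ?_⟩⟩,
    ⟨vq, h, fun ξ a => Or.inr a, pI, fun i a => ?_, o2, fun j a => ⟨_, (φ4 j a).1, Lp j a⟩,
    fun α a b u c u' d e => ?_⟩, subset_rfl, fun i a b => ρ4 i a b ▸ Lr i (pI a),
    φ2 ▸ Lp k0 (rI' k1)⟩
  · simpa only [ρ3 i a] using Lr i (rI' a)
  · have e := S4 α c ξ hξ
    refine (Lr i (rI' a) ξ e.1).trans (Iff.trans ?_ (Lr k (rI' b) ξ e.1).symm)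
    rw [ρ3 i a, ρ3 k b]
    exact d ξ e
  · have e := S4 α a ξ hξ
    refine (Lr u b ξ e.1).trans (Iff.trans ?_ (Lr _ (rI' (ρ6 u b)) ξ e.1).symm)
    rw [ρ3 _ (ρ6 u b)]
  · simpa only [φ1 i a] using Lp i (pI a)
  · by_cases f : u ∈ p.I
    · exact Or.inr ⟨u, f, Eqo.rfl⟩
    by_cases f' : u' ∈ p.I
    · exact Or.inr ⟨u', f', e⟩
    rcases lt_or_ge u α with g | g
    · exact Or.inl (vq.sing (Or.inr a) c d g e ▸ Eqo.rfl)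
    rcases lt_or_ge u' α with g' | g'
    · exact Or.inl (vq.sing (Or.inr a) d c g' e.symm ▸ Eqo.rfl)
    have e1 : Eqo p0.S (r.l (ρ u)) (r.l (ρ u')) → Eqo p.S (l u) (l u') := fun e1 => by
      refine (Lp u c).trans (Eqo.trans ?_ (Lp u' d).symm)
      rw [φ3 u f fun e => (k2.trans_le (b.trans g)).ne' e,
        φ3 u' f' fun e => (k2.trans_le (b.trans g')).ne' e,
        show r.l (ρ u) ∩ p0.S = r.l (ρ u') ∩ p0.S from Set.ext fun ξ => and_congr_left (e1 ξ)]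
      exact Eqo.rfl
    have e2 : Ag r α (ρ u) (ρ u') := fun ξ hξ => ((Lr u c ξ hξ.1).symm.trans
      (e ξ ⟨Or.inl (Or.inl hξ.1), hξ.2⟩)).trans (Lr u' d ξ hξ.1)
    rcases lt_or_ge α δ with j | j
    · have a1 := S0 α a j
      rcases hr.o4 α a1 b _ (ρ6 u c) _ (ρ6 u' d) e2 with e3 | ⟨v, e3, e4⟩
      · exact Or.inl (e1 e3)
      obtain ⟨k, e5, rfl⟩ : v ∈ σ '' p.I := R0.I0 ▸ e3
      refine Or.inr ⟨k, e5, fun ξ hξ => ?_⟩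
      have e6 := S4 α (hr.S a1) ξ hξ
      exact ((Lr u c ξ e6.1).trans (e4 ξ e6)).trans ((Lr k (pI e5) ξ e6.1).trans
        (ρ7 k e5 α a1 ξ ⟨e6.1, mem_Iic.2 (le_of_lt hξ.2)⟩)).symm
    · exact Or.inl (e1 fun ξ hξ => e2 ξ ⟨hr.S hξ, lt_of_lt_of_le (S1 ξ hξ).2 j⟩)

end Pool.Agent.Lib.MP_d63cb0_gt.H15
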