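import Pool.Agent.Lib.MP_d63cb0_gt.H15.Tm

/-!
Topologies of a model that are generated by a base.
-/

namespace Pool.Agent.Lib.MP_d63cb0_gt.H15

open Pool.Agent.Lib.MP_fecf72_lc Set

variable {M : Set V} {X : Type} {c : X → V} {B : Set (Set X)}

/-- The space of the model `M` with base `B`. -/
def gen (M : Set V) (c : X → V) (B : Set (Set X)) : Sp :=
  ⟨X, c, {W | img W c ∈ M ∧ ∀ a ∈ W, ∃ b ∈ B, a ∈ b ∧ b ⊆ W}⟩

theorem mem_img' (h : Function.Injective c) {s : Set X} {a : X} : c a ∈ img s c ↔ a ∈ s :=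
  mem_img.trans ⟨fun ⟨_, k, e⟩ => h e ▸ k, fun k => ⟨a, k, rfl⟩⟩

theorem gen_base (hM : IsZFC M) (hB : img B (fun b => img b c) ∈ M) {b : Set X} (h : b ∈ B) :
    b ∈ (gen M c B).T :=
  ⟨hM.trans _ hB _ (mem_img.2 ⟨b, h, rfl⟩), fun _ k => ⟨b, h, k, subset_rfl⟩⟩

theorem zf_pair (hM : IsZFC M) {y z : V} (h : ZFSet.pair y z ∈ M) : y ∈ M ∧ z ∈ M :=
  have k : ({y, z} : V) ∈ M := hM.trans _ h _ (by simp [ZFSet.pair])
  ⟨hM.trans _ k _ (by simp), hM.trans _ k _ (by simp)⟩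

theorem tych_gen (hM : IsZFC M) (inj : Function.Injective c) (hu : img univ c ∈ M)
    (hB : img B (fun b => img b c) ∈ M) (cov : ∀ a, ∃ b ∈ B, a ∈ b)
    (int : ∀ b ∈ B, ∀ b' ∈ B, b ∩ b' ∈ B) (t1 : ∀ a a', a' ≠ a → ∃ b ∈ B, a' ∈ b ∧ a ∉ b)
    (creg : ∀ b ∈ B, ∀ a ∈ b, ∃ f ∈ (gen M c B).C M, f a = 0 ∧ ∀ a' ∉ b, f a' = 1) :
    Tych M (gen M c B) := by
  have hc : ∀ a, c a ∈ M := fun a => hM.trans _ hu _ (mem_img.2 ⟨a, trivial, rfl⟩)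
  refine ⟨inj, hu, ?_, ⟨hu, fun a _ => let ⟨b, h1, h2⟩ := cov a; ⟨b, h1, h2, subset_univ _⟩⟩,
    fun W h W' h' => ⟨?_, fun a k => ?_⟩, fun F h1 h2 => ⟨?_, fun a ⟨W, k1, k2⟩ => ?_⟩,
    fun a => ⟨?_, fun a' k => ?_⟩, fun W h a k => ?_⟩
  · obtain ⟨y, y1, y2⟩ := hM.power _ hu
    obtain ⟨t, t1, t2⟩ := hM.separation (.all (.not (.and (.mem 0 1) (.all (.not (.and (.mem 0 3)
      (.and (.mem 1 0) (.all (.not (.and (.mem 0 1) (.not (.mem 0 3))))))))))))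
      [img B fun b => img b c] (by simpa using hB) y y1
    convert t1
    ext w
    rw [t2, mem_img]
    simp only [Sat, List.getD_cons_zero, List.getD_cons_succ, not_and, not_forall, not_not,
      exists_prop, not_exists]
    constructor
    · rintro ⟨W, ⟨k1, k2⟩, rfl⟩
      refine ⟨(y2 _ k1).2 fun u hu => ?_, fun u _ hu => ?_⟩
      · obtain ⟨a, -, rfl⟩ := mem_img.1 hu
        exact mem_img.2 ⟨a, trivial, rfl⟩
      · obtain ⟨a, k3, rfl⟩ := mem_img.1 hu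
        obtain ⟨b, k4, k5, k6⟩ := k2 a k3
        refine ⟨_, (gen_base hM hB k4).1, mem_img.2 ⟨b, k4, rfl⟩, mem_img.2 ⟨a, k5, rfl⟩,
          fun v _ hv => ?_⟩
        obtain ⟨a', k7, rfl⟩ := mem_img.1 hv
        exact mem_img.2 ⟨a', k6 k7, rfl⟩
    · rintro ⟨k1, k2⟩
      have k3 := hM.trans _ y1 _ k1
      have e : img {a | c a ∈ w} c = w := ZFSet.ext fun u => mem_img.trans
        ⟨fun ⟨_, k, e⟩ => e ▸ k, fun k =>
          let ⟨a, _, e⟩ := mem_img.1 ((y2 _ k3).1 k1 k); ⟨a, show c a ∈ w from e ▸ k, e⟩⟩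
      refine ⟨{a | c a ∈ w}, ⟨e.symm ▸ k3, fun a k => ?_⟩, e⟩
      obtain ⟨_, -, k4, k5, k6⟩ := k2 _ (hc a) k
      obtain ⟨b, k7, rfl⟩ := mem_img.1 k4
      exact ⟨b, k7, (mem_img' inj).1 k5, fun a' k => k6 _ (hc a') (mem_img.2 ⟨a', k, rfl⟩)⟩
  · obtain ⟨t, t1, t2⟩ := hM.separation (.mem 0 1) [img W' c] (List.forall_mem_singleton.2 h'.1) _ h.1
    convert t1
    ext w
    rw [t2]
    simp only [Sat, List.getD_cons_zero, List.getD_cons_succ, mem_img]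
    exact ⟨fun ⟨a, k, e⟩ => ⟨⟨a, k.1, e⟩, a, k.2, e⟩,
      fun ⟨⟨a, k, e⟩, a', k', e'⟩ => ⟨a, ⟨k, inj (e'.trans e.symm) ▸ k'⟩, e⟩⟩
  · obtain ⟨b, k1, k2, k3⟩ := h.2 a k.1
    obtain ⟨b', k4, k5, k6⟩ := h'.2 a k.2
    exact ⟨_, int b k1 b' k4, ⟨k2, k5⟩, inter_subset_inter k3 k6⟩
  · convert hM.union _ h2
    ext w
    simp only [ZFSet.mem_sUnion, mem_img]
    exact ⟨fun ⟨a, ⟨W, k1, k2⟩, e⟩ => ⟨_, ⟨W, k1, rfl⟩, mem_img.2 ⟨a, k2, e⟩⟩,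
      fun ⟨_, ⟨W, k1, rfl⟩, k2⟩ => let ⟨a, k3, e⟩ := mem_img.1 k2; ⟨a, ⟨W, k1, k3⟩, e⟩⟩
  · obtain ⟨b, k3, k4, k5⟩ := (h1 k1).2 a k2
    exact ⟨b, k3, k4, k5.trans (subset_sUnion_of_mem k1)⟩
  · obtain ⟨t, t1, t2⟩ := hM.separation (.not (.eq 0 1)) [c a] (by simpa using hc a) _ hu
    convert t1
    ext w
    rw [t2]
    simp only [Sat, List.getD_cons_zero, List.getD_cons_succ, mem_img]
    exact ⟨fun ⟨a', k, e⟩ => ⟨⟨a', trivial, e⟩, fun e' => k (inj (e.trans e'))⟩,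
      fun ⟨⟨a', _, e⟩, k⟩ => ⟨a', fun e' => k (e ▸ congrArg c e'), e⟩⟩
  · obtain ⟨b, k1, k2, k3⟩ := t1 a a' k
    exact ⟨b, k1, k2, fun u hu e => k3 (e ▸ hu)⟩
  · obtain ⟨b, k1, k2, k3⟩ := h.2 a k
    obtain ⟨f, k4, k5, k6⟩ := creg b k1 a k2
    exact ⟨f, k4, k5, fun a' k7 => k6 a' fun k8 => k7 (k3 k8)⟩

theorem pair_mem_gr {α : Type} {s : Set α} {f g : α → V} (h : Function.Injective f) {a : α}
    {y : V} : ZFSet.pair (f a) y ∈ img s (fun a => ZFSet.pair (f a) (g a)) ↔ a ∈ s ∧ g a = y := by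
  simp only [mem_img, ZFSet.pair_inj]
  exact ⟨fun ⟨_, k, e, e'⟩ => h e ▸ ⟨k, e'⟩, fun k => ⟨a, k.1, rfl, k.2⟩⟩

theorem pair_mem_fC {S : Sp} (h : Function.Injective S.c) {f : S.X → ℝ} {a : S.X} {r : ℝ} :
    ZFSet.pair (S.c a) (realC r) ∈ S.fC f ↔ f a = r :=
  (pair_mem_gr h).trans ⟨fun k => realC_inj k.2, fun k => ⟨trivial, congrArg realC k⟩⟩

theorem fC_inj {S : Sp} (h : Function.Injective S.c) : Function.Injective S.fC := fun _ _ e =>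
  funext fun _ => ((pair_mem_fC h).1 (e ▸ (pair_mem_fC h).2 rfl)).symm

end Pool.Agent.Lib.MP_d63cb0_gt.H15
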