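import Pool.Agent.Lib.MP_fecf72_lc.Zfc

/-!
A calculus of properties of generic extensions of countable hulls that are decided by forcing.
-/

namespace Pool.Agent.Lib.MP_d63cb0_gt.H15

open Pool.Agent.Lib.MP_fecf72_lc Set Filter

universe u v w

variable {U : Type 1} {R : U → U → Prop}

/-- The filter meets a set of conditions. -/
def Hd (G b : Set U) : Prop := ∃ p ∈ G, p ∈ b

/-- Properties that are decided by forcing. -/
def Fc (R : U → U → Prop) {ι : Type u} [Srt ι] (Φ : ι → Set Wd → Set U → Prop) : Prop :=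
  ∃ b : ι → Set U, ∀ᶠ N in Club, ∀ G, GG N R G → ∀ a, In N a → (Φ a N G ↔ Hd G (b a))

section

variable {ι : Type u} {κ : Type v} {sι : Srt ι} {sκ : Srt κ} {Φ Ψ : ι → Set Wd → Set U → Prop}

theorem Fc.congr (h : Fc R Ψ)
    (k : ∀ᶠ N in Club, ∀ G, GG N R G → ∀ a, In N a → (Φ a N G ↔ Ψ a N G)) : Fc R Φ := by
  obtain ⟨b, hb⟩ := h
  refine ⟨b, ?_⟩
  filter_upwards [hb, k] with N h1 h2 G hG a ha using (h2 G hG a ha).trans (h1 G hG a ha)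

theorem Fc.hd (b : ι → Set U) : Fc R fun a _ G => Hd G (b a) :=
  ⟨b, Eventually.of_forall fun _ _ _ _ _ => Iff.rfl⟩

theorem Fc.ground (P : ι → Prop) : Fc R fun a _ _ => P a :=
  ⟨fun a => {_p | P a}, club_ne.mono fun _ h G hG _ _ =>
    ⟨fun k => let ⟨q, hq⟩ := h G hG; ⟨q, hq, k⟩, fun ⟨_, _, k⟩ => k⟩⟩

theorem Fc.comap (h : Fc R Φ) (g : κ → ι) : Fc R fun a => Φ (g a) := by
  obtain ⟨b, hb⟩ := h
  refine ⟨fun a => b (g a), ?_⟩
  filter_upwards [hb, clo1 g] with N h1 h2 G hG a ha using h1 G hG _ (h2 a ha)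

theorem Fc.and (h : Fc R Φ) (k : Fc R Ψ) : Fc R fun a N G => Φ a N G ∧ Ψ a N G := by
  obtain ⟨b, hb⟩ := h
  obtain ⟨c, hc⟩ := k
  refine ⟨fun a => {p | (∃ s ∈ b a, R p s) ∧ ∃ s ∈ c a, R p s}, ?_⟩
  filter_upwards [hb, hc] with N h1 h2 G hG a ha
  rw [h1 G hG a ha, h2 G hG a ha]
  constructor
  · rintro ⟨⟨p, hp, h3⟩, q, hq, h4⟩
    obtain ⟨r, h5, h6, h7⟩ := hG.f.2 p hp q hq
    exact ⟨r, h5, ⟨p, h3, h6⟩, q, h4, h7⟩
  · rintro ⟨r, hr, ⟨p, h3, h4⟩, q, h5, h6⟩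
    exact ⟨⟨p, hG.f.1 r hr p h4, h3⟩, q, hG.f.1 r hr q h6, h5⟩

theorem Fc.not (h : Fc R Φ) : Fc R fun a N G => ¬ Φ a N G := by
  obtain ⟨b, hb⟩ := h
  refine ⟨fun a => {p | ∀ q, R q p → ∀ s ∈ b a, ¬ R q s}, ?_⟩
  filter_upwards [hb, clo1 fun a => {p | (∃ s ∈ b a, R p s) ∨ ∀ q, R q p → ∀ s ∈ b a, ¬ R q s}]
    with N h1 h2 G hG a ha
  rw [h1 G hG a ha]
  constructor
  · intro h
    obtain ⟨d, ⟨s, h3, h4⟩ | h3, h5, -⟩ := hG.g _ (h2 a ha) (fun p hp => by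
      by_cases k : ∃ q, R q p ∧ ∃ s ∈ b a, R q s
      · obtain ⟨q, k1, k2⟩ := k
        exact ⟨q, Or.inl k2, k1⟩
      · exact ⟨p, Or.inr fun q k1 s k2 k3 => k ⟨q, k1, s, k2, k3⟩, hp⟩)
    · exact (h ⟨s, hG.f.1 d h5 s h4, h3⟩).elim
    · exact ⟨d, h5, h3⟩
  · rintro ⟨p, hp, h3⟩ ⟨s, hs, h4⟩
    obtain ⟨r, -, h5, h6⟩ := hG.f.2 p hp s hs
    exact h3 r h5 s h4 h6

theorem Fc.imp (h : Fc R Φ) (k : Fc R Ψ) : Fc R fun a N G => Φ a N G → Ψ a N G :=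
  (h.and k.not).not.congr (Eventually.of_forall fun _ _ _ _ _ => by tauto)

theorem Fc.or (h : Fc R Φ) (k : Fc R Ψ) : Fc R fun a N G => Φ a N G ∨ Ψ a N G :=
  (h.not.and k.not).not.congr (Eventually.of_forall fun _ _ _ _ _ => by tauto)

theorem Fc.iff (h : Fc R Φ) (k : Fc R Ψ) : Fc R fun a N G => Φ a N G ↔ Ψ a N G :=
  ((h.imp k).and (k.imp h)).congr (Eventually.of_forall fun _ _ _ _ _ => iff_iff_implies_and_implies)

end

variable {ι : Type u} {κ : Type v} [Srt ι] [Srt κ]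

theorem Fc.ex (hR : Fo R) [Srt (ι × κ)] {Θ : ι → κ → Set Wd → Set U → Prop}
    (h : Fc R fun z : ι × κ => Θ z.1 z.2) : Fc R fun a N G => ∃ k, In N k ∧ Θ a k N G := by
  obtain ⟨b, hb⟩ := h
  refine ⟨fun a => ⋃ k, b (a, k), ?_⟩
  filter_upwards [hb, clo_pair ι κ, club_wit1 hR fun a s k => s ∈ b (a, k)]
    with N h1 h2 h3 G hG a ha
  constructor
  · rintro ⟨k, hk, h4⟩
    obtain ⟨p, hp, h5⟩ := (h1 G hG (a, k) ((h2 _ _).2 ⟨ha, hk⟩)).1 h4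
    exact ⟨p, hp, mem_iUnion.2 ⟨k, h5⟩⟩
  · rintro ⟨p, hp, h4⟩
    obtain ⟨s, hs, k, hk, h5⟩ := h3 G hG a ha ⟨p, hp, mem_iUnion.1 h4⟩
    exact ⟨k, hk, (h1 G hG (a, k) ((h2 _ _).2 ⟨ha, hk⟩)).2 ⟨s, hs, h5⟩⟩

theorem Fc.all (hR : Fo R) [Srt (ι × κ)] {Θ : ι → κ → Set Wd → Set U → Prop}
    (h : Fc R fun z : ι × κ => Θ z.1 z.2) : Fc R fun a N G => ∀ k, In N k → Θ a k N G :=
  (Fc.ex hR (Θ := fun a k N G => ¬ Θ a k N G) h.not).not.congr
    (Eventually.of_forall fun _ _ _ _ _ => by simp)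

theorem Fc.allc (hR : Fo R) [Srt (ι × κ)] [Countable κ] {Θ : ι → κ → Set Wd → Set U → Prop}
    (h : Fc R fun z : ι × κ => Θ z.1 z.2) : Fc R fun a N G => ∀ k, Θ a k N G :=
  (Fc.all hR h).congr ((clo_ctbl κ).mono fun _ h _ _ _ _ =>
    ⟨fun k a _ => k a, fun k a => k a (h a)⟩)

theorem Fc.exc (hR : Fo R) [Srt (ι × κ)] [Countable κ] {Θ : ι → κ → Set Wd → Set U → Prop}
    (h : Fc R fun z : ι × κ => Θ z.1 z.2) : Fc R fun a N G => ∃ k, Θ a k N G :=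
  (Fc.ex hR h).congr ((clo_ctbl κ).mono fun _ h _ _ _ _ =>
    ⟨fun ⟨a, k⟩ => ⟨a, h a, k⟩, fun ⟨a, _, k⟩ => ⟨a, k⟩⟩)

/-- The property `P` of members of the hull belongs to the generic extension. -/
def Int (N : Set Wd) (G : Set U) {κ : Type v} [Srt κ] [Srt (κ → Set U)] (P : κ → Prop) : Prop :=
  ∃ b : κ → Set U, In N b ∧ ∀ k, In N k → (P k ↔ Hd G (b k))

theorem Fc.int [Srt (ι × κ)] [Srt (κ → Set U)] {Θ : ι → κ → Set Wd → Set U → Prop}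
    (h : Fc R fun z : ι × κ => Θ z.1 z.2) :
    ∀ᶠ N in Club, ∀ G, GG N R G → ∀ a, In N a → Int N G fun k => Θ a k N G := by
  obtain ⟨b, hb⟩ := h
  filter_upwards [hb, clo_pair ι κ, clo1 fun a k => b (a, k)] with N h1 h2 h3 G hG a ha
  exact ⟨_, h3 a ha, fun k hk => h1 G hG (a, k) ((h2 _ _).2 ⟨ha, hk⟩)⟩

/-- Countably closed forcing. -/
def SC (R : U → U → Prop) : Prop :=
  ∀ p : ℕ → U, (∀ n, R (p (n + 1)) (p n)) → ∃ q, ∀ n, R q (p n)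

/-- Countable choice with values in the ground model. -/
theorem icc0 (hR : Fo R) (hS : SC R) (T : Type v) [Srt T] [Nonempty T] [Srt (ℕ × T)]
    [Srt (ℕ → T)] [Srt (ℕ × T → Set U)] : ∀ᶠ N in Club, ∀ G, GG N R G → ∀ P : ℕ × T → Prop,
    Int N G P → (∀ n, ∃ t, In N t ∧ P (n, t)) → ∃ s : ℕ → T, In N s ∧ ∀ n, P (n, s n) := by
  filter_upwards [club_ne, clo_pair ℕ T, clo_ctbl ℕ, clo1n fun (s : ℕ → T) n => s n,
    club_wit2 hR fun (b : ℕ × T → Set U) q (s : ℕ → T) => (∀ n, ∃ r ∈ b (n, s n), R q r) ∨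
      ∃ n, ∀ r, R r q → ∀ t, ∀ r' ∈ b (n, t), ¬ R r r'] with N ne cp cn ca w G hG P ⟨b, hb, hP⟩ h
  obtain ⟨q0, hq0⟩ := ne G hG
  obtain ⟨q, hq, s, hs, h1 | ⟨n, h1⟩⟩ := w G hG b hb ⟨q0, hq0, fun r hr => by
    by_cases k : ∃ q, R q r ∧ ∃ n, ∀ r, R r q → ∀ t, ∀ r' ∈ b (n, t), ¬ R r r'
    · obtain ⟨q, k1, k2⟩ := k
      exact ⟨q, fun _ => Classical.arbitrary T, k1, Or.inr k2⟩
    · have : ∀ q, R q r → ∀ n, ∃ r t, R r q ∧ ∃ r' ∈ b (n, t), R r r' := by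
        intro q hq n
        by_contra k'
        exact k ⟨q, hq, n, fun r k1 t r' k2 k3 => k' ⟨r, t, k1, r', k2, k3⟩⟩
      choose! f g hf using this
      let p : ℕ → U := fun n => Nat.rec r (fun n q => f q n) n
      have hp : ∀ n, R (p n) r := by
        intro n
        induction n with
        | zero => exact hR.l hr
        | succ n ih => exact hR.tr (hf _ ih n).1 ih
      obtain ⟨q, hq⟩ := hS p fun n => (hf _ (hp n) n).1
      refine ⟨q, fun n => g (p n) n, hq 0, Or.inl fun n => ?_⟩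
      obtain ⟨r', k1, k2⟩ := (hf _ (hp n) n).2
      exact ⟨r', k1, hR.tr (hq (n + 1)) k2⟩⟩
  · refine ⟨s, hs, fun n => (hP _ ((cp _ _).2 ⟨cn n, ca s hs n⟩)).2 ?_⟩
    obtain ⟨r, h2, h3⟩ := h1 n
    exact ⟨r, hG.f.1 q hq r h3, h2⟩
  · obtain ⟨t, ht, h2⟩ := h n
    obtain ⟨r', h3, h4⟩ := (hP _ ((cp _ _).2 ⟨cn n, ht⟩)).1 h2
    obtain ⟨r, -, h5, h6⟩ := hG.f.2 q hq r' h3
    exact (h1 r h5 t r' h4 h6).elim

theorem icc (hR : Fo R) (hS : SC R) {T : Type} [Nonempty T] [Srt (ι × ℕ × T)]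
    {Θ : ι → ℕ → T → Set Wd → Set U → Prop}
    (h : Fc R fun z : ι × ℕ × T => Θ z.1 z.2.1 z.2.2) : ∀ᶠ N in Club, ∀ G, GG N R G →
    ∀ a, In N a → (∀ n, ∃ t, In N t ∧ Θ a n t N G) →
      ∃ s : ℕ → T, In N s ∧ ∀ n, Θ a n (s n) N G := by
  filter_upwards [icc0 hR hS T, Fc.int (Θ := fun a (z : ℕ × T) => Θ a z.1 z.2) h]
    with N h1 h2 G hG a ha k using h1 G hG _ (h2 G hG a ha) k

theorem club_finset (C : Type) : ∀ᶠ N in Club, ∀ F : Finset C, In N F ↔ ∀ c ∈ F, In N c := by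
  classical
  filter_upwards [clo0 (∅ : Finset C), clo2 fun (c : C) (F : Finset C) => insert c F,
    clo_sub (fun F : Finset C => (F : Set C)) fun F => F.countable_toSet] with N h1 h2 h3 F
  refine ⟨fun h c hc => h3 F h c hc, fun h => ?_⟩
  induction F using Finset.induction_on with
  | empty => exact h1
  | insert c F _ ih =>
    exact h2 c F (h c (Finset.mem_insert_self _ _)) (ih fun d hd => h d (Finset.mem_insert_of_mem hd))

open Classical in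
/-- Name for a maximal consistent family. -/
noncomputable def mx (R : U → U → Prop) {C : Type} (b : Finset C → Set U) : C → Set U :=
  (WellOrderingRel.isWellOrder (α := C)).wf.fix fun c m =>
    {p | ∀ q, R q p → ∀ F : Finset C, (∀ j ∈ F, ∃ h : WellOrderingRel j c, ∃ s ∈ m j h, R q s) →
      ∃ r, R r q ∧ ∃ s ∈ b (insert c F), R r s}

open Classical in
theorem mx_eq {C : Type} (b : Finset C → Set U) (c : C) : mx R b c =
    {p | ∀ q, R q p → ∀ F : Finset C, (∀ j ∈ F, WellOrderingRel j c ∧ ∃ s ∈ mx R b j, R q s) →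
      ∃ r, R r q ∧ ∃ s ∈ b (insert c F), R r s} := by
  rw [mx, WellFounded.fix_eq]
  simp only [exists_prop]

theorem IsF.fin (hR : Fo R) {G : Set U} (hG : IsF R G) {C : Type} (F : Finset C) {m : C → Set U}
    (h : ∀ j ∈ F, Hd G (m j)) {p : U} (hp : p ∈ G) :
    ∃ q ∈ G, R q p ∧ ∀ j ∈ F, ∃ s ∈ m j, R q s := by
  classical
  induction F using Finset.induction_on with
  | empty => exact ⟨p, hp, hG.self hR hp, by simp⟩
  | insert c F _ ih =>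
    obtain ⟨q, h1, h2, h3⟩ := ih fun j hj => h j (Finset.mem_insert_of_mem hj)
    obtain ⟨s, h4, h5⟩ := h c (Finset.mem_insert_self _ _)
    obtain ⟨r, h6, h7, h8⟩ := hG.2 q h1 s h4
    refine ⟨r, h6, hR.tr h7 h2, fun j hj => ?_⟩
    rcases Finset.mem_insert.1 hj with rfl | hj
    · exact ⟨s, h5, h8⟩
    · obtain ⟨s', k1, k2⟩ := h3 j hj
      exact ⟨s', k1, hR.tr h7 k2⟩

open Classical in
/-- Maximal consistent families exist in the generic extension. -/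
theorem imax (hR : Fo R) (C : Type) : ∀ᶠ N in Club, ∀ G, GG N R G → ∀ P : Finset C → Prop,
    Int N G P → P ∅ → ∃ q : C → Prop, Int N G q ∧
      (∀ F : Finset C, (∀ c ∈ F, In N c ∧ q c) → P F) ∧
      ∀ c, In N c → (∀ F : Finset C, (∀ c ∈ F, In N c ∧ q c) → P (insert c F)) → q c := by
  filter_upwards [club_ne, club_finset C, clo1 (mx R (C := C)),
    clo_pair (Finset C → Set U) C, clo_pair (Finset C → Set U) (Finset C),
    club_wit2 hR fun (z : (Finset C → Set U) × Finset C) q (_ : ℕ) => ∃ s ∈ z.1 z.2, R q s,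
    club_wit2 hR fun (z : (Finset C → Set U) × C) q (F : Finset C) => q ∈ mx R z.1 z.2 ∨
      ((∀ j ∈ F, WellOrderingRel j z.2 ∧ ∃ s ∈ mx R z.1 j, R q s) ∧
        ∀ r, R r q → ∀ s ∈ z.1 (insert z.2 F), ¬ R r s)]
    with N ne cf cm cp cp' w1 w2 G hG P ⟨b, hb, hP⟩ h0
  have ins : ∀ (c : C) (F : Finset C), In N c → (∀ c ∈ F, In N c) → In N (insert c F) :=
    fun c F h1 h2 => (cf _).2 fun j hj => (Finset.mem_insert.1 hj).elim (fun e => by rw [e]; exact h1) (h2 j)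
  have k1 : ∀ (c : C) (F : Finset C), In N c → Hd G (mx R b c) →
      (∀ j ∈ F, In N j ∧ WellOrderingRel j c ∧ Hd G (mx R b j)) → P (insert c F) := by
    rintro c F hc ⟨p, hp, h1⟩ h2
    have h3 := ins c F hc fun j hj => (h2 j hj).1
    obtain ⟨q, h4, h5, h6⟩ := IsF.fin hR hG.f F (fun j hj => (h2 j hj).2.2) hp
    rw [mx_eq] at h1
    obtain ⟨r, h7, -, -, s, h8, h9⟩ := w1 G hG (b, insert c F) ((cp' _ _).2 ⟨hb, h3⟩)
      ⟨q, h4, fun r hr => by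
        obtain ⟨r', a1, a2⟩ := h1 r (hR.tr hr h5) F fun j hj => ⟨(h2 j hj).2.1,
          let ⟨s, a1, a2⟩ := h6 j hj; ⟨s, a1, hR.tr hr a2⟩⟩
        exact ⟨r', 0, a1, a2⟩⟩
    exact (hP _ h3).2 ⟨s, hG.f.1 r h7 s h9, h8⟩
  refine ⟨fun c => Hd G (mx R b c), ⟨_, cm b hb, fun _ _ => Iff.rfl⟩, fun F hF => ?_,
    fun c hc h => ?_⟩
  · rcases F.eq_empty_or_nonempty with rfl | hne
    · exact h0
    obtain ⟨m, hm, hm'⟩ : ∃ m ∈ F, ∀ j ∈ F, j ≠ m → WellOrderingRel j m := by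
      let _ : LinearOrder C := linearOrderOfSTO WellOrderingRel
      exact ⟨_, F.max'_mem hne, fun j h1 h2 =>
        (lt_of_le_of_ne (F.le_max' j h1) h2 : j < F.max' hne)⟩
    rw [← Finset.insert_erase hm]
    refine k1 _ _ (hF _ hm).1 (hF _ hm).2 fun j hj => ?_
    have hj' := Finset.mem_erase.1 hj
    exact ⟨(hF j hj'.2).1, hm' j hj'.2 hj'.1, (hF j hj'.2).2⟩
  · obtain ⟨q0, hq0⟩ := ne G hG
    obtain ⟨q, hq, F, hF, h1 | ⟨h1, h2⟩⟩ := w2 G hG (b, c) ((cp _ _).2 ⟨hb, hc⟩)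
      ⟨q0, hq0, fun r hr => by
        by_cases k : r ∈ mx R b c
        · exact ⟨r, ∅, hR.l hr, Or.inl k⟩
        · rw [mx_eq] at k
          simp only [mem_ofPred_eq, not_forall, not_exists, not_and] at k
          obtain ⟨q, a1, F, a2, a3⟩ := k
          exact ⟨q, F, a1, Or.inr ⟨a2, a3⟩⟩⟩
    · exact ⟨q, hq, h1⟩
    · have hF' := (cf F).1 hF
      obtain ⟨s, h3, h4⟩ := (hP _ (ins c F hc hF')).1 (h F fun j hj => ⟨hF' j hj,
        let ⟨s, a1, a2⟩ := (h1 j hj).2; ⟨s, hG.f.1 q hq s a2, a1⟩⟩)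
      obtain ⟨r, -, h5, h6⟩ := hG.f.2 q hq s h3
      exact (h2 r h5 s h4 h6).elim

end Pool.Agent.Lib.MP_d63cb0_gt.H15
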