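import Pool.Agent.Lib.MP_d63cb0_gt.H15.Ord
import Pool.Agent.Lib.MP_d63cb0_gt.H15.Calc

/-!
The forcing conditions, limits of chains and simple extensions.
-/

namespace Pool.Agent.Lib.MP_d63cb0_gt.H15

open Pool.Agent.Lib.MP_fecf72_lc Set

/-- Two sets agree on `S`. -/
def Eqo (S y y' : Set K) : Prop := ∀ ξ ∈ S, (ξ ∈ y ↔ ξ ∈ y')

theorem Eqo.rfl {S y : Set K} : Eqo S y y := fun _ _ => Iff.rfl

theorem Eqo.symm {S y y' : Set K} (h : Eqo S y y') : Eqo S y' y := fun ξ k => (h ξ k).symm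

theorem Eqo.trans {S y y' y'' : Set K} (h : Eqo S y y') (h' : Eqo S y' y'') : Eqo S y y'' :=
  fun ξ k => (h ξ k).trans (h' ξ k)

theorem Eqo.mono {S S' y y' : Set K} (h : Eqo S y y') (k : S' ⊆ S) : Eqo S' y y' :=
  fun ξ k' => h ξ (k k')

/-- Conditions: coordinates, points and labels. -/
structure Cn : Type 1 where
  S : Set K
  I : Set K
  l : K → Set K

/-- Agreement of two points below a level. -/
def Ag (p : Cn) (α i k : K) : Prop := Eqo (p.S ∩ Iio α) (p.l i) (p.l k)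

/-- Points above all coordinates. -/
def Top (p : Cn) (t : K) : Prop := t ∈ p.I ∧ ∀ ξ ∈ p.S, ξ < t

/-- Valid conditions. -/
structure Val (p : Cn) : Prop where
  cS : p.S.Countable
  cI : p.I.Countable
  iD : p.I ⊆ D
  d0 : d0 ∈ p.I
  sI : ∀ ξ ∈ p.S, ξ ∈ D → ξ ∈ p.I
  top : ∀ i ∈ p.I, i ∉ p.S → ∀ ξ ∈ p.S, ξ < i
  self : ∀ ξ ∈ p.S, ξ ∈ D → ξ ∈ p.l ξ
  rs : ∀ ξ ∈ p.S, ξ ∈ D → ∀ j ∈ p.I, ξ ∈ p.l j → j ≤ ξ
  up : ∀ i ∈ p.I, ∃ t, Top p t ∧ Ag p i i t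

/-- The order of the forcing. -/
structure Le (q p : Cn) : Prop where
  vq : Val q
  vp : Val p
  S : p.S ⊆ q.S
  I : p.I ⊆ q.I
  l : ∀ i ∈ p.I, Eqo p.S (q.l i) (p.l i)
  o2 : ∀ i ∈ p.I, ∀ k ∈ p.I, ∀ α ∈ p.S, Ag p α i k → Ag q α i k
  o3 : ∀ j ∈ q.I, ∃ i ∈ p.I, Eqo p.S (q.l j) (p.l i)
  o4 : ∀ α ∈ p.S, om ≤ α → ∀ u ∈ q.I, ∀ u' ∈ q.I, Ag q α u u' →
    Eqo p.S (q.l u) (q.l u') ∨ ∃ k ∈ p.I, Ag q α u k

variable {p q r : Cn}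

theorem Val.le (h : Val p) : Le p p :=
  ⟨h, h, subset_rfl, subset_rfl, fun _ _ => Eqo.rfl, fun _ _ _ _ _ _ k => k,
    fun j hj => ⟨j, hj, Eqo.rfl⟩, fun _ _ _ u hu _ _ _ => Or.inr ⟨u, hu, Eqo.rfl⟩⟩

theorem Val.memS (h : Val p) {i α : K} (hi : i ∈ p.I) (hα : α ∈ p.S) (k : i ≤ α) : i ∈ p.S := by
  by_contra k'
  exact (h.top i hi k' α hα).not_ge k

theorem Val.sing (h : Val p) {i k α : K} (hα : α ∈ p.S) (hi : i ∈ p.I) (hk : k ∈ p.I) (h1 : i < α)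
    (h2 : Ag p α i k) : i = k := by
  have a1 := h.memS hi hα h1.le
  have a2 := h.rs i a1 (h.iD hi) k hk ((h2 i ⟨a1, h1⟩).1 (h.self i a1 (h.iD hi)))
  have a3 := h.memS hk a1 a2
  exact le_antisymm (h.rs k a3 (h.iD hk) i hi
    ((h2 k ⟨a3, a2.trans_lt h1⟩).2 (h.self k a3 (h.iD hk)))) a2

theorem Le.ag (h : Le q p) {α u u' v v' : K} (h1 : Eqo p.S (q.l u) (p.l v))
    (h2 : Eqo p.S (q.l u') (p.l v')) (k : Ag q α u u') : Ag p α v v' :=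
  fun ξ hξ => ((h1 ξ hξ.1).symm.trans (k ξ ⟨h.S hξ.1, hξ.2⟩)).trans (h2 ξ hξ.1)

theorem Le.trans (h : Le r q) (k : Le q p) : Le r p := by
  refine ⟨h.vq, k.vp, k.S.trans h.S, k.I.trans h.I,
    fun i hi => ((h.l i (k.I hi)).mono k.S).trans (k.l i hi),
    fun i hi j hj α hα a => h.o2 i (k.I hi) j (k.I hj) α (k.S hα) (k.o2 i hi j hj α hα a),
    fun j hj => ?_, fun α hα h0 u hu u' hu' a => ?_⟩
  · obtain ⟨i, a1, a2⟩ := h.o3 j hj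
    obtain ⟨i', a3, a4⟩ := k.o3 i a1
    exact ⟨i', a3, (a2.mono k.S).trans a4⟩
  · rcases h.o4 α (k.S hα) h0 u hu u' hu' a with a1 | ⟨k1, a1, a2⟩
    · exact Or.inl (a1.mono k.S)
    obtain ⟨v, a3, a4⟩ := h.o3 u hu
    obtain ⟨v', a5, a6⟩ := h.o3 u' hu'
    rcases k.o4 α hα h0 v a3 v' a5 (h.ag a4 a6 a) with a7 | ⟨k2, a7, a8⟩
    · exact Or.inl (((a4.mono k.S).trans a7).trans (a6.mono k.S).symm)
    · exact Or.inr ⟨k2, a7, Eqo.trans a2 (h.o2 k1 a1 k2 (k.I a7) α (k.S hα)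
        (Eqo.trans (h.ag a4 (h.l k1 a1) a2).symm a8))⟩

theorem fo : Fo Le := ⟨Le.trans, fun h => h.vq.le, fun h => h.vp.le⟩

/-- The largest condition. -/
def tp : Cn := ⟨∅, {d0}, fun _ => ∅⟩

theorem val_tp : Val tp :=
  ⟨countable_empty, countable_singleton _, singleton_subset_iff.2 d0_mem, rfl,
    fun _ h => h.elim, fun _ _ _ _ h => h.elim, fun _ h => h.elim, fun _ h => h.elim,
    fun i hi => ⟨i, ⟨hi, fun _ h => h.elim⟩, Eqo.rfl⟩⟩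

theorem le_tp (p : Cn) (h : Le p p) : Le p tp :=
  ⟨h.vq, val_tp, empty_subset _,
    singleton_subset_iff.2 h.vq.d0, fun _ _ _ h => h.elim, fun _ _ _ _ _ h => h.elim,
    fun _ _ => ⟨d0, rfl, fun _ h => h.elim⟩, fun _ h => h.elim⟩

theorem ex_lab {α β : Type} (I : Set K) (l : K → β) {C : Set α} {m : α → K} (h : InjOn m C)
    (h' : ∀ c ∈ C, m c ∉ I) (L : α → β) :
    ∃ l' : K → β, (∀ i ∈ I, l' i = l i) ∧ ∀ c ∈ C, l' (m c) = L c := by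
  classical
  refine ⟨fun j => if k : ∃ c ∈ C, m c = j then L k.choose else l j, fun i hi => ?_,
    fun c hc => ?_⟩
  · exact dif_neg fun ⟨c, k1, k2⟩ => h' c k1 (k2 ▸ hi)
  · have k : ∃ c' ∈ C, m c' = m c := ⟨c, hc, rfl⟩
    simp only [dif_pos k]
    rw [h k.choose_spec.1 hc k.choose_spec.2]

theorem Val.up' (h : Val p) {i : K} (hi : i ∈ p.I) :
    ∃ t, Top p t ∧ (t = i ∨ (i ∈ p.S ∧ Ag p i i t)) := by
  by_cases k : i ∈ p.S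
  · obtain ⟨t, h1, h2⟩ := h.up i hi
    exact ⟨t, h1, Or.inr ⟨k, h2⟩⟩
  · exact ⟨i, ⟨hi, h.top i hi k⟩, Or.inl rfl⟩

theorem lim (p : ℕ → Cn) (h : ∀ n, Le (p (n + 1)) (p n)) : ∃ q, (∀ n, Le q (p n)) ∧
    ∀ u ∈ q.I, ∀ n, ∃ m, ∃ v ∈ (p m).I, ∀ η ∈ (p n).S, Ag q η u v := by
  have hv : ∀ n, Val (p n) := fun n => (h n).vp
  have hm : ∀ {n m}, n ≤ m → Le (p m) (p n) := by
    intro n m k
    induction k with
    | refl => exact (hv n).le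
    | step _ ih => exact (h _).trans ih
  have hl : ∀ n m, Le (p (max n m)) (p n) := fun n m => hm (le_max_left _ _)
  have hr : ∀ n m, Le (p (max n m)) (p m) := fun n m => hm (le_max_right _ _)
  let S := ⋃ n, (p n).S
  let I := ⋃ n, (p n).I
  let l : K → Set K := fun i => {ξ | ∃ n, i ∈ (p n).I ∧ ξ ∈ (p n).S ∧ ξ ∈ (p n).l i}
  have e1 : ∀ n, ∀ i ∈ (p n).I, Eqo (p n).S (l i) ((p n).l i) := fun n i hi ξ hξ =>
    ⟨fun ⟨m, a1, a2, a3⟩ => ((hl n m).l i hi ξ hξ).1 (((hr n m).l i a1 ξ a2).2 a3),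
      fun a => ⟨n, hi, hξ, a⟩⟩
  have e2 : ∀ n, ∀ i ∈ (p n).I, ∀ k ∈ (p n).I, ∀ α ∈ (p n).S, Ag (p n) α i k →
      Eqo (S ∩ Iio α) (l i) (l k) := by
    rintro n i hi k hk α hα a ξ ⟨a1, a2⟩
    obtain ⟨m, a1⟩ := mem_iUnion.1 a1
    have a3 := (hr n m).S a1
    rw [e1 _ i ((hl n m).I hi) ξ a3, e1 _ k ((hl n m).I hk) ξ a3]
    exact (hl n m).o2 i hi k hk α hα a ξ ⟨a3, a2⟩
  choose! f hf using fun n i (hi : i ∈ (p n).I) => (hv n).up' hi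
  let t : ℕ × K → ℕ → K := fun c k => Nat.rec c.2 (fun k j => f (c.1 + k) j) k
  let C : Set (ℕ × K) := {c | c.2 ∈ (p c.1).I}
  have t1 : ∀ c ∈ C, ∀ k, t c k ∈ (p (c.1 + k)).I := by
    intro c hc k
    induction k with
    | zero => exact hc
    | succ k ih => exact (h _).I (hf _ _ ih).1.1
  have t2 : ∀ c ∈ C, ∀ k m, k ≤ m → t c k ≤ t c m ∧ Eqo (S ∩ Iio (t c k)) (l (t c k)) (l (t c m)) := by
    intro c hc k m hk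
    induction hk with
    | refl => exact ⟨le_rfl, Eqo.rfl⟩
    | @step m _ ih =>
      obtain ⟨a1, a2 | a2⟩ := hf _ _ (t1 c hc m)
      · rwa [show t c (m + 1) = t c m from a2]
      · exact ⟨ih.1.trans (a1.2 _ a2.1).le, ih.2.trans ((e2 _ _ (t1 c hc m) _ a1.1 _ a2.1 a2.2).mono
          (inter_subset_inter_right _ (Iio_subset_Iio ih.1)))⟩
  have t3 : ∀ c ∈ C, ∀ n, ∀ ξ ∈ (p n).S, ξ < t c (n + 1) := fun c hc n ξ hξ =>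
    (hf _ _ (t1 c hc n)).1.2 ξ ((hm (Nat.le_add_left _ _)).S hξ)
  let L : ℕ × K → Set K := fun c => {ξ | ∃ k, ξ < t c k ∧ ξ ∈ l (t c k)}
  have t4 : ∀ c ∈ C, ∀ k, Eqo (S ∩ Iio (t c k)) (L c) (l (t c k)) := fun c hc k ξ hξ =>
    ⟨fun ⟨m, a1, a2⟩ => ((t2 c hc k _ (le_max_left k m)).2 ξ hξ).2
      (((t2 c hc m _ (le_max_right k m)).2 ξ ⟨hξ.1, a1⟩).1 a2), fun a => ⟨k, hξ.2, a⟩⟩
  have cS : S.Countable := countable_iUnion fun n => (hv n).cS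
  have cI : I.Countable := countable_iUnion fun n => (hv n).cI
  have cC : C.Countable := (countable_univ.prod cI).mono fun c hc =>
    mem_prod.2 ⟨mem_univ _, mem_iUnion.2 ⟨c.1, hc⟩⟩
  obtain ⟨m, m1, m2⟩ := lim_univ.fresh (subset_univ _) (cS.union cI) cC
  obtain ⟨l', l1, l2⟩ := ex_lab I l m1 (fun c _ k => lt_irrefl _ ((m2 c).2.2 _ (Or.inr k))) L
  have iI : ∀ {n i}, i ∈ (p n).I → i ∈ I := fun k => mem_iUnion.2 ⟨_, k⟩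
  have iS : ∀ {n i}, i ∈ (p n).S → i ∈ S := fun k => mem_iUnion.2 ⟨_, k⟩
  have mt : ∀ c ∈ C, Top ⟨S, I ∪ m '' C, l'⟩ (m c) := fun c hc =>
    ⟨Or.inr ⟨c, hc, rfl⟩, fun ξ hξ => (m2 c).2.2 ξ (Or.inl hξ)⟩
  have key : ∀ u ∈ I ∪ m '' C, ∀ n, ∃ k, n ≤ k ∧ ∃ v ∈ (p k).I, ∀ η ∈ (p n).S,
      Eqo (S ∩ Iic η) (l' u) (l v) := by
    rintro u (hu | ⟨c, hc, rfl⟩) n
    · obtain ⟨k, hk⟩ := mem_iUnion.1 hu
      exact ⟨_, le_max_left n k, u, (hr n k).I hk, fun η _ => l1 u hu ▸ Eqo.rfl⟩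
    · refine ⟨c.1 + (n + 1), by omega, _, t1 c hc (n + 1), fun η hη => ?_⟩
      rw [l2 c hc]
      exact fun ξ hξ => t4 c hc (n + 1) ξ ⟨hξ.1, mem_Iio.2 (lt_of_le_of_lt hξ.2 (t3 c hc n η hη))⟩
  have vq : Val ⟨S, I ∪ m '' C, l'⟩ := by
    refine ⟨cS, cI.union (cC.image _), ?_, Or.inl (iI (hv 0).d0), fun ξ hξ hD => ?_, ?_,
      fun ξ hξ hD => ?_, ?_, ?_⟩
    · rintro i (hi | ⟨c, -, rfl⟩)
      exacts [let ⟨n, k⟩ := mem_iUnion.1 hi; (hv n).iD k, (m2 c).2.1]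
    · obtain ⟨n, k⟩ := mem_iUnion.1 hξ
      exact Or.inl (iI ((hv n).sI ξ k hD))
    · rintro i (hi | ⟨c, hc, rfl⟩) k ξ hξ
      · obtain ⟨n, a1⟩ := mem_iUnion.1 hi
        obtain ⟨n', a2⟩ := mem_iUnion.1 hξ
        exact (hv _).top i ((hl n n').I a1) (fun a => k (iS a)) ξ ((hr n n').S a2)
      · exact (mt c hc).2 ξ hξ
    · obtain ⟨n, k⟩ := mem_iUnion.1 hξ
      have a1 := (hv n).sI ξ k hD
      change ξ ∈ l' ξ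
      rw [l1 ξ (iI a1)]
      exact ⟨n, a1, k, (hv n).self ξ k hD⟩
    · have a0 : ∀ ξ ∈ S, ξ ∈ D → ∀ j ∈ I, ξ ∈ l j → j ≤ ξ := fun ξ _ hD j _ ⟨n, a1, a2, a3⟩ =>
        (hv n).rs ξ a2 hD j a1 a3
      rintro ξ hξ hD j (hj | ⟨c, hc, rfl⟩) a
      · exact a0 ξ hξ hD j hj (l1 j hj ▸ a)
      · obtain ⟨k, a1, a2⟩ : ξ ∈ L c := l2 c hc ▸ a
        exact absurd (a0 ξ hξ hD _ (iI (t1 c hc k)) a2) a1.not_ge
    · rintro i (hi | ⟨c, hc, rfl⟩)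
      · obtain ⟨n, a1⟩ := mem_iUnion.1 hi
        refine ⟨_, mt (n, i) a1, ?_⟩
        change Eqo _ (l' i) (l' _)
        rw [l1 i hi, l2 _ a1]
        exact (t4 (n, i) a1 0).symm
      · exact ⟨_, mt c hc, Eqo.rfl⟩
  refine ⟨_, fun n => ⟨vq, hv n, subset_iUnion (fun n => (p n).S) n,
    fun i hi => Or.inl (iI hi), fun i hi => ?_, fun i hi k hk α hα a => ?_, fun j hj => ?_,
    fun α hα h0 u hu u' hu' a => ?_⟩, fun u hu n => ?_⟩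
  · change Eqo _ (l' i) _
    rw [l1 i (iI hi)]
    exact e1 n i hi
  · change Eqo _ (l' i) (l' k)
    rw [l1 i (iI hi), l1 k (iI hk)]
    exact e2 n i hi k hk α hα a
  · obtain ⟨k, a1, v, a2, a3⟩ := key j hj n
    obtain ⟨i, a4, a5⟩ := (hm a1).o3 v a2
    exact ⟨i, a4, fun ξ hξ => ((a3 ξ hξ ξ ⟨iS hξ, mem_Iic.2 le_rfl⟩).trans
      (e1 k v a2 ξ ((hm a1).S hξ))).trans (a5 ξ hξ)⟩
  · obtain ⟨k, a1, v, a2, a3⟩ := key u hu n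
    obtain ⟨k', a4, v', a5, a6⟩ := key u' hu' n
    have b1 := (hl k k').I a2
    have b2 := (hr k k').I a5
    have b3 := hm (a1.trans (le_max_left k k'))
    rcases b3.o4 α hα h0 v b1 v' b2 (fun ξ hξ => by
      rw [← e1 _ v b1 ξ hξ.1, ← e1 _ v' b2 ξ hξ.1, ← a3 α hα ξ ⟨iS hξ.1, mem_Iic.2 (le_of_lt hξ.2)⟩,
        ← a6 α hα ξ ⟨iS hξ.1, mem_Iic.2 (le_of_lt hξ.2)⟩]
      exact a ξ ⟨iS hξ.1, hξ.2⟩) with b4 | ⟨k0, b4, b5⟩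
    · refine Or.inl fun ξ hξ => ?_
      change ξ ∈ l' u ↔ ξ ∈ l' u'
      rw [a3 ξ hξ ξ ⟨iS hξ, mem_Iic.2 le_rfl⟩, a6 ξ hξ ξ ⟨iS hξ, mem_Iic.2 le_rfl⟩, e1 _ v b1 ξ (b3.S hξ),
        e1 _ v' b2 ξ (b3.S hξ)]
      exact b4 ξ hξ
    · refine Or.inr ⟨k0, b4, fun ξ hξ => ?_⟩
      change ξ ∈ l' u ↔ ξ ∈ l' k0
      rw [a3 α hα ξ ⟨hξ.1, mem_Iic.2 (le_of_lt hξ.2)⟩, l1 k0 (iI b4)]
      exact e2 _ v b1 k0 (b3.I b4) α (b3.S hα) b5 ξ hξ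
  · obtain ⟨k, -, v, a2, a3⟩ := key u hu n
    refine ⟨k, v, a2, fun η hη ξ hξ => ?_⟩
    change ξ ∈ l' u ↔ ξ ∈ l' v
    rw [l1 v (iI a2)]
    exact a3 η hη ξ ⟨hξ.1, mem_Iic.2 (le_of_lt hξ.2)⟩

theorem sc : SC Le := fun p h => let ⟨q, k, _⟩ := lim p h; ⟨q, k⟩

theorem ext0 (h : Val p) {Z : Set K} (hZ : Z.Countable) (c : K → K)
    (hc : ∀ k ∈ p.I ∪ Z ∩ D, c k ∈ p.I ∧ (c k = k ∨ (k ∉ p.I ∧ (Top p (c k) ∨ k < c k)))) :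
    ∃ q, Le q p ∧ Z ⊆ q.S ∧ (∀ k ∈ Z ∩ D, Eqo p.S (q.l k) (p.l (c k))) ∧
      ∃ ξ ∈ q.S, ∀ t, Top p t → ∀ b : Prop, ∃ u, Top q u ∧ (ξ ∈ q.l u ↔ b) ∧
        ∀ α ∈ p.S, Ag q α t u := by
  have c0 := (h.cS.union hZ).union h.cI
  obtain ⟨x, x1, x2⟩ := (bdd2 _ (ctbl_le c0)).2
  let C : Set (K × Prop) := {z | Top p z.1}
  have cC : C.Countable := (h.cI.prod countable_univ).mono fun z hz =>
    mem_prod.2 ⟨hz.1, mem_univ _⟩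
  obtain ⟨m, m1, m2⟩ := lim_univ.fresh (subset_univ _) (c0.insert x) cC
  let I := p.I ∪ Z ∩ D
  let S := insert x (p.S ∪ Z ∪ p.I)
  have IS : I ⊆ S := by
    rintro i (hi | hi)
    exacts [Or.inr (Or.inr hi), Or.inr (Or.inl (Or.inr hi.1))]
  have ID : I ⊆ D := union_subset h.iD inter_subset_right
  have SI : ∀ ξ ∈ S, ξ ∈ D → ξ ∈ I := by
    rintro ξ (rfl | (a | a) | a) hD
    exacts [(x1 hD).elim, Or.inl (h.sI ξ a hD), Or.inr ⟨a, hD⟩, Or.inl a]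
  have SS : p.S ⊆ S := fun ξ a => Or.inr (Or.inl (Or.inl a))
  obtain ⟨l, l1, l2⟩ := ex_lab I (fun j => insert j (p.l (c j) ∩ p.S)) m1
    (fun z _ k => lt_irrefl _ ((m2 z).2.2 _ (IS k))) fun z => {ξ | ξ = x ∧ z.2} ∪ p.l z.1 ∩ p.S
  have c1 : ∀ i ∈ p.I, c i = i := fun i hi => (hc i (Or.inl hi)).2.elim id fun k => (k.1 hi).elim
  have mt : ∀ z ∈ C, Top ⟨S, I ∪ m '' C, l⟩ (m z) := fun z hz =>
    ⟨Or.inr ⟨z, hz, rfl⟩, (m2 z).2.2⟩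
  have xS : ∀ ξ ∈ p.S, ξ < x := fun ξ a => x2 ξ (Or.inl (Or.inl a))
  have e1 : ∀ j ∈ I, Eqo p.S (l j) (p.l (c j)) := fun j hj ξ hξ => by
    rw [l1 j hj]
    refine ⟨?_, fun a => Or.inr ⟨a, hξ⟩⟩
    rintro (rfl | a)
    · rw [c1 ξ (h.sI ξ hξ (ID hj))]
      exact h.self ξ hξ (ID hj)
    · exact a.1
  have e2 : ∀ z ∈ C, Eqo p.S (l (m z)) (p.l z.1) := fun z hz ξ hξ => by
    rw [l2 z hz]
    exact ⟨fun a => a.elim (fun a => absurd (xS ξ hξ) (a.1 ▸ lt_irrefl _)) And.left,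
      fun a => Or.inr ⟨a, hξ⟩⟩
  have e3 : ∀ j ∈ I, ∀ ξ ∉ p.S, ξ ∈ l j → ξ = j := fun j hj ξ hξ a => by
    rw [l1 j hj] at a
    exact a.elim id fun a => (hξ a.2).elim
  have e4 : ∀ z ∈ C, ∀ ξ ∉ p.S, ξ ∈ l (m z) → ξ = x ∧ z.2 := fun z hz ξ hξ a => by
    rw [l2 z hz] at a
    exact a.elim id fun a => (hξ a.2).elim
  have e5 : ∀ z ∈ C, ∀ α ∈ p.S, Eqo (S ∩ Iio α) (l z.1) (l (m z)) := fun z hz α hα ξ hξ => by
    by_cases k : ξ ∈ p.S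
    · rw [e1 _ (Or.inl hz.1) ξ k, e2 z hz ξ k, c1 _ hz.1]
    · exact iff_of_false (fun a => (hz.2 α hα).not_gt (e3 _ (Or.inl hz.1) ξ k a ▸ hξ.2))
        fun a => (xS α hα).not_gt ((e4 z hz ξ k a).1 ▸ hξ.2)
  have vq : Val ⟨S, I ∪ m '' C, l⟩ := by
    refine ⟨c0.insert x, (h.cI.union (hZ.mono inter_subset_left)).union (cC.image _), ?_,
      Or.inl (Or.inl h.d0), fun ξ a b => Or.inl (SI ξ a b), ?_, fun ξ a b => ?_, ?_, ?_⟩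
    · rintro i (hi | ⟨z, -, rfl⟩)
      exacts [ID hi, (m2 z).2.1]
    · rintro i (hi | ⟨z, hz, rfl⟩) k
      exacts [(k (IS hi)).elim, (mt z hz).2]
    · change ξ ∈ l ξ
      rw [l1 ξ (SI ξ a b)]
      exact mem_insert _ _
    · rintro ξ hξ hD j (hj | ⟨z, hz, rfl⟩) a
      · by_cases k : ξ ∈ p.S
        · have a1 := h.rs ξ k hD _ (hc j hj).1 ((e1 j hj ξ k).1 a)
          rcases (hc j hj).2 with a2 | ⟨-, a2 | a2⟩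
          exacts [a2 ▸ a1, absurd a1 (a2.2 ξ k).not_ge, a2.le.trans a1]
        · exact (e3 j hj ξ k a).ge
      · by_cases k : ξ ∈ p.S
        · exact absurd (h.rs ξ k hD _ hz.1 ((e2 z hz ξ k).1 a)) (hz.2 ξ k).not_ge
        · exact (x1 ((e4 z hz ξ k a).1 ▸ hD)).elim
    · rintro j (hj | ⟨z, hz, rfl⟩)
      · obtain ⟨t, a1, a2⟩ := h.up _ (hc j hj).1
        refine ⟨_, mt (t, False) a1, fun ξ hξ => ?_⟩
        by_cases k : ξ ∈ p.S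
        · refine (e1 j hj ξ k).trans ((a2 ξ ⟨k, ?_⟩).trans (e2 (t, False) a1 ξ k).symm)
          rcases (hc j hj).2 with a2 | ⟨-, a2 | a2⟩
          exacts [a2.symm ▸ hξ.2, a2.2 ξ k, lt_trans hξ.2 a2]
        · exact iff_of_false (fun a => (ne_of_lt hξ.2) (e3 j hj ξ k a))
            fun a => (e4 _ a1 ξ k a).2
      · exact ⟨_, mt z hz, Eqo.rfl⟩
  have o2 : ∀ i ∈ I, ∀ k ∈ I, ∀ α, (i ∈ p.S ∨ α ≤ i) → (k ∈ p.S ∨ α ≤ k) → Ag p α (c i) (c k) →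
      Eqo (S ∩ Iio α) (l i) (l k) := fun i hi k hk α a1 a2 a ξ hξ => by
    by_cases b : ξ ∈ p.S
    · rw [e1 i hi ξ b, e1 k hk ξ b]
      exact a ξ ⟨b, hξ.2⟩
    · exact iff_of_false (fun a => by
        obtain rfl := e3 i hi ξ b a
        exact a1.elim b (not_le.2 hξ.2)) fun a => by
          obtain rfl := e3 k hk ξ b a
          exact a2.elim b (not_le.2 hξ.2)
  have o1 : ∀ i ∈ p.I, ∀ α ∈ p.S, i ∈ p.S ∨ α ≤ i := fun i hi α hα =>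
    (le_total α i).elim Or.inr fun a => Or.inl (h.memS hi hα a)
  refine ⟨_, ⟨vq, h, SS, fun i hi => Or.inl (Or.inl hi), fun i hi => ?_,
    fun i hi k hk α hα a => o2 i (Or.inl hi) k (Or.inl hk) α (o1 i hi α hα) (o1 k hk α hα) ?_, ?_,
    ?_⟩, fun ξ a => Or.inr (Or.inl (Or.inr a)), fun k hk => e1 k (Or.inr hk), x, mem_insert _ _,
    fun t ht b => ⟨_, mt (t, b) ht, ?_, e5 (t, b) ht⟩⟩
  · simpa only [c1 i hi] using e1 i (Or.inl hi)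
  · rwa [c1 i hi, c1 k hk]
  · rintro j (hj | ⟨z, hz, rfl⟩)
    exacts [⟨_, (hc j hj).1, e1 j hj⟩, ⟨_, hz.1, e2 z hz⟩]
  · rintro α hα - u hu u' hu' a
    rcases lt_or_ge u α with b | b
    · exact Or.inl (vq.sing (SS hα) hu hu' b a ▸ Eqo.rfl)
    rcases hu with hu | ⟨z, hz, rfl⟩
    · have b1 := (hc u hu).1
      exact Or.inr ⟨_, b1, o2 u hu _ (Or.inl b1) α (Or.inr b) (o1 _ b1 α hα)
        (by rw [c1 _ b1]; exact Eqo.rfl)⟩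
    · exact Or.inr ⟨_, hz.1, (e5 z hz α hα).symm⟩
  · change x ∈ l _ ↔ b
    rw [l2 _ ht]
    exact ⟨fun a => a.elim And.right fun a => absurd (xS x a.2) (lt_irrefl _),
      fun a => Or.inl ⟨rfl, a⟩⟩

theorem ext (h : Val p) {Z : Set K} (hZ : Z.Countable) : ∃ q, Le q p ∧ Z ⊆ q.S ∧
    ∃ ξ ∈ q.S, ∀ t, Top p t → ∀ b : Prop, ∃ u, Top q u ∧ (ξ ∈ q.l u ↔ b) ∧
      ∀ α ∈ p.S, Ag q α t u := by
  classical
  obtain ⟨t, ht, -⟩ := h.up _ h.d0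
  obtain ⟨q, h1, h2, -, h3⟩ := ext0 h hZ (fun k => if k ∈ p.I then k else t) fun k _ => by
    by_cases a : k ∈ p.I
    · simp [a]
    · simp [a, ht.1, ht]
  exact ⟨q, h1, h2, h3⟩

theorem ext1 (h : Val p) {i : K} (hi : i ∈ p.I) :
    ∃ q, Le q p ∧ ∃ k ∈ q.I, k < om ∧ Eqo p.S (q.l k) (p.l i) := by
  classical
  rcases lt_or_ge i om with a | a
  · exact ⟨p, h.le, i, hi, a, Eqo.rfl⟩
  obtain ⟨k, k1, k2, k3⟩ := ex_lt_om h.cI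
  obtain ⟨q, h1, h2, h3, -⟩ := ext0 h (countable_singleton k) (fun j => if j = k then i else j) (by
    rintro j (hj | ⟨rfl, -⟩)
    · have : j ≠ k := fun e => k3 (e ▸ hj)
      simp [this, hj]
    · simp [hi, k3, k2.trans_le a])
  exact ⟨q, h1, k, h1.vq.sI k (h2 rfl) k1, k2, by simpa using h3 k ⟨rfl, k1⟩⟩

end Pool.Agent.Lib.MP_d63cb0_gt.H15
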