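import Pool.Agent.Lib.MP_d63cb0_gt.H15.NG

/-!
Locally constant functions are coded, countably complete ultrafilters are fixed.
-/

namespace Pool.Agent.Lib.MP_d63cb0_gt.H15

open Pool.Agent.Lib.MP_fecf72_lc Set Filter

/-- The points of the hull. -/
abbrev X (N : Set Wd) : Type := {i : P // In N i}

/-- The set of points with a given code. -/
def st (N : Set Wd) (G : Set Cn) (e : Cp) : Set (X N) := {i | e.ev G i.1}

theorem fc_sub : Fc Le fun (z : Cp × Cp) N G => st N G z.1 ⊆ st N G z.2 :=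
  (Fc.all fo (Θ := fun (z : Cp × Cp) (i : P) _ G => z.1.ev G i → z.2.ev G i)
    ((fc_ev.comap fun z : (Cp × Cp) × P => (z.1.1, z.2)).imp
      (fc_ev.comap fun z : (Cp × Cp) × P => (z.1.2, z.2)))).congr
    (Eventually.of_forall fun _ _ _ _ _ => ⟨fun h i a b => h (a := ⟨i, a⟩) b, fun h i => h i.1 i.2⟩)

theorem fc_lf : Fc Le fun (z : K × P × P) _ G => Lf G z.1 z.2.1 z.2.2 := Fc.hd _

theorem club_bool : ∀ᶠ N in Club, (∀ e d : Cp, In N e → In N d → In N (e.map2 And d)) ∧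
    (∀ e d : Cp, In N e → In N d → In N (e.map2 Or d)) ∧ (∀ e : Cp, In N e → In N (e.map Not)) ∧
    (∀ b : Prop, In N (Cd.cst b)) ∧ (∀ i : P, In N i → In N fun _ : ℕ => i) := by
  filter_upwards [clo2 fun e d : Cp => e.map2 And d, clo2 fun e d : Cp => e.map2 Or d,
    clo1 fun e : Cp => e.map Not, club_all fun b : Prop => clo0 (Cd.cst b),
    clo1 fun (i : P) (_ : ℕ) => i] with N h1 h2 h3 h4 h5 using ⟨h1, h2, h3, h4, h5⟩

open Classical in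
theorem club_code (T : Type) [Nonempty T] : ∀ᶠ N in Club, ∀ G, GG N Le G → ∀ f : X N → T,
    Int N G (fun z : P × T => ∀ h, f ⟨z.1, h⟩ = z.2) → (∀ i, In N (f i)) →
    (∀ i, ∃ e : Cp, In N e ∧ i ∈ st N G e ∧ ∀ j ∈ st N G e, f j = f i) →
    ∃ F : Cd T, In N F ∧ ∀ i : X N, F.ev G i.1 = f i := by
  filter_upwards [club_star, club_lin T, club_dense, club_bool, clo_pair P T, clo_pair Cp T,
    Fc.int (Θ := fun (b : P × T → Set Cn) (z : P × P) N G =>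
      ¬ ∃ t : T, In N t ∧ Hd G (b (z.1, t)) ∧ Hd G (b (z.2, t)))
      (Fc.ex fo (Θ := fun (a : (P × T → Set Cn) × P × P) (t : T) _ G =>
        Hd G (a.1 (a.2.1, t)) ∧ Hd G (a.1 (a.2.2, t))) ((Fc.hd _).and (Fc.hd _))).not,
    Fc.int (Θ := fun (b : P × T → Set Cn) (w : Cp × T) N G =>
      ∀ j : P, In N j → w.1.ev G j → Hd G (b (j, w.2)))
      (Fc.all fo (Θ := fun (a : (P × T → Set Cn) × Cp × T) (j : P) _ G =>
        a.2.1.ev G j → Hd G (a.1 (j, a.2.2)))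
        ((fc_ev.comap fun z : ((P × T → Set Cn) × Cp × T) × P => (z.1.2.1, z.2)).imp (Fc.hd _))),
    clo1 fun s : ℕ → Cp × T => Cd.mapn (fun v : ℕ → Prop =>
      (s (Classical.epsilon fun n => v n)).2) fun n => (s n).1,
    clo1n fun (s : ℕ → Cp × T) n => (s n).2]
    with N st1 lin den bo p1 p2 i1 i2 c1 c2 G hG f ⟨b, hb, hf⟩ h1 h2
  have hR : ∀ (i : X N) (t : T), In N t → (Hd G (b (i.1, t)) ↔ f i = t) := fun i t a =>
    (hf (i.1, t) ((p1 _ _).2 ⟨i.2, a⟩)).symm.trans ⟨fun k => k i.2, fun k _ => k⟩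
  obtain ⟨δ, d1, d2⟩ := st1 G hG _ (i1 G hG b hb)
  obtain ⟨s, s1, s2, s3⟩ := lin G hG _ (i2 G hG b hb) δ d1 fun i hi => by
    obtain ⟨e, e1, e2, e3⟩ := h2 ⟨i, hi⟩
    obtain ⟨k0, k1, k2, k3⟩ := den G hG e i e1 hi e2
    rcases d2 e i k0 e1 hi k1 k2 e2 with ⟨k, a1, a2, a3⟩ | ⟨e0, a1, a2, a3, a4⟩
    · exact (a3 ⟨_, h1 ⟨i, hi⟩, (hR ⟨k0, k1⟩ _ (h1 _)).2 (e3 _ k3),
        (hR ⟨k, a1⟩ _ (h1 _)).2 (e3 _ a2)⟩).elim
    refine ⟨(e0, f ⟨i, hi⟩), (p2 _ _).2 ⟨a1, h1 _⟩, a2, a3, fun j hj a5 =>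
      (hR ⟨j, hj⟩ _ (h1 _)).2 ?_⟩
    obtain ⟨e', b1, b2, b3⟩ := h2 ⟨j, hj⟩
    obtain ⟨k, b4, b5, b6, b7⟩ := den G hG _ j (bo.1 e0 e' a1 b1) hj ⟨a5, b2⟩
    obtain ⟨t, b8, b9, b10⟩ := not_not.1 (a4 k b4 b5 b6)
    rw [← b3 ⟨k, b4⟩ b7, (hR ⟨k, b4⟩ t b8).1 b10, ← (hR ⟨k0, k1⟩ t b8).1 b9, e3 ⟨k0, k1⟩ k3]
  exact ⟨_, c1 s s1, fun i => ((hR i _ (c2 s s1 _)).1 ((s2 _).2 i.1 i.2
    (Classical.epsilon_spec (s3 i.1 i.2)))).symm⟩

/-- Ultrafilters on the codes of the hull. -/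
structure Ult (N : Set Wd) (G : Set Cn) (q : Cp → Prop) : Prop where
  up : ∀ d e f : Cp, In N d → In N e → In N f → st N G d ∩ st N G e ⊆ st N G f → q d → q e → q f
  or : ∀ d e : Cp, In N d → In N e → st N G d ∪ st N G e = univ → q d ∨ q e
  ne : ∀ d : Cp, In N d → q d → (st N G d).Nonempty

theorem club_fix : ∀ᶠ N in Club, ∀ G, GG N Le G → ∀ q : Cp → Prop, Int N G q → Ult N G q →
    (∀ s : ℕ → Cp, In N s → (∀ i, ∃ n, i ∈ st N G (s n)) → ∃ n, q (s n)) →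
    ∃ i, ∀ e : Cp, In N e → q e → i ∈ st N G e := by
  filter_upwards [club_refl, club_lin Unit, club_lift, club_bool, clo0 om, clo1 Cd.crd,
    clo2 fun (e : Cp) (_ : Cp) => (e, ()),
    Fc.int (Θ := fun (b : Cp → Set Cn) (e : Cp) _ G => ¬ Hd G (b e)) (Fc.hd _).not,
    Fc.int (Θ := fun (b : Cp → Set Cn) (w : Cp × Unit) _ G => ¬ Hd G (b w.1)) (Fc.hd _).not,
    clo1 fun (s : ℕ → Cp × Unit) n => (s n).1, clo1n fun (s : ℕ → Cp × Unit) n => (s n).1]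
    with N rf lin lf bo c0 c1 c2 i1 i2 c3 c4 G hG q ⟨b, hb, hq⟩ hU hσ
  obtain ⟨δ, d1, -, -, d2⟩ := rf G hG _ (i1 G hG b hb) om c0
  obtain ⟨u, u1, u2⟩ : ∃ u : P, In N u ∧ ∀ e : Cp, In N e → Lev δ e → e.ev G u → q e := by
    by_contra k
    simp only [not_exists, not_and, not_forall] at k
    obtain ⟨s, s1, s2, s3⟩ := lin G hG _ (i2 G hG b hb) δ d1 fun i hi =>
      let ⟨e, a1, a2, a3, a4⟩ := k i hi
      ⟨(e, ()), c2 e e a1 a1, a2, a3, fun a => a4 ((hq e a1).2 a)⟩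
    obtain ⟨n, hn⟩ := hσ _ (c3 s s1) fun i => s3 i.1 i.2
    exact (s2 n).2 ((hq _ (c4 s s1 n)).1 hn)
  have key : ∀ (e : Cp) (y : P), In N e → In N y → e.ev G y → (y.1 < δ ∨ Lev y e) →
      (y = u ∨ Lf G δ u y) → q e := by
    intro e y a1 a2 a3 a4 a5
    by_contra k
    obtain ⟨e0, b1, b2, b3, b4, -⟩ := d2 e (Cd.cst False) _ a1 (bo.2.2.2.1 _) (bo.2.2.2.2 y a2)
      (fun a => k ((hq e a1).2 a)) (fun _ => ⟨a3, a4⟩) (lev_cst _) fun _ _ a => a.elim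
    refine b3 ((hq e0 b1).1 (u2 e0 b1 b2 ?_))
    rcases a5 with rfl | a5
    exacts [b4 0, (a5.ev hG.f b2).symm ▸ b4 0]
  have key2 : ∀ e : Cp, In N e → q e → ¬ q (e.map Not) := fun e a1 a2 a3 =>
    let ⟨_, k⟩ := hU.ne _ (bo.2.2.2.1 False)
      (hU.up e _ _ a1 (bo.2.2.1 e a1) (bo.2.2.2.1 False) (fun _ a => a.2 a.1) a2 a3); k
  rcases lt_or_ge u.1 δ with k | k
  · refine ⟨⟨u, u1⟩, fun e a1 a2 => ?_⟩
    by_contra a3
    exact key2 e a1 a2 (key _ u (bo.2.2.1 e a1) u1 a3 (Or.inl k) (Or.inl rfl))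
  · obtain ⟨ξ, a1, a2⟩ := lf G hG u δ δ u1 d1 d1 k
    obtain ⟨k1, b1, b2, -, b3, b4⟩ := a2 True
    obtain ⟨k2, b5, b6, -, b7, b8⟩ := a2 False
    exact (key2 _ (c1 ξ a1) (key _ k1 (c1 ξ a1) b1 (b4.2 trivial) (Or.inr (lev_crd b2)) (Or.inr b3))
      (key _ k2 (bo.2.2.1 _ (c1 ξ a1)) b5 b8.1 (Or.inr ((lev_crd b6).map _)) (Or.inr b7))).elim

/-- Ideals on the codes of the hull. -/
structure Idl (N : Set Wd) (G : Set Cn) (I : Cp → Prop) : Prop where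
  dn : ∀ d e f : Cp, In N d → In N e → In N f → st N G d ⊆ st N G e ∪ st N G f → I e → I f → I d
  em : I (Cd.cst False)

/-- Finite intersections. -/
noncomputable def fin (H : Cp) (F : Finset Cp) : Cp :=
  H.map2 And (Cd.mapn (fun v : F → Prop => ∀ c, v c) fun c => c.1)

theorem mem_fin {N : Set Wd} {G : Set Cn} {H : Cp} {F : Finset Cp} {i : X N} :
    i ∈ st N G (fin H F) ↔ i ∈ st N G H ∧ ∀ c ∈ F, i ∈ st N G c :=
  and_congr_right fun _ => Subtype.forall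

open Classical in
theorem club_ult : ∀ᶠ N in Club, ∀ G, GG N Le G → ∀ I : Cp → Prop, Int N G I → Idl N G I →
    ∀ H : Cp, In N H → ¬ I H → ∃ q : Cp → Prop, Int N G q ∧ Ult N G q ∧ q H ∧
      ∀ d : Cp, In N d → q d → ¬ I d := by
  filter_upwards [imax fo Cp, club_finset Cp, club_bool, clo2 fin, clo_pair (Cp → Set Cn) Cp,
    Fc.int (Θ := fun (a : (Cp → Set Cn) × Cp) (F : Finset Cp) _ G => ¬ Hd G (a.1 (fin a.2 F)))
      (Fc.hd _).not] with N im cf bo c1 p1 i1 G hG I ⟨b, hb, hI⟩ hD H hH h0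
  have e1 : ∀ F : Finset Cp, (∀ c ∈ F, In N c) → In N (fin H F) := fun F a =>
    c1 H F hH ((cf F).2 a)
  have e2 : ∀ d e : Cp, In N d → In N e → st N G d ⊆ st N G e → I e → I d := fun d e a b c k =>
    hD.dn d e e a b b (c.trans subset_union_left) k k
  obtain ⟨q, q1, q2, q3⟩ := im G hG _ (i1 G hG (b, H) ((p1 _ _).2 ⟨hb, hH⟩)) fun k =>
    h0 (e2 _ _ hH (e1 ∅ (by simp)) (fun i a => mem_fin.2 ⟨a, by simp⟩)
      ((hI _ (e1 ∅ (by simp))).2 k))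
  have q4 : ∀ F : Finset Cp, (∀ c ∈ F, In N c ∧ q c) → ¬ I (fin H F) := fun F a k =>
    q2 F a ((hI _ (e1 F fun c hc => (a c hc).1)).1 k)
  have q5 : ∀ c : Cp, In N c → ¬ q c → ∃ F : Finset Cp, (∀ c ∈ F, In N c ∧ q c) ∧
      I (fin H (insert c F)) := fun c a k => by
    by_contra k'
    refine k (q3 c a fun F b1 b2 => k' ⟨F, b1, (hI _ (e1 _ fun d hd => ?_)).2 b2⟩)
    rcases Finset.mem_insert.1 hd with rfl | hd
    exacts [a, (b1 d hd).1]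
  have e3 : ∀ c : Cp, In N c → ∀ F : Finset Cp, (∀ c ∈ F, In N c ∧ q c) → In N (fin H (insert c F)) :=
    fun c a F b1 => e1 _ fun d hd => by
      rcases Finset.mem_insert.1 hd with rfl | hd
      exacts [a, (b1 d hd).1]
  have q6 : ∀ d : Cp, In N d → q d → ¬ I d := fun d a b k => q4 {d} (by simp [a, b])
    (e2 _ d (e1 _ (by simp [a])) a (fun i c => (mem_fin.1 c).2 d (by simp)) k)
  refine ⟨q, q1, ⟨fun d e f a1 a2 a3 a4 a5 a6 => ?_, fun d e a1 a2 a3 => ?_, fun d a1 a2 => ?_⟩,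
    ?_, q6⟩
  · by_contra k
    obtain ⟨F, b1, b2⟩ := q5 f a3 k
    have b3 : ∀ c ∈ insert d (insert e F), In N c ∧ q c := by
      simpa only [Finset.forall_mem_insert] using ⟨⟨a1, a5⟩, ⟨a2, a6⟩, b1⟩
    refine q4 _ b3 (e2 _ _ (e1 _ fun c hc => (b3 c hc).1) (e3 f a3 F b1) (fun i c => ?_) b2)
    simp only [mem_fin, Finset.forall_mem_insert] at c ⊢
    exact ⟨c.1, a4 ⟨c.2.1, c.2.2.1⟩, c.2.2.2⟩
  · by_contra k
    obtain ⟨F, b1, b2⟩ := q5 d a1 fun a => k (Or.inl a)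
    obtain ⟨F', b3, b4⟩ := q5 e a2 fun a => k (Or.inr a)
    have b5 : ∀ c ∈ F ∪ F', In N c ∧ q c := fun c hc =>
      (Finset.mem_union.1 hc).elim (b1 c) (b3 c)
    refine q4 _ b5 (hD.dn _ _ _ (e1 _ fun c hc => (b5 c hc).1) (e3 d a1 F b1) (e3 e a2 F' b3)
      (fun i c => ?_) b2 b4)
    simp only [mem_union, mem_fin, Finset.forall_mem_insert, Finset.forall_mem_union] at c ⊢
    exact (a3 ▸ mem_univ i : i ∈ st N G d ∪ st N G e).imp (fun a => ⟨c.1, a, c.2.1⟩)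
      fun a => ⟨c.1, a, c.2.2⟩
  · by_contra k
    exact q6 d a1 a2 (e2 _ _ a1 (bo.2.2.2.1 False) (fun i a => k ⟨i, a⟩) hD.em)
  · by_contra k
    obtain ⟨F, b1, b2⟩ := q5 H hH k
    refine q4 F b1 (e2 _ _ (e1 _ fun c hc => (b1 c hc).1) (e3 H hH F b1) (fun i c => ?_) b2)
    simp only [mem_fin, Finset.forall_mem_insert] at c ⊢
    exact ⟨c.1, c.1, c.2⟩

end Pool.Agent.Lib.MP_d63cb0_gt.H15
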