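import Pool.Agent.Lib.MP_d63cb0_gt.H15.Amal

/-!
Density arguments in the ground model.
-/

namespace Pool.Agent.Lib.MP_d63cb0_gt.H15

open Pool.Agent.Lib.MP_fecf72_lc Set

variable {p p0 q r : Cn} {δ : K} {σ : K → K}

/-- The function `e` of labels only depends on the coordinates in `S`. -/
def Sup {T : Type} (S : Set K) (e : Set K → T) : Prop := ∀ y y', Eqo S y y' → e y = e y'

theorem Sup.mono {T : Type} {S S' : Set K} {e : Set K → T} (h : Sup S e) (k : S ⊆ S') : Sup S' e :=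
  fun y y' a => h y y' (a.mono k)

theorem Sup.inter {T : Type} {S S' : Set K} {e : Set K → T} (h : Sup S e) (k : Sup S' e) :
    Sup (S ∩ S') e := fun y y' a =>
  (h y (y ∩ S ∪ y' \ S) fun ξ b => by simp [b]).trans (k _ y' fun ξ b => by
    by_cases c : ξ ∈ S
    · simp [c, a ξ ⟨c, b⟩]
    · simp [c])

theorem Sup.imp {S y y' : Set K} {e : Set K → Prop} (h : Sup S e) (k : Eqo S y y') (a : e y) :
    e y' := h y y' k ▸ a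

/-- Functions of labels with countable support. -/
def Cd (T : Type) : Type := {e : Set K → T // ∃ S : Set K, S.Countable ∧ Sup S e}

/-- Properties of labels with countable support. -/
abbrev Cp : Type := Cd Prop

/-- The condition is below a member of `b`. -/
def Fb (b : Set Cn) (q : Cn) : Prop := ∃ s ∈ b, Le q s

theorem Fb.le {b : Set Cn} (h : Fb b p) (k : Le q p) : Fb b q :=
  let ⟨s, a1, a2⟩ := h; ⟨s, a1, k.trans a2⟩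

theorem refl' (Ψ : Cn → (ℕ → Set K) → Cn → Prop) (γ : K) : ∃ δ, γ < δ ∧ om ≤ δ ∧ Lim (Iio δ) ∧
    ∀ p p0 σ (E : ℕ → Set K), Red p δ p0 σ → (∀ n, (E n).Countable ∧ E n ⊆ Iio δ) →
      (∃ r, Le r p0 ∧ Ψ p0 E r) → ∃ r, Le r p0 ∧ Ψ p0 E r ∧ r.S ∪ r.I ⊆ Iio δ := by
  let dec : Dt → Cn := fun d =>
    ⟨{ξ | (ξ, ξ, 0) ∈ d}, {i | (i, i, 1) ∈ d}, fun i => {ξ | (i, ξ, 2) ∈ d}⟩
  let sl : Dt → ℕ → Set K := fun d n => {k | (k, k, n + 3) ∈ d}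
  obtain ⟨δ, h1, h2, h3⟩ := refl (fun d r => Le r (dec d) ∧ Ψ (dec d) (sl d) r)
    (fun r => r.S ∪ r.I) (fun d r h => h.1.vq.cS.union h.1.vq.cI) (max γ om)
  refine ⟨δ, (le_max_left _ _).trans_lt h1, ((le_max_right _ _).trans_lt h1).le, h2,
    fun p p0 σ E R0 hE h => ?_⟩
  let d : Dt := {z | (z.2.2 = 0 ∧ z.1 ∈ p0.S ∧ z.2.1 = z.1) ∨ (z.2.2 = 1 ∧ z.1 ∈ p0.I ∧ z.2.1 = z.1) ∨
    (z.2.2 = 2 ∧ z.2.1 ∈ p0.l z.1) ∨ ∃ n, z.2.2 = n + 3 ∧ z.1 ∈ E n ∧ z.2.1 = z.1}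
  have e1 : dec d = p0 := by
    cases p0
    simp [dec, d]
  have e2 : sl d = E := by
    ext n k
    simp [sl, d]
  let B := p0.S ∪ p0.I ∪ ⋃ n, E n
  have b1 : B.Countable := (R0.v0.cS.union R0.v0.cI).union (countable_iUnion fun n => (hE n).1)
  have b2 : B ⊆ Iio δ := union_subset (union_subset (R0.S0 ▸ inter_subset_right) R0.ins)
    (iUnion_subset fun n => (hE n).2)
  have b3 : ∀ z ∈ d, z.1 ∈ B ∧ z.2.1 ∈ B := by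
    rintro z (⟨-, a, b⟩ | ⟨-, a, b⟩ | ⟨-, a⟩ | ⟨n, -, a, b⟩)
    · exact b.symm ▸ ⟨Or.inl (Or.inl a), Or.inl (Or.inl a)⟩
    · exact b.symm ▸ ⟨Or.inl (Or.inr a), Or.inl (Or.inr a)⟩
    · exact ⟨Or.inl (Or.inr (R0.nrm _ _ a).1), Or.inl (Or.inl (R0.nrm _ _ a).2)⟩
    · exact b.symm ▸ ⟨Or.inr (mem_iUnion.2 ⟨n, a⟩), Or.inr (mem_iUnion.2 ⟨n, a⟩)⟩
  have := h3 d ⟨(b1.prod (b1.prod countable_univ)).mono fun z hz =>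
    mem_prod.2 ⟨(b3 z hz).1, mem_prod.2 ⟨(b3 z hz).2, mem_univ _⟩⟩,
    fun z hz => ⟨b2 (b3 z hz).1, b2 (b3 z hz).2⟩⟩
  rw [e1, e2] at this
  exact (this h).imp fun r a => ⟨a.1.1, a.1.2, a.2⟩

theorem Red.lt' (R0 : Red p δ p0 σ) {η : K} (h : η ∈ p0.S) : η < δ :=
  (R0.S0 ▸ h : η ∈ p.S ∩ Iio δ).2

theorem ex_au (hr : Le r p0) {v : K} (hv : Top p0 v) : ∃ t, Top r t ∧ Au r p0 t v :=
  let ⟨t, a1, a2⟩ := hr.vq.up v (hr.I hv.1)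
  ⟨t, a1, fun η hη ξ hξ => (a2 ξ ⟨hξ.1, lt_of_le_of_lt hξ.2 (hv.2 η hη)⟩).symm⟩

theorem Red.d0 (R0 : Red p δ p0 σ) (h : Val p) (h0 : om ≤ δ) (hr : Le r p0) :
    Eqo p0.S (r.l d0) (p.l d0) :=
  (hr.l _ R0.v0.d0).trans (by simpa only [R0.lt _ (d0_lt.trans_le h0)] using R0.lab _ h.d0)

theorem amal1 (h : Val p) (hδ : δ ∈ p.S) (h0 : om ≤ δ) (R0 : Red p δ p0 σ) :
    ∃ q, Le q p0 ∧ Le q p ∧ ∀ i ∈ p.I, δ ≤ i → Au q p0 i (σ i) := by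
  obtain ⟨q, a1, a2, a3, a4, -⟩ := amal h hδ R0 R0.v0.le
    (union_subset (R0.S0 ▸ inter_subset_right) R0.ins) id
    (fun i a b => ⟨R0.top i a b, fun _ _ => Eqo.rfl⟩) R0.v0.d0 d0_lt h.d0 (R0.d0 h h0 R0.v0.le)
  refine ⟨q, a1, a2, fun i a b η hη ξ hξ => ?_⟩
  have : ξ ∈ p0.S := by
    rcases a3 hξ.1 with (c | c) | c
    exacts [c, R0.v0.memS c hη hξ.2, R0.S0 ▸ ⟨c, lt_of_le_of_lt hξ.2 (R0.lt' hη)⟩]
  exact (a4 i a b ξ this).trans (a1.l _ (R0.top i a b).1 ξ this).symm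

theorem grefl (β : Cp → Set Cn) (γ : K) : ∃ δ, γ < δ ∧ om ≤ δ ∧ ∀ p (e d : Cp) (Y : Set K), Val p →
    δ ∈ p.S → Sup p.S e.1 → Fb (β e) p → Y ⊆ p.I → (∀ y ∈ Y, e.1 (p.l y) ∧ (y < δ ∨ Sup (Iio y) e.1)) →
    Sup p.S d.1 → Sup (Iio δ) d.1 → (∀ i ∈ p.I, d.1 (p.l i) → e.1 (p.l i)) →
    ∃ (q : Cn) (e0 : Cp), Le q p ∧ Sup q.S e0.1 ∧ Sup (Iio δ) e0.1 ∧ Fb (β e0) q ∧ (∀ y ∈ Y, e0.1 (q.l y)) ∧
      ∀ u ∈ q.I, d.1 (q.l u) → e0.1 (q.l u) := by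
  classical
  obtain ⟨δ, h1, h0, hL, h2⟩ := refl' (fun p0 E r => ∃ e0 : Cp, Sup r.S e0.1 ∧ Fb (β e0) r ∧
    (∀ y ∈ E 0, e0.1 (r.l y)) ∧ (∀ v ∈ E 1, ∃ t, (Top r t ∧ Au r p0 t v) ∧ e0.1 (r.l t)) ∧
    ∀ u ∈ r.I, ∀ v ∈ E 2, Eqo p0.S (r.l u) (p0.l v) → e0.1 (r.l u)) γ
  refine ⟨δ, h1, h0, fun p e d Y h hδ a1 a2 a3 a4 a5 a6 a7 => ?_⟩
  obtain ⟨p0, σ, R0⟩ := red h hδ h0 hL
  have d1 : Sup p0.S d.1 := R0.S0 ▸ a5.inter a6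
  have cY := h.cI.mono a3
  obtain ⟨r, b1, ⟨e0, b2, b3, b4, b5, b6⟩, b7⟩ := h2 p p0 σ (fun n => if n = 0 then Y ∩ Iio δ
    else if n = 1 then σ '' (Y ∩ Ici δ) else {v ∈ p0.I | d.1 (p0.l v)}) R0 (fun n => by
      split_ifs
      · exact ⟨cY.mono inter_subset_left, inter_subset_right⟩
      · exact ⟨(cY.mono inter_subset_left).image _, fun _ ⟨y, c, c'⟩ =>
          R0.ins (c' ▸ (R0.top y (a3 c.1) c.2).1)⟩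
      · exact ⟨R0.v0.cI.mono fun _ c => c.1, fun _ c => R0.ins c.1⟩) (by
    obtain ⟨q, c1, c2, c3⟩ := amal1 h hδ h0 R0
    have c4 : ∀ y ∈ Y, e.1 (q.l y) := fun y c => a1.imp (c2.l y (a3 c)).symm (a4 y c).1
    refine ⟨q, c1, e, a1.mono c2.S, a2.le c2, fun y c => c4 y c.1, ?_, fun u c v c' c5 => ?_⟩
    · rintro _ ⟨y, c, rfl⟩
      obtain ⟨t, c5, c6⟩ := c2.vq.up y (c2.I (a3 c.1))
      refine ⟨t, ⟨c5, fun η hη ξ hξ => (c6 ξ ⟨hξ.1, ?_⟩).symm.trans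
        (c3 y (a3 c.1) c.2 η hη ξ hξ)⟩, ((a1.mono c2.S).inter ((a4 y c.1).2.resolve_left
          (not_lt.2 c.2))).imp c6 (c4 y c.1)⟩
      exact lt_of_lt_of_le (lt_of_le_of_lt hξ.2 (R0.lt' hη)) c.2
    · obtain ⟨i, c6, c7⟩ := c2.o3 u c
      exact a1.imp c7.symm (a7 i c6 (a5.imp c7 (d1.imp c5.symm c'.2))))
  have b8 : ∀ v, ∃ t, (Top p0 v → Top r t ∧ Au r p0 t v) ∧ (v ∈ σ '' (Y ∩ Ici δ) → e0.1 (r.l t)) := by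
    intro v
    by_cases c : v ∈ σ '' (Y ∩ Ici δ)
    · obtain ⟨t, c1, c2⟩ := b5 v c
      exact ⟨t, fun _ => c1, fun _ => c2⟩
    by_cases c' : Top p0 v
    · obtain ⟨t, c1⟩ := ex_au b1 c'
      exact ⟨t, fun _ => c1, fun k => (c k).elim⟩
    · exact ⟨v, fun k => (c' k).elim, fun k => (c k).elim⟩
  choose lam l1 l2 using b8
  obtain ⟨q, c1, c2, -, c3, -⟩ := amal h hδ R0 b1 b7 lam (fun i a b => l1 _ (R0.top i a b))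
    b1.vq.d0 d0_lt h.d0 (R0.d0 h h0 b1)
  refine ⟨q, e0, c2, b2.mono c1.S, b2.mono (subset_union_left.trans b7), b3.le c1,
    fun y c => ?_, fun u c c' => ?_⟩
  · rcases lt_or_ge y δ with k | k
    · exact b2.imp (c1.l y (b1.I (R0.I0 ▸ ⟨y, a3 c, R0.lt y k⟩))).symm (b4 y ⟨c, k⟩)
    · exact b2.imp (c3 y (a3 c) k).symm (l2 _ ⟨y, ⟨c, k⟩, rfl⟩)
  · obtain ⟨u', c4, c5⟩ := c1.o3 u c
    obtain ⟨v, c6, c7⟩ := b1.o3 u' c4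
    exact b2.imp c5.symm (b6 u' c4 v ⟨c6, d1.imp ((c5.mono b1.S).trans c7) c'⟩ c7)

theorem gstar (W : K × K → Set Cn) : ∃ δ, om ≤ δ ∧ ∀ p i k0, Val p → δ ∈ p.S → i ∈ p.I → k0 < δ →
    ∃ q, Le q p ∧ ((∃ k ∈ q.I, k < om ∧ Eqo p.S (q.l k) (p.l i) ∧ Fb (W (k0, k)) q) ∨
      ∀ r, Le r q → ∀ k ∈ r.I, k < om → Eqo (p.S ∩ Iio δ) (r.l k) (p.l i) → ¬ Fb (W (k0, k)) r) := by
  classical
  obtain ⟨δ, -, h0, hL, h2⟩ := refl' (fun p0 E r => ∃ k ∈ r.I, k < om ∧ ∃ k0 ∈ E 0, ∃ v ∈ E 1,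
    Eqo p0.S (r.l k) (p0.l v) ∧ Fb (W (k0, k)) r) om
  refine ⟨δ, h0, fun p i k0 h hδ a1 a2 => ?_⟩
  obtain ⟨p0, σ, R0⟩ := red h hδ h0 hL
  obtain ⟨q, c1, c2, -⟩ := amal1 h hδ h0 R0
  by_cases c : ∃ r, Le r q ∧ ∃ k ∈ r.I, k < om ∧ Eqo (p.S ∩ Iio δ) (r.l k) (p.l i) ∧
    Fb (W (k0, k)) r
  swap
  · exact ⟨q, c2, Or.inr fun r b1 k b2 b3 b4 b5 => c ⟨r, b1, k, b2, b3, b4, b5⟩⟩
  obtain ⟨r, b1, ⟨k, b2, b3, _, rfl, _, rfl, b4, b5⟩, b6⟩ := h2 p p0 σ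
    (fun n => if n = 0 then {k0} else {σ i}) R0 (fun n => by
      split_ifs
      · exact ⟨countable_singleton _, singleton_subset_iff.2 a2⟩
      · exact ⟨countable_singleton _, singleton_subset_iff.2 (R0.ins (R0.I0 ▸ ⟨i, a1, rfl⟩))⟩) (by
    obtain ⟨r, b1, k, b2, b3, b4, b5⟩ := c
    exact ⟨r, b1.trans c1, k, b2, b3, k0, rfl, σ i, rfl,
      Eqo.trans (R0.S0 ▸ b4) (R0.lab i a1).symm, b5⟩)
  choose! lam hl using fun v (hv : Top p0 v) => ex_au b1 hv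
  obtain ⟨q', d1, d2, -, -, d3⟩ := amal h hδ R0 b1 b6 lam (fun i a b => hl _ (R0.top i a b))
    b2 b3 a1 (b4.trans (R0.lab i a1))
  exact ⟨q', d2, Or.inl ⟨k, d1.I b2, b3, d3, b5.le d1⟩⟩

/-- The condition decides a good neighbourhood. -/
def Gd {T : Type} (b : Cp × T → Set Cn) (δ : K) (q : Cn) (w : Cp × T) : Prop :=
  Sup q.S w.1.1 ∧ Sup (Iio δ) w.1.1 ∧ Fb (b w) q

theorem Gd.le {T : Type} {b : Cp × T → Set Cn} {w : Cp × T} (h : Gd b δ p w) (k : Le q p) :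
    Gd b δ q w := ⟨h.1.mono k.S, h.2.1, h.2.2.le k⟩

theorem ex_chain {P : ℕ → Cn → Cn → Prop} (hr : Val r)
    (h : ∀ n p, Le p r → ∃ q, Le q p ∧ P n p q) :
    ∃ a : ℕ → Cn, a 0 = r ∧ ∀ n, Le (a (n + 1)) (a n) ∧ P n (a n) (a (n + 1)) := by
  have : Nonempty Cn := ⟨r⟩
  choose! f h1 h2 using h
  let a : ℕ → Cn := fun n => Nat.rec r (fun n q => f n q) n
  have h3 : ∀ n, Le (a n) r := by
    intro n
    induction n with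
    | zero => exact hr.le
    | succ n ih => exact (h1 n _ ih).trans ih
  exact ⟨a, rfl, fun n => ⟨h1 n _ (h3 n), h2 n _ (h3 n)⟩⟩

theorem glin {T : Type} (b : Cp × T → Set Cn) (δ : K) (hr : Val r)
    (h : ∀ p, Le p r → ∀ i ∈ p.I, ∃ q w, Le q p ∧ Gd b δ q w ∧ w.1.1 (q.l i)) :
    ∃ q, ∃ s : ℕ → Cp × T, Le q r ∧ (∀ n, Gd b δ q (s n)) ∧ ∀ u ∈ q.I, ∃ n, (s n).1.1 (q.l u) := by
  have h1 : ∀ p, Le p r → ∃ q, Le q p ∧ ∀ v ∈ p.I, ∃ w, Gd b δ q w ∧ w.1.1 (q.l v) := by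
    intro p hp
    obtain ⟨g, hg⟩ := hp.vq.cI.exists_eq_range ⟨_, hp.vq.d0⟩
    obtain ⟨a, a0, a1⟩ := ex_chain (P := fun n _ q => g n ∈ q.I ∧ ∃ w, Gd b δ q w ∧ w.1.1 (q.l (g n)))
      hp.vq fun n p' c => by
        have c0 := c.I (hg ▸ mem_range_self n)
        obtain ⟨q, w, c1, c2⟩ := h p' (c.trans hp) _ c0
        exact ⟨q, c1, c1.I c0, w, c2⟩
    obtain ⟨q, hq⟩ := sc a fun n => (a1 n).1
    refine ⟨q, a0 ▸ hq 0, fun v hv => ?_⟩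
    obtain ⟨n, rfl⟩ : v ∈ range g := hg ▸ hv
    obtain ⟨c1, w, c2, c3⟩ := (a1 n).2
    exact ⟨w, c2.le (hq _), c2.1.imp ((hq _).l _ c1).symm c3⟩
  obtain ⟨r0, r1, r2, -⟩ := ext hr (countable_singleton δ)
  obtain ⟨a, a0, a1⟩ := ex_chain (P := fun _ p q => ∀ v ∈ p.I, ∃ w, Gd b δ q w ∧ w.1.1 (q.l v))
    r1.vq fun _ p c => h1 p (c.trans r1)
  obtain ⟨q, c1, c2⟩ := lim a fun n => (a1 n).1
  have c3 : ∀ u ∈ q.I, ∃ w, Gd b δ q w ∧ w.1.1 (q.l u) := by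
    intro u hu
    obtain ⟨m, v, c3, c4⟩ := c2 u hu 0
    obtain ⟨w, c5, c6⟩ := (a1 m).2 v c3
    have c7 := c5.le (c1 _)
    exact ⟨w, c7, (c7.1.inter c7.2.1).imp (c4 δ (a0 ▸ r2 rfl)).symm
      (c5.1.imp ((c1 _).l _ ((a1 m).1.I c3)).symm c6)⟩
  have vq := (c1 0).vq
  obtain ⟨g, hg⟩ := vq.cI.exists_eq_range ⟨_, vq.d0⟩
  choose s hs using fun n => c3 (g n) (hg ▸ mem_range_self n)
  refine ⟨q, s, (a0 ▸ c1 0).trans r1, fun n => (hs n).1, fun u hu => ?_⟩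
  obtain ⟨n, rfl⟩ : u ∈ range g := hg ▸ hu
  exact ⟨n, (hs n).2⟩

end Pool.Agent.Lib.MP_d63cb0_gt.H15
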