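import Pool.Agent.Lib.MP_d63cb0_gt.H15.Lim

/-!
Every algebra on the generic space is the ring of continuous functions on its real spectrum.
-/

namespace Pool.Agent.Lib.MP_d63cb0_gt.H15

open Pool.Agent.Lib.MP_fecf72_lc Set Filter Topology

/-- The graph of the function on the spectrum given by a code. -/
noncomputable def tF (N : Set Wd) (G : Set Cn) (ρ : Nm Cn) (F : Cd ℝ) : V :=
  imS (val N G ρ) (fun z (r : ℝ) => In N r ∧ pr N G (F, r) ∈ z) fun z r => ZFSet.pair z (realC r)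

/-- The cozero set in the spectrum given by a code. -/
noncomputable def tZ (N : Set Wd) (G : Set Cn) (ρ : Nm Cn) (F : Cd ℝ) : V :=
  imS (val N G ρ) (fun z (u : Unit) => In N u ∧ ¬ pr N G (F, 0) ∈ z) fun z _ => z

theorem tm_tF : Tm Le fun (a : Nm Cn × Cd ℝ) N G => tF N G a.1 a.2 := by
  have h1 := fc_pr.comap (sκ := srt2 _) fun v : (Nm Cn × Cd ℝ) × Nm Cn × ℝ => (v.2.1, v.1.2, v.2.2)
  have h2 := (Tm.val (sι := srt2 _) fun v : (Nm Cn × Cd ℝ) × Nm Cn × ℝ => v.2.1).pair le_tp fo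
    (tm_real.comap fun v : (Nm Cn × Cd ℝ) × Nm Cn × ℝ => v.2.2)
  have h3 := Tm.imS fo (ι := Nm Cn × Cd ℝ) (κ := ℝ) (t := fun a N G => val N G a.1)
    (Θ := fun a z r N G => pr N G (a.2, r) ∈ z) (s := fun _ z r _ _ => ZFSet.pair z (realC r))
    (Tm.val _) h1 h2
  exact h3

theorem tm_tZ : Tm Le fun (a : Nm Cn × Cd ℝ) N G => tZ N G a.1 a.2 := by
  have h1 := (fc_pr.comap (sκ := srt2 _)
    fun v : (Nm Cn × Cd ℝ) × Nm Cn × Unit => (v.2.1, v.1.2, 0)).not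
  have h3 := Tm.imS fo (ι := Nm Cn × Cd ℝ) (κ := Unit) (t := fun a N G => val N G a.1)
    (Θ := fun a z _ N G => ¬ pr N G (a.2, 0) ∈ z) (s := fun _ z _ _ _ => z)
    (Tm.val _) h1 (Tm.val _)
  exact h3

theorem club_sp : ∀ᶠ N in Club, ∀ G, GG N Le G → ∀ π, In N π →
    Rn (AM N G π) {r | realC r ∈ Mod N G} →
    (∀ a ∈ AM N G π, (SY (Mod N G) (SX N G) (AM N G π)).fC (fun h => h.1 a) ∈ Mod N G) ∧
    img {b | ∃ a ∈ AM N G π, {h : Hom (Mod N G) (SX N G) (AM N G π) | h.1 a ≠ 0} = b}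
      (fun b => img b fun h => hc (SX N G) (AM N G π) h.1) ∈ Mod N G ∧
    img (AM N G π) (fun f => ZFSet.pair ((SX N G).fC f)
      ((SY (Mod N G) (SX N G) (AM N G π)).fC fun h => h.1 f)) ∈ Mod N G := by
  have h0 := fc_am.comap (sκ := srt2 _) fun v : (Nm Cn × Nm Cn) × Cd ℝ => (v.1.1, v.2)
  have t1 := Tm.img le_tp fo (ι := Nm Cn × Nm Cn) (κ := Cd ℝ)
    (Θ := fun a F N G => (SX N G).fC (fn N G F) ∈ val N G a.1)
    (s := fun a F N G => tZ N G a.2 F) h0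
    (tm_tZ.comap fun v : (Nm Cn × Nm Cn) × Cd ℝ => (v.1.2, v.2))
  have t2 := Tm.img le_tp fo (ι := Nm Cn × Nm Cn) (κ := Cd ℝ)
    (Θ := fun a F N G => (SX N G).fC (fn N G F) ∈ val N G a.1)
    (s := fun a F N G => ZFSet.pair ((SX N G).fC (fn N G F)) (tF N G a.2 F)) h0
    ((tm_fn.comap fun v : (Nm Cn × Nm Cn) × Cd ℝ => v.2).pair le_tp fo
      (tm_tF.comap fun v : (Nm Cn × Nm Cn) × Cd ℝ => (v.1.2, v.2)))
  filter_upwards [club_Y, club_inj, club_real le_tp fo sc, tm_tF.mod, t1.mod, t2.mod,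
    clo_pair (Nm Cn) (Cd ℝ), clo_pair (Nm Cn) (Nm Cn), clo_ctbl Unit]
    with N hY inj re h1 h2 h3 p1 p2 cU G hG π hπ hA
  obtain ⟨ρ, a1, a2⟩ := hY G hG π hπ hA
  have e0 : ∀ z, z ∈ val N G ρ ↔ ∃ h : Hom (Mod N G) (SX N G) (AM N G π),
      hc (SX N G) (AM N G π) h.1 = z := fun z => a2 ▸ mem_img.trans
    ⟨fun ⟨h, _, k⟩ => ⟨h, k⟩, fun ⟨h, k⟩ => ⟨h, trivial, k⟩⟩
  have e1 : ∀ F, fn N G F ∈ AM N G π → tF N G ρ F =
      (SY (Mod N G) (SX N G) (AM N G π)).fC fun h => h.1 (fn N G F) := fun F k =>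
    ZFSet.ext fun y => mem_imS.trans (Iff.trans ⟨by
      rintro ⟨z, b1, r, ⟨-, b2⟩, rfl⟩
      obtain ⟨h, rfl⟩ := (e0 z).1 b1
      exact ⟨h, trivial, congrArg (fun t => ZFSet.pair _ (realC t)) ((mem_hc (inj G hG)).1 b2).2⟩, by
      rintro ⟨h, -, rfl⟩
      exact ⟨_, (e0 _).2 ⟨h, rfl⟩, _, ⟨(re G hG _).1 (h.2.2.1.val _ k),
        (mem_hc (inj G hG)).2 ⟨k, rfl⟩⟩, rfl⟩⟩ mem_img.symm)
  have e2 : ∀ F, fn N G F ∈ AM N G π → tZ N G ρ F =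
      img {h : Hom (Mod N G) (SX N G) (AM N G π) | h.1 (fn N G F) ≠ 0}
        fun h => hc (SX N G) (AM N G π) h.1 := fun F k =>
    ZFSet.ext fun y => mem_imS.trans (Iff.trans ⟨by
      rintro ⟨z, b1, -, ⟨-, b2⟩, rfl⟩
      obtain ⟨h, rfl⟩ := (e0 z).1 b1
      exact ⟨h, fun e => b2 ((mem_hc (inj G hG)).2 ⟨k, e⟩), rfl⟩, by
      rintro ⟨h, b, rfl⟩
      exact ⟨_, (e0 _).2 ⟨h, rfl⟩, (), ⟨cU _, fun e => b ((mem_hc (inj G hG)).1 e).2⟩, rfl⟩⟩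
      mem_img.symm)
  have a3 := (p2 _ _).2 ⟨hπ, a1⟩
  refine ⟨fun a k => ?_, ?_, ?_⟩
  · obtain ⟨F, b, rfl⟩ := k.1
    exact e1 F k ▸ h1 G hG (ρ, F) ((p1 _ _).2 ⟨a1, b⟩)
  · convert h2 G hG _ a3 using 1
    refine ZFSet.ext fun y => mem_img.trans (Iff.trans ⟨?_, ?_⟩ mem_img.symm)
    · rintro ⟨_, ⟨_, ⟨⟨F, b1, rfl⟩, b2⟩, rfl⟩, rfl⟩
      exact ⟨F, ⟨b1, b2⟩, e2 F ⟨⟨F, b1, rfl⟩, b2⟩⟩
    · rintro ⟨F, ⟨b1, b2⟩, rfl⟩
      exact ⟨_, ⟨_, ⟨⟨F, b1, rfl⟩, b2⟩, rfl⟩, (e2 F ⟨⟨F, b1, rfl⟩, b2⟩).symm⟩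
  · convert h3 G hG _ a3 using 1
    refine ZFSet.ext fun y => mem_img.trans (Iff.trans ⟨?_, ?_⟩ mem_img.symm)
    · rintro ⟨_, ⟨⟨F, b1, rfl⟩, b2⟩, rfl⟩
      exact ⟨F, ⟨b1, b2⟩, congrArg _ (e1 F ⟨⟨F, b1, rfl⟩, b2⟩)⟩
    · rintro ⟨F, ⟨b1, b2⟩, rfl⟩
      exact ⟨_, ⟨⟨F, b1, rfl⟩, b2⟩, congrArg _ (e1 F ⟨⟨F, b1, rfl⟩, b2⟩).symm⟩

theorem club_cy : ∀ᶠ N in Club, ∀ G, GG N Le G → ∀ A, IsALG (Mod N G) (SX N G) A →
    IsCY (Mod N G) (SX N G) A := by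
  have t1 := Tm.img le_tp fo (ι := Nm Cn × Nm Cn) (κ := P × ℝ)
    (Θ := fun a z N G => ZFSet.pair (gr N G a.1 fun w => w.1.ev G z.1 = w.2) (realC z.2) ∈
      val N G a.2) (s := fun _ z N G => ZFSet.pair (val N G (ptN z.1.1)) (realC z.2))
    (((tm_ev.comap fun v : (Nm Cn × Nm Cn) × P × ℝ => (v.1.1, v.2.1)).pair le_tp fo
      (tm_real.comap fun v : (Nm Cn × Nm Cn) × P × ℝ => v.2.2)).mem fo (Tm.val _))
    ((Tm.val _).pair le_tp fo (tm_real.comap fun v : (Nm Cn × Nm Cn) × P × ℝ => v.2.2))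
  filter_upwards [club_al, club_Y, club_sp, club_ev, club_kc, club_cont, club_C, club_inj,
    club_zfc le_tp fo, club_real le_tp fo sc, t1.mod, clo_pair (Nm Cn) (Nm Cn), clo_pair P ℝ,
    club_bool, clo1 fun F : Cd ℝ => F.map fun t => t ≠ 0,
    clo1 fun F : Cd ℝ => F.map fun t => t / (1 + |t|),
    club_all fun q : ℚ => clo1 fun F : Cd ℝ => F.map fun t : ℝ => t ≤ q,
    club_all fun q : ℚ => clo1 fun F : Cd ℝ => F.map fun t : ℝ => q ≤ t]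
    with N al hY sp ev kc ct hC inj zf re h1 p1 p2 bo c1 c2 c3 c4 G hG A hA
  obtain ⟨hL', π, hπ, rfl⟩ := al G hG A hA
  have hL : Al (X := X N) _ (AM N G π) _ := hL'
  have hR := hL.toRn
  obtain ⟨s1, s2, s3⟩ := sp G hG π hπ hR
  have hZ := zf G hG
  have yi := hc_inj (M := Mod N G) (S := SX N G) (inj G hG) (A := AM N G π)
  have cz : ∀ a ∈ AM N G π, {h : Hom (Mod N G) (SX N G) (AM N G π) | h.1 a ≠ 0} ∈
      (SY (Mod N G) (SX N G) (AM N G π)).T := fun a k => gen_base hZ s2 ⟨a, k, rfl⟩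
  have mp : ∀ a ∈ AM N G π, (fun h => h.1 a) ∈ (SY (Mod N G) (SX N G) (AM N G π)).C (Mod N G) := by
    refine fun a k => ⟨s1 a k, fun q => ⟨?_, ?_⟩⟩
    · have k1 := hR.sub (hR.cq q) k
      have k2 := hR.add _ (hL.abs k1) _ k1
      refine mem_of_eq_of_mem (Set.ext fun h => Iff.symm ?_) (cz _ k2)
      have := h.2.2.1.app hR k (fun t => |(q : ℝ) - t| + (q - t)) k2
      refine (not_congr this.congr_left).trans ?_
      rw [add_eq_zero_iff_eq_neg, abs_eq_neg_self, not_le, sub_pos]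
      rfl
    · have k1 := hR.sub k (hR.cq q)
      have k2 := hR.add _ (hL.abs k1) _ k1
      refine mem_of_eq_of_mem (Set.ext fun h => Iff.symm ?_) (cz _ k2)
      have := h.2.2.1.app hR k (fun t => |t - (q : ℝ)| + (t - q)) k2
      refine (not_congr this.congr_left).trans ?_
      rw [add_eq_zero_iff_eq_neg, abs_eq_neg_self, not_le, sub_pos]
      rfl
  choose ε e1 using fun i => (ev G hG π hπ hR i).2
  have e2 : ∀ i, ∀ a ∈ AM N G π, (ε i).1 a = a i := fun i a k => (congrFun (e1 i) a).trans (if_pos k)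
  refine ⟨SY (Mod N G) (SX N G) (AM N G π), tych_gen hZ yi (hY G hG π hπ hR) s2
    (fun h => ⟨_, ⟨_, hR.one, rfl⟩, (h.2.2.1.app hR hR.one (fun _ => 1) hR.one).trans_ne one_ne_zero⟩)
    ?_ (fun h h' k => ?_) ?_, fun f h => h.1 f, s3, ⟨mp, fun a k b k' e => funext fun i =>
      (e2 i a k).symm.trans ((congrFun e (ε i)).trans (e2 i b k')), fun g hg => ?_⟩,
    fun f k g k' => ⟨funext fun h => (h.2.2.1.op f k g k').1, funext fun h => (h.2.2.1.op f k g k').2⟩,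
    fun r k => funext fun h => h.2.2.1.const r k⟩
  · rintro _ ⟨a, k, rfl⟩ _ ⟨b, k', rfl⟩
    exact ⟨_, hR.mul a k b k', Set.ext fun h =>
      (not_congr (h.2.2.1.op a k b k').2.congr_left).trans mul_ne_zero_iff⟩
  · obtain ⟨a, k1⟩ := Function.ne_iff.1 fun e => k (Subtype.ext e)
    have k2 : a ∈ AM N G π := by_contra fun e => k1 ((h'.2.2.2 a e).trans (h.2.2.2 a e).symm)
    have k3 := hR.sub k2 (hR.const _ (h.2.2.1.val a k2))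
    exact ⟨_, ⟨_, k3, rfl⟩, (h'.2.2.1.app hR k2 (fun t => t - h.1 a) k3).trans_ne (sub_ne_zero.2 k1),
      not_not.2 ((h.2.2.1.app hR k2 (fun t => t - h.1 a) k3).trans (sub_self _))⟩
  · rintro _ ⟨a, k, rfl⟩ h k1
    have k2 := hR.sub hR.one (hR.div k (hR.const _ (h.2.2.1.val a k)) fun _ => k1)
    refine ⟨_, mp _ k2, (h.2.2.1.app hR k (fun t => 1 - t / h.1 a) k2).trans ?_, fun h' k3 =>
      (h'.2.2.1.app hR k (fun t => 1 - t / h.1 a) k2).trans ?_⟩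
    · rw [div_self k1, sub_self]
    · rw [not_not.1 k3, zero_div, sub_zero]
  obtain ⟨⟨ρ, a1, a2⟩, a3⟩ := hg
  have lo : ∀ (h) (q : ℚ), g h < q → ∃ w ∈ AM N G π, h.1 w ≠ 0 ∧ ∀ x, w x ≠ 0 → g (ε x) < q :=
    fun h q k => let ⟨_, ⟨w, k1, rfl⟩, k2, k3⟩ := (a3 q).1.2 h k
      ⟨w, k1, k2, fun x k4 => k3 ((e2 x w k1).trans_ne k4)⟩
  have hi : ∀ (h) (q : ℚ), q < g h → ∃ w ∈ AM N G π, h.1 w ≠ 0 ∧ ∀ x, w x ≠ 0 → q < g (ε x) :=
    fun h q k => let ⟨_, ⟨w, k1, rfl⟩, k2, k3⟩ := (a3 q).2.2 h k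
      ⟨w, k1, k2, fun x k4 => k3 ((e2 x w k1).trans_ne k4)⟩
  have e3 : ∀ (i : X N) (r : ℝ), ZFSet.pair (gr N G π fun w => w.1.ev G i.1 = w.2) (realC r) ∈
      val N G ρ ↔ g (ε i) = r := fun i r => by
    rw [(ev G hG π hπ hR i).1.trans (congrArg _ (e1 i).symm), a2]
    exact pair_mem_fC (S := SY (Mod N G) (SX N G) (AM N G π)) yi
  obtain ⟨F, b1, b2⟩ := ct G hG (fun i => g (ε i)) (by
    convert h1 G hG (π, ρ) ((p1 _ _).2 ⟨hπ, a1⟩) using 1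
    refine ZFSet.ext fun y => mem_img.trans (Iff.trans ⟨?_, ?_⟩ mem_img.symm)
    · rintro ⟨i, -, rfl⟩
      exact ⟨(i.1, g (ε i)), ⟨(p2 _ _).2 ⟨i.2, (re G hG _).1
        (zf_pair hZ (hZ.trans _ ⟨ρ, a1, rfl⟩ _ ((e3 i _).2 rfl))).2⟩, (e3 i _).2 rfl⟩, rfl⟩
    · rintro ⟨⟨i, r⟩, ⟨b1, b2⟩, rfl⟩
      exact ⟨⟨i, ((p2 _ _).1 b1).1⟩, trivial, congrArg (fun t => ZFSet.pair _ (realC t))
        ((e3 ⟨i, ((p2 _ _).1 b1).1⟩ r).1 b2)⟩) fun i q => by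
    rcases lt_trichotomy (g (ε i)) q with k | k | k
    · obtain ⟨w, k1, k2, k3⟩ := lo _ q k
      obtain ⟨W, k4, rfl⟩ := k1.1
      exact ⟨_, c1 W k4, (e2 i _ k1).symm.trans_ne k2, fun j hj =>
        ⟨fun _ => k3 j hj, fun k' => absurd k k'.not_gt⟩⟩
    · exact ⟨_, bo.2.2.2.1 True, trivial, fun j _ => by simp [k]⟩
    · obtain ⟨w, k1, k2, k3⟩ := hi _ q k
      obtain ⟨W, k4, rfl⟩ := k1.1
      exact ⟨_, c1 W k4, (e2 i _ k1).symm.trans_ne k2, fun j hj =>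
        ⟨fun k' => absurd k k'.not_gt, fun _ => k3 j hj⟩⟩
  have b3 : ∀ i, fn N G F i = g (ε i) := congrFun b2
  have b4 : fn N G F ∈ AM N G π := hL.mem ((hC G hG _).2 ⟨_, c2 F b1, rfl⟩) fun s t k => by
    have k' : (s : ℝ) < t := by exact_mod_cast k
    refine ⟨kc G hG π hπ hA _ _ (c3 s F b1) (c4 t F b1)
      (fun i _ k1 k2 => k'.not_ge (le_trans k2 k1)) fun h k1 => ?_,
      kc G hG π hπ hA _ _ (c4 t F b1) (c3 s F b1)
        (fun i _ k1 k2 => k'.not_ge (le_trans k1 k2)) fun h k1 => ?_⟩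
    · obtain ⟨w, k2, k3, k4⟩ := hi h s (not_le.1 fun k2 => by
        obtain ⟨w, k3, k4, k5⟩ := lo h t (k2.trans_lt k')
        obtain ⟨x, k6, k7⟩ := k1 w k3 k4
        exact (k5 x k7).not_ge (le_of_le_of_eq k6 (b3 x)))
      exact ⟨w, k2, k3, fun x k5 => not_not.1 fun k6 =>
        (k4 x k6).not_ge ((b3 x).symm.trans_le k5)⟩
    · obtain ⟨w, k2, k3, k4⟩ := lo h t (not_le.1 fun k2 => by
        obtain ⟨w, k3, k4, k5⟩ := hi h s (k'.trans_le k2)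
        obtain ⟨x, k6, k7⟩ := k1 w k3 k4
        exact (k5 x k7).not_ge ((b3 x).symm.trans_le k6))
      exact ⟨w, k2, k3, fun x k5 => not_not.1 fun k6 =>
        (k4 x k6).not_ge (le_of_le_of_eq k5 (b3 x))⟩
  refine ⟨_, b4, funext fun h => ?_⟩
  rcases lt_trichotomy (h.1 (fn N G F)) (g h) with k | k | k
  · obtain ⟨q, k1, k2⟩ := exists_rat_btwn k
    obtain ⟨w, k3, k4, k5⟩ := hi h q k2
    obtain ⟨x, k6, k7⟩ := h.2.2.1.ex2 hR k3 b4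
    exact absurd (k5 x (k6.trans_ne k4)) (((b3 x).symm.trans k7).trans_lt k1).not_gt
  · exact k
  · obtain ⟨q, k1, k2⟩ := exists_rat_btwn k
    obtain ⟨w, k3, k4, k5⟩ := lo h q k1
    obtain ⟨x, k6, k7⟩ := h.2.2.1.ex2 hR k3 b4
    exact absurd (k5 x (k6.trans_ne k4)) (k2.trans_eq (k7.symm.trans (b3 x))).not_gt

theorem main : ∃ M : Set V, M.Countable ∧ IsZFC M ∧ ∃ S : Sp, Tych M S ∧ RealCpt M S ∧
    ¬ Lind M S ∧ ∀ A, IsALG M S A → IsCY M S A := by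
  obtain ⟨N, h1, h2, h3, h4, h5, h6, G, hG⟩ := (club_countable.and ((club_zfc le_tp fo).and
    (club_tych.and (club_rc.and (club_nl.and (club_cy.and (club_gg fo tp val_tp.le))))))).exists
  exact ⟨Mod N G, (countable_In _ h1).image _, h2 G hG, SX N G, h3 G hG, h4 G hG, h5 G hG, h6 G hG⟩

end Pool.Agent.Lib.MP_d63cb0_gt.H15
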