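import Pool.Agent.Lib.MP_d63cb0_gt.H15.Core

/-!
The main lemma: no two disjoint coded sets are glued by a separation relation.
-/

namespace Pool.Agent.Lib.MP_d63cb0_gt.H15

open Pool.Agent.Lib.MP_fecf72_lc Set Filter

variable {ι : Type 2} (Sep : ι → (N : Set Wd) → Set Cn → Set (X N) → Set (X N) → Prop)

/-- Parameters. -/
structure Pr (ι : Type 2) : Type 2 where
  a : ι
  c : Cp
  H : Cp
  δ : K
  u : P

/-- Sets separated from a neighbourhood of the node. -/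
def Gl (w : Pr ι) (N : Set Wd) (G : Set Cn) (B : Set (X N)) : Prop :=
  ∃ e : Cp, In N e ∧ Lev w.δ e ∧ e.ev G w.u ∧ Sep w.a N G (st N G e ∩ st N G w.c) (B ∩ st N G w.H)

/-- The node of `z` has arbitrarily high points in `d`. -/
def Hi (δ : K) (z : P) (d : Cp) (N : Set Wd) (G : Set Cn) : Prop :=
  (z.1 < δ ∧ d.ev G z) ∨ (δ ≤ z.1 ∧ ∀ γ : K, In N γ → ∃ k : P, In N k ∧ γ < k.1 ∧ Lf G δ z k ∧ d.ev G k)

theorem fc_hi : Fc Le fun (a : K × P × Cp) N G => Hi a.1 a.2.1 a.2.2 N G :=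
  ((Fc.ground _).and (fc_ev.comap fun a : K × P × Cp => (a.2.2, a.2.1))).or ((Fc.ground _).and
    (Fc.all fo (Θ := fun (a : K × P × Cp) (γ : K) N G =>
      ∃ k : P, In N k ∧ γ < k.1 ∧ Lf G a.1 a.2.1 k ∧ a.2.2.ev G k)
    (Fc.ex fo (Θ := fun (a : (K × P × Cp) × K) (k : P) _ G =>
      a.2 < k.1 ∧ Lf G a.1.1 a.1.2.1 k ∧ a.1.2.2.ev G k) ((Fc.ground _).and ((Fc.hd _).and
        (fc_ev.comap fun a : ((K × P × Cp) × K) × P => (a.1.1.2.2, a.2)))))))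

variable {Sep} (hS : Fc Le fun (z : ι × Cp × Cp) N G => Sep z.1 N G (st N G z.2.1) (st N G z.2.2))
include hS

theorem fc_gl : Fc Le fun (z : Pr ι × Cp) N G => Gl Sep z.1 N G (st N G z.2) :=
  Fc.ex fo (Θ := fun (z : Pr ι × Cp) (e : Cp) N G => Lev z.1.δ e ∧ e.ev G z.1.u ∧
    Sep z.1.a N G (st N G e ∩ st N G z.1.c) (st N G z.2 ∩ st N G z.1.H))
    ((Fc.ground _).and ((fc_ev.comap fun y : (Pr ι × Cp) × Cp => (y.2, y.1.1.u)).and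
      (hS.comap fun y : (Pr ι × Cp) × Cp =>
        (y.1.1.a, y.2.map2 And y.1.1.c, y.1.2.map2 And y.1.1.H))))

theorem club_main : ∀ᶠ N in Club, ∀ G, GG N Le G → ∀ a, In N a → ∀ c H : Cp, In N c → In N H →
    (∀ A A' B B', A' ⊆ A → B' ⊆ B → Sep a N G A B → Sep a N G A' B') →
    (∀ A A' B B', Sep a N G A B → Sep a N G A' B' → Sep a N G (A ∩ A') (B ∪ B')) →
    Sep a N G univ ∅ → Sep a N G ∅ univ → (∀ i : P, In N i → c.ev G i → ¬ H.ev G i) →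
    (∀ i ∈ st N G c, ∃ e : Cp, In N e ∧ i ∈ st N G e ∧ Sep a N G (st N G e) (st N G H)) →
    (∀ q : Cp → Prop, Int N G q → Ult N G q → q H → ∃ s : ℕ → Cp × Cp, In N s ∧
      (∀ i ∈ st N G c, ∃ n, i ∈ st N G (s n).1) ∧
        ∀ n, q (s n).2 ∧ Sep a N G (st N G (s n).1) (st N G (s n).2)) →
    ∃ s : ℕ → Cp, In N s ∧ (∀ n, Sep a N G (st N G (s n)) (st N G H)) ∧
      ∀ i ∈ st N G c, ∃ n, i ∈ st N G (s n) := by
  have lv : ∀ s : ℕ → Cp × Cp, ∃ γ, ∀ n, Lev γ (s n).1 ∧ Lev γ (s n).2 := fun s =>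
    let ⟨γ, h⟩ := ex_lev fun n => (s n).1
    let ⟨γ', h'⟩ := ex_lev fun n => (s n).2
    ⟨max γ γ', fun n => ⟨(h n).le (le_max_left _ _), (h' n).le (le_max_right _ _)⟩⟩
  choose lev hlev using lv
  filter_upwards [club_refl, club_lin Unit, club_lin Prop, club_lift, club_split, club_ult,
    club_bool, club_pt, clo1 lev, clo2 fun (c H : Cp) (_ : ℕ) => (c, H), clo_pair ι (Cp × Cp),
    clo_pair Cp Cp, clo_pair Cp Unit, clo_pair Cp Prop, clo_ctbl Unit, clo_ctbl Prop,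
    clo3' fun (z : ι × Cp × Cp) δ u => Pr.mk z.1 z.2.1 z.2.2 δ u,
    clo1n fun (s : ℕ → Cp × Cp) n => s n, clo1n fun (s : ℕ → P) n => s n,
    clo2 fun (s : ℕ → Cp × Unit) (c : Cp) n => (s n).1.map2 And c,
    clo1 fun s : ℕ → Cp × Prop => Cd.mapn (fun v : ℕ → Prop => ∃ n, v n ∧ (s n).2) fun n => (s n).1,
    clo2 fun (k : P) (y : ℕ → P) (n : ℕ) => (Nat.casesOn n k y : P),
    clo_pair (Pr ι) (ℕ → P), clo_pair Cp (Cp × Cp), clo_pair Cp P,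
    clo_pair (Pr ι × (ℕ → P)) (Cp × P),
    Fc.int (Θ := fun (z : ι × Cp × Cp) (e : Cp) N G =>
      Sep z.1 N G (st N G e ∩ st N G z.2.1) (st N G e ∩ st N G z.2.2))
      (hS.comap fun y : (ι × Cp × Cp) × Cp =>
        (y.1.1, y.2.map2 And y.1.2.1, y.2.map2 And y.1.2.2)),
    Fc.int (Θ := fun (z : ι × Cp × Cp) (e : Cp × Unit) N G =>
      Sep z.1 N G (st N G e.1 ∩ st N G z.2.1) (st N G z.2.2))
      (hS.comap fun y : (ι × Cp × Cp) × Cp × Unit => (y.1.1, y.2.1.map2 And y.1.2.1, y.1.2.2)),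
    Fc.int (Θ := fun (w : Pr ι) (d : Cp) N G => ∃ d0 : Cp, In N d0 ∧ Lev w.δ d0 ∧
      Gl Sep w N G (st N G d0) ∧ st N G d ∩ st N G w.H ⊆ st N G d0)
      (Fc.ex fo (Θ := fun (z : Pr ι × Cp) (d0 : Cp) N G => Lev z.1.δ d0 ∧
        Gl Sep z.1 N G (st N G d0) ∧ st N G z.2 ∩ st N G z.1.H ⊆ st N G d0)
        ((Fc.ground _).and (((fc_gl hS).comap fun y : (Pr ι × Cp) × Cp => (y.1.1, y.2)).and
          (fc_sub.comap fun y : (Pr ι × Cp) × Cp => (y.1.2.map2 And y.1.1.H, y.2))))),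
    Fc.int (Θ := fun (z : Cp × Cp × Cp) (w : Cp × Prop) N G => (w.2 → st N G w.1 ⊆ st N G z.1) ∧
      (¬ w.2 → st N G w.1 ∩ st N G z.1 ∩ st N G z.2.1 ⊆ st N G z.2.2))
      (((Fc.ground _).imp (fc_sub.comap fun y : (Cp × Cp × Cp) × Cp × Prop => (y.2.1, y.1.1))).and
        ((Fc.ground _).imp (fc_sub.comap fun y : (Cp × Cp × Cp) × Cp × Prop =>
          ((y.2.1.map2 And y.1.1).map2 And y.1.2.1, y.1.2.2)))),
    Fc.int (Θ := fun (w : Pr ι × (ℕ → P)) (d : Cp) N G => ∃ B : Cp, In N B ∧ Lev w.1.δ B ∧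
      Gl Sep w.1 N G (st N G B) ∧ ∀ m, w.1.H.ev G (w.2 m) → Hi w.1.δ (w.2 m) d N G → B.ev G (w.2 m))
      (Fc.ex fo (Θ := fun (z : (Pr ι × (ℕ → P)) × Cp) (B : Cp) N G => Lev z.1.1.δ B ∧
        Gl Sep z.1.1 N G (st N G B) ∧ ∀ m, z.1.1.H.ev G (z.1.2 m) →
          Hi z.1.1.δ (z.1.2 m) z.2 N G → B.ev G (z.1.2 m))
        ((Fc.ground _).and (((fc_gl hS).comap fun y : ((Pr ι × (ℕ → P)) × Cp) × Cp =>
          (y.1.1.1, y.2)).and (Fc.allc fo (Θ := fun (y : ((Pr ι × (ℕ → P)) × Cp) × Cp) (m : ℕ) N G =>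
            y.1.1.1.H.ev G (y.1.1.2 m) → Hi y.1.1.1.δ (y.1.1.2 m) y.1.2 N G → y.2.ev G (y.1.1.2 m))
            ((fc_ev.comap fun v : (((Pr ι × (ℕ → P)) × Cp) × Cp) × ℕ =>
              (v.1.1.1.1.H, v.1.1.1.2 v.2)).imp
              ((fc_hi.comap fun v : (((Pr ι × (ℕ → P)) × Cp) × Cp) × ℕ =>
                (v.1.1.1.1.δ, v.1.1.1.2 v.2, v.1.1.2)).imp
                (fc_ev.comap fun v : (((Pr ι × (ℕ → P)) × Cp) × Cp) × ℕ =>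
                  (v.1.2, v.1.1.1.2 v.2)))))))),
    icc fo sc (Θ := fun (w : (Pr ι × (ℕ → P)) × Cp × P) (m : ℕ) (y : P) N G =>
      (w.2.1.ev G y ∧ w.1.1.H.ev G y ∧ (y.1 < w.1.1.δ ∨ w.2.2 < y) ∧
        (y = w.1.2 m ∨ Lf G w.1.1.δ (w.1.2 m) y)) ∨
      (y = w.2.2 ∧ ¬ (w.1.1.H.ev G (w.1.2 m) ∧ Hi w.1.1.δ (w.1.2 m) w.2.1 N G)))
      (((fc_ev.comap fun v : ((Pr ι × (ℕ → P)) × Cp × P) × ℕ × P => (v.1.2.1, v.2.2)).and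
        ((fc_ev.comap fun v : ((Pr ι × (ℕ → P)) × Cp × P) × ℕ × P => (v.1.1.1.H, v.2.2)).and
          ((Fc.ground _).and ((Fc.ground _).or (Fc.hd _))))).or ((Fc.ground _).and
        ((fc_ev.comap fun v : ((Pr ι × (ℕ → P)) × Cp × P) × ℕ × P =>
          (v.1.1.1.H, v.1.1.2 v.2.1)).and
          (fc_hi.comap fun v : ((Pr ι × (ℕ → P)) × Cp × P) × ℕ × P =>
            (v.1.1.1.δ, v.1.1.2 v.2.1, v.1.2.1))).not))]
    with N rf lin lin' lf sp ul ⟨bA, bO, bN, bC, bK⟩ cp c1 c2 p1 p2 p3 p4 cU cP c3 c4 c5 c6 c7 c8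
      p5 p6 p7 p8 i1 i2 i3 i4 i5 ic G hG a ha c H hc hH mo cu s1 s2 dj pt hq
  by_contra hno
  have a0 := (p1 _ _).2 ⟨ha, (p2 _ _).2 ⟨hc, hH⟩⟩
  obtain ⟨δ, d1, d2, d3, d4⟩ := rf G hG _ (i1 G hG _ a0) _ (c1 _ (c2 c H hc hH))
  have lc : Lev δ c := (hlev _ 0).1.le d2.le
  have lH : Lev δ H := (hlev _ 0).2.le d2.le
  have R1 : ∀ (e d d' : Cp) (y : ℕ → P), In N e → In N d → In N d' → In N y →
      Sep a N G (st N G e) (st N G d) → (∀ n, ((e.ev G (y n) ∧ c.ev G (y n)) ∨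
        (d.ev G (y n) ∧ H.ev G (y n))) ∧ ((y n).1 < δ ∨ (Lev (y n) e ∧ Lev (y n) d))) →
      Lev δ d' → st N G d' ⊆ st N G d → ∃ e0 : Cp, In N e0 ∧ Lev δ e0 ∧
        Sep a N G (st N G e0 ∩ st N G c) (st N G e0 ∩ st N G H) ∧ (∀ n, e0.ev G (y n)) ∧
        st N G d' ∩ st N G H ⊆ st N G e0 := by
    intro e d d' y a1 a2 a3 a4 a5 a6 a7 a8
    obtain ⟨e0, b1, b2, b3, b4, b5⟩ := d4 ((e.map2 And c).map2 Or (d.map2 And H)) (d'.map2 And H) y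
      (bO _ _ (bA _ _ a1 hc) (bA _ _ a2 hH)) (bA _ _ a3 hH) a4
      (mo _ _ _ _ (fun i k => k.1.elim And.left fun k' => (dj i.1 i.2 k.2 k'.2).elim)
        (fun i k => k.1.elim (fun k' => (dj i.1 i.2 k'.2 k.2).elim) And.left) a5)
      (fun n => ⟨(a6 n).1, (lt_or_ge (y n).1 δ).imp_right fun k =>
        let k' := (a6 n).2.resolve_left k.not_gt
        (k'.1.map2 (lc.le k) _).map2 (k'.2.map2 (lH.le k) _) _⟩) (a7.map2 lH _)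
      fun i k k' => Or.inr ⟨a8 (a := ⟨i, k⟩) k'.1, k'.2⟩
    exact ⟨e0, b1, b2, b3, b4, fun i k => b5 i.1 i.2 k⟩
  obtain ⟨u, u1, u2, u3⟩ : ∃ u : P, In N u ∧ c.ev G u ∧
      ¬ Gl Sep ⟨a, c, H, δ, u⟩ N G (st N G H) := by
    by_contra k
    simp only [not_exists, not_and, not_not] at k
    obtain ⟨s, b1, b2, b3⟩ := lin G hG _ (i2 G hG _ a0) δ d1 fun i hi => by
      by_cases k' : c.ev G i
      · obtain ⟨e, b1, b2, b3, b4⟩ := k i hi k'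
        exact ⟨(e, ()), (p3 _ _).2 ⟨b1, cU _⟩, b2, b3,
          mo _ _ _ _ subset_rfl (subset_inter subset_rfl subset_rfl) b4⟩
      · exact ⟨(c.map Not, ()), (p3 _ _).2 ⟨bN c hc, cU _⟩, lc.map _, k',
          mo _ _ _ _ (fun _ k => k.1 k.2) (subset_univ _) s2⟩
    exact hno ⟨_, c6 s c b1 hc, fun n => (b2 n).2, fun i hi =>
      (b3 i.1 i.2).imp fun n k => ⟨k, hi⟩⟩
  let w : Pr ι := ⟨a, c, H, δ, u⟩
  have hw : In N w := c3 _ δ u a0 d1 u1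
  have g1 : ∀ A B C, A ∩ st N G H ⊆ B ∪ C → Gl Sep w N G B → Gl Sep w N G C → Gl Sep w N G A := by
    rintro A B C k ⟨e, b1, b2, b3, b4⟩ ⟨e', b5, b6, b7, b8⟩
    refine ⟨_, bA e e' b1 b5, b2.map2 b6 _, ⟨b3, b7⟩, mo _ _ _ _ ?_ ?_ (cu _ _ _ _ b4 b8)⟩
    exacts [fun i k => ⟨⟨k.1.1, k.2⟩, k.1.2, k.2⟩,
      fun i k' => (k k').imp (fun k => ⟨k, k'.2⟩) fun k => ⟨k, k'.2⟩]
  have g2 : Gl Sep w N G (st N G (Cd.cst False)) :=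
    ⟨_, bC True, lev_cst _, trivial, mo _ _ _ _ (subset_univ _) (fun _ k => k.1) s1⟩
  have g3 : ∀ A B, A ∩ st N G H ⊆ B → Gl Sep w N G B → Gl Sep w N G A := fun A B k k' =>
    g1 A B B (k.trans subset_union_left) k' k'
  have g4 : ∀ e0 : Cp, In N e0 → Lev δ e0 → e0.ev G u →
      Sep a N G (st N G e0 ∩ st N G c) (st N G e0 ∩ st N G H) → Gl Sep w N G (st N G e0) :=
    fun e0 b1 b2 b3 b4 => ⟨e0, b1, b2, b3, b4⟩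
  have u4 : δ ≤ u.1 := not_lt.1 fun k => by
    obtain ⟨e, b1, b2, b3⟩ := pt ⟨u, u1⟩ u2
    obtain ⟨e0, b4, b5, b6, b7, b8⟩ := R1 e H H _ b1 hH hH (bK u u1) b3
      (fun _ => ⟨Or.inl ⟨b2, u2⟩, Or.inl k⟩) lH subset_rfl
    exact u3 (g3 _ _ b8 (g4 e0 b4 b5 (b7 0) b6))
  have K1 : ∀ I : Cp → Prop, Int N G I → Idl N G I → ¬ I H → ∃ (e d : Cp) (k : P), In N e ∧
      In N d ∧ In N k ∧ ¬ I d ∧ Sep a N G (st N G e) (st N G d) ∧ Lf G δ u k ∧ Lev k e ∧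
      Lev k d ∧ e.ev G k ∧ c.ev G k := by
    intro I b1 b2 b3
    obtain ⟨q, b4, b5, b6, b7⟩ := ul G hG I b1 b2 H hH b3
    obtain ⟨s, e1, e2, e3⟩ := hq q b4 b5 b6
    obtain ⟨ξ, -, e4⟩ := lf G hG u δ _ u1 d1 (c1 s e1) u4
    obtain ⟨k, e5, -, e6, e7, -⟩ := e4 True
    have e8 : c.ev G k := e7.ev hG.f lc ▸ u2
    obtain ⟨n, e9⟩ := e2 ⟨k, e5⟩ e8
    have e10 := (p2 _ _).1 (c4 s e1 n)
    exact ⟨_, _, k, e10.1, e10.2, e5, b7 _ e10.2 (e3 n).1, (e3 n).2, e7, (hlev s n).1.le e6.le,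
      (hlev s n).2.le e6.le, e9, e8⟩
  obtain ⟨z, z1, z2⟩ : ∃ z : ℕ → P, In N z ∧ ¬ ∃ B : Cp, In N B ∧ Lev δ B ∧
      Gl Sep w N G (st N G B) ∧ ∀ m, H.ev G (z m) → B.ev G (z m) := by
    obtain ⟨e, d, k, b1, b2, b3, b4, b5, b6, b7, b8, b9, b10⟩ := K1 _ (i3 G hG w hw)
      ⟨fun d e f _ _ _ k ⟨e0, b1, b2, b3, b4⟩ ⟨f0, b5, b6, b7, b8⟩ =>
        ⟨_, bO e0 f0 b1 b5, b2.map2 b6 _, g1 _ _ _ inter_subset_left b3 b7, fun i k' =>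
          (k k'.1).imp (fun k => b4 ⟨k, k'.2⟩) fun k => b8 ⟨k, k'.2⟩⟩,
        _, bC False, lev_cst _, g2, inter_subset_left⟩
      fun ⟨d0, _, _, b3, b4⟩ => u3 (g3 _ _ b4 b3)
    obtain ⟨z, e1, e2⟩ := sp G hG d δ b2 d1 d3
    refine ⟨z, e1, fun ⟨B, e3, e4, e5, e6⟩ => ?_⟩
    obtain ⟨s, f1, f2, f3⟩ := lin' G hG _
      (i4 G hG (d, H, B) ((p6 _ _).2 ⟨b2, (p2 _ _).2 ⟨hH, e3⟩⟩)) δ d1 fun i hi => by
        by_cases f0 : H.ev G i → B.ev G i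
        · exact ⟨((H.map Not).map2 Or B, False), (p4 _ _).2 ⟨bO _ _ (bN H hH) e3, cP _⟩,
            (lH.map _).map2 e4 _, imp_iff_not_or.1 f0, False.elim,
            fun _ j k => k.1.1.resolve_left fun k' => k' k.2⟩
        rcases e2 i hi with ⟨m, f1⟩ | ⟨e0, f1, f2, f3, f4⟩
        · exact (f0 fun k => (f1.ev hG.f e4).symm ▸ e6 m (f1.ev hG.f lH ▸ k)).elim
        exact ⟨(e0, d.ev G i), (p4 _ _).2 ⟨f1, cP _⟩, f2, f3, fun k j k' => (f4 j.1 j.2 k').2 k,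
          fun k j k' => (k ((f4 j.1 j.2 k'.1.1).1 k'.1.2)).elim⟩
    have f4 := Lev.mapn (fun n => (f2 n).1) fun v : ℕ → Prop => ∃ n, v n ∧ (s n).2
    obtain ⟨e0, f5, f6, f7, f8, f9⟩ := R1 e d _ _ b1 b2 (c7 s f1) (bK k b3) b5
      (fun _ => ⟨Or.inl ⟨b9, b10⟩, Or.inr ⟨b7, b8⟩⟩) f4 fun i ⟨n, k1, k2⟩ => (f2 n).2.1 k2 k1
    refine b4 ⟨_, bO _ B (c7 s f1) e3, f4.map2 e4 _, g1 _ _ _ inter_subset_left
      (g3 _ _ f9 (g4 e0 f5 f6 ((b6.ev hG.f f6).symm ▸ f8 0) f7)) e5, fun i k => ?_⟩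
    obtain ⟨n, k1⟩ := f3 i.1 i.2
    by_cases k2 : (s n).2
    exacts [Or.inl ⟨n, k1, k2⟩, Or.inr ((f2 n).2.2 k2 ⟨⟨k1, k.1⟩, k.2⟩)]
  have hz := (p5 _ _).2 ⟨hw, z1⟩
  obtain ⟨e, d, k, b1, b2, b3, b4, b5, b6, b7, b8, b9, b10⟩ := K1 _ (i5 G hG _ hz)
    ⟨fun d e f _ _ _ k ⟨e0, b1, b2, b3, b4⟩ ⟨f0, b5, b6, b7, b8⟩ =>
      ⟨_, bO e0 f0 b1 b5, b2.map2 b6 _, g1 _ _ _ inter_subset_left b3 b7, fun m k1 k2 => by
        refine Or.imp (b4 m k1) (b8 m k1) ?_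
        rcases k2 with ⟨k2, k3⟩ | ⟨k2, k3⟩
        · exact (k (a := ⟨_, c5 z z1 m⟩) k3).imp (fun k => Or.inl ⟨k2, k⟩) fun k => Or.inl ⟨k2, k⟩
        by_contra k4
        simp only [Hi, not_or, not_and, not_forall, not_exists] at k4
        obtain ⟨γ, k5, k6⟩ := k4.1.2 k2
        obtain ⟨γ', k7, k8⟩ := k4.2.2 k2
        obtain ⟨j, k9, k10, k11, k12⟩ := k3 (max γ γ') (by
          rcases max_choice γ γ' with h | h <;> rwa [h])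
        exact (k (a := ⟨j, k9⟩) k12).elim (k6 j k9 ((le_max_left _ _).trans_lt k10) k11)
          (k8 j k9 ((le_max_right _ _).trans_lt k10) k11)⟩,
      _, bC False, lev_cst _, g2, fun m _ k => k.elim And.right fun k =>
        let ⟨_, _, _, _, k⟩ := k.2 δ d1; k⟩
    fun ⟨B, b1, b2, b3, b4⟩ => z2 ⟨B, b1, b2, b3, fun m k => b4 m k ((lt_or_ge (z m).1 δ).imp
      (fun k' => ⟨k', k⟩) fun k' => ⟨k', fun γ hγ => by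
        obtain ⟨ξ, -, e4⟩ := lf G hG (z m) δ γ (c5 z z1 m) d1 hγ k'
        obtain ⟨j, e5, -, e6, e7, -⟩ := e4 True
        exact ⟨j, e5, e6, e7, e7.ev hG.f lH ▸ k⟩⟩)⟩
  obtain ⟨y, y1, y2⟩ := ic G hG ((w, z), d, k) ((p8 _ _).2 ⟨hz, (p7 _ _).2 ⟨b2, b3⟩⟩) fun m => by
    by_cases k0 : H.ev G (z m) ∧ Hi δ (z m) d N G
    · rcases k0 with ⟨k0, ⟨k1, k2⟩ | ⟨-, k2⟩⟩
      · exact ⟨_, c5 z z1 m, Or.inl ⟨k2, k0, Or.inl k1, Or.inl rfl⟩⟩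
      · obtain ⟨j, k3, k4, k5, k6⟩ := k2 k.1 ((cp k).1 b3)
        exact ⟨j, k3, Or.inl ⟨k6, k5.ev hG.f lH ▸ k0, Or.inr k4, Or.inr k5⟩⟩
    · exact ⟨k, b3, Or.inr ⟨rfl, k0⟩⟩
  have k0 : ((e.ev G k ∧ c.ev G k) ∨ (d.ev G k ∧ H.ev G k)) ∧ (k.1 < δ ∨ (Lev k e ∧ Lev k d)) :=
    ⟨Or.inl ⟨b9, b10⟩, Or.inr ⟨b7, b8⟩⟩
  obtain ⟨e0, f5, f6, f7, f8, -⟩ := R1 e d _ _ b1 b2 (bC False) (c8 k y b3 y1) b5 (by
    rintro (_ | m)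
    · exact k0
    rcases y2 m with ⟨k1, k2, k3, -⟩ | ⟨k1, -⟩
    · exact ⟨Or.inr ⟨k1, k2⟩, k3.imp_right fun k => ⟨b7.le (le_of_lt k), b8.le (le_of_lt k)⟩⟩
    · exact (show y m = k from k1) ▸ k0) (lev_cst _) fun _ k => k.elim
  refine b4 ⟨e0, f5, f6, g4 e0 f5 f6 ((b6.ev hG.f f6).symm ▸ f8 0) f7, fun m k1 k2 => ?_⟩
  have k3 : e0.ev G (y m) := f8 (m + 1)
  rcases y2 m with ⟨-, -, -, k4 | k4⟩ | ⟨-, k4⟩
  exacts [k4 ▸ k3, (k4.ev hG.f f6).symm ▸ k3, (k4 ⟨k1, k2⟩).elim]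

end Pool.Agent.Lib.MP_d63cb0_gt.H15
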