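import Pool.Agent.Lib.MP_d63cb0_gt.H15.Spec

/-!
Limits along ultrafilters and separation of coded sets by an algebra.
-/

namespace Pool.Agent.Lib.MP_d63cb0_gt.H15

open Pool.Agent.Lib.MP_fecf72_lc Set Filter Topology

theorem club_uf : ∀ᶠ N in Club, ∀ G q, Ult N G q → ∃ U : Ultrafilter (X N),
    ∀ d : Cp, In N d → (q d ↔ st N G d ∈ U) := by
  filter_upwards [club_bool] with N ⟨bA, _, bN, bC, _⟩ G q hq
  let F : Filter (X N) :=
    { sets := {s | ∃ d : Cp, In N d ∧ q d ∧ st N G d ⊆ s}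
      univ_sets := ⟨_, bC True, (hq.or _ _ (bC True) (bC True)
        (eq_univ_of_forall fun _ => Or.inl trivial)).elim id id, subset_univ _⟩
      sets_of_superset := fun ⟨d, a, b, c⟩ k => ⟨d, a, b, c.trans k⟩
      inter_sets := fun ⟨d, a, b, c⟩ ⟨e, a', b', c'⟩ => ⟨_, bA d e a a',
        hq.up d e _ a a' (bA d e a a') subset_rfl b b', inter_subset_inter c c'⟩ }
  have : F.NeBot := forall_mem_nonempty_iff_neBot.1 fun s ⟨d, a, b, c⟩ => (hq.ne d a b).mono c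
  refine ⟨Ultrafilter.of F, fun d a => ⟨fun k => Ultrafilter.of_le F ⟨d, a, k, subset_rfl⟩,
    fun k => (hq.or d _ a (bN d a) (union_compl_self _)).resolve_right fun k' => ?_⟩⟩
  exact Ultrafilter.compl_mem_iff_notMem.1 (Ultrafilter.of_le F ⟨_, bN d a, k', subset_rfl⟩) k

theorem club_hom : ∀ᶠ N in Club, ∀ G, GG N Le G → ∀ π, In N π →
    Rn (AM N G π) {r | realC r ∈ Mod N G} → ∀ q : Cp → Prop, Int N G q →
    ∀ U : Ultrafilter (X N), (∀ d : Cp, In N d → (q d ↔ st N G d ∈ U)) →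
    (∀ a ∈ AM N G π, ∃ r, Tendsto a U (𝓝 r)) →
    ∃ h : Hom (Mod N G) (SX N G) (AM N G π), ∀ a ∈ AM N G π, Tendsto a U (𝓝 (h.1 a)) := by
  classical
  have t1 := Tm.img le_tp fo (ι := (Cp → Set Cn) × Cd ℝ) (κ := ℚ)
    (Θ := fun a s _ G => ∃ s' : ℚ, s < s' ∧ Hd G (a.1 (a.2.map fun t => (s' : ℝ) < t)))
    (s := fun _ s _ _ => natC (Encodable.encode s))
    (Fc.exc fo (Θ := fun (z : ((Cp → Set Cn) × Cd ℝ) × ℚ) (s' : ℚ) _ G =>
      z.2 < s' ∧ Hd G (z.1.1 (z.1.2.map fun t => (s' : ℝ) < t))) ((Fc.ground _).and (Fc.hd _)))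
    (Tm.nat le_tp fo _)
  have t2 := tm_gr (ι := Nm Cn × (Cp → Set Cn)) (π := fun a => a.1) (Θ := fun a w _ G =>
    ∀ n : ℕ, Hd G (a.2 (w.1.map fun t => |t - w.2| < 1 / (n + 1))))
    (Fc.allc fo (Θ := fun (z : (Nm Cn × (Cp → Set Cn)) × Cd ℝ × ℝ) (n : ℕ) _ G =>
      Hd G (z.1.2 (z.2.1.map fun t => |t - z.2.2| < 1 / (n + 1)))) (Fc.hd _))
  filter_upwards [club_gr, club_real le_tp fo sc, t1.mod, t2.mod, clo_ctbl ℚ,
    clo_pair (Cp → Set Cn) (Cd ℝ), clo_pair (Nm Cn) (Cp → Set Cn),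
    club_all fun q : ℚ => clo1 fun F : Cd ℝ => F.map fun t : ℝ => q < t,
    clo2n fun (F : Cd ℝ) (r : ℝ) (n : ℕ) => F.map fun t => |t - r| < 1 / (n + 1)]
    with N h1 re h2 h3 cQ p1 p2 c1 c2 G hG π hπ hA q ⟨b, hb, hq⟩ U hU hl
  choose! l hl using hl
  let h : (X N → ℝ) → ℝ := fun a => if a ∈ AM N G π then l a else 0
  have e1 : ∀ a ∈ AM N G π, Tendsto a U (𝓝 (h a)) := fun a k => by
    simpa only [h, if_pos k] using hl a k
  have e2 : ∀ F : Cd ℝ, In N F → fn N G F ∈ AM N G π → In N (h (fn N G F)) := fun F k k' => by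
    refine (re G hG _).1 ?_
    convert h2 G hG (b, F) ((p1 _ _).2 ⟨hb, k⟩) using 1
    refine congrArg (img · _) (Set.ext fun s => ⟨fun a => ?_, fun ⟨_, s', a1, a2⟩ => ?_⟩)
    · obtain ⟨s', a1, a2⟩ := exists_rat_btwn (show (s : ℝ) < h (fn N G F) from a)
      exact ⟨cQ s, s', by exact_mod_cast a1, (hq _ (c1 s' F k)).1 ((hU _ (c1 s' F k)).2
        ((e1 _ k').eventually (lt_mem_nhds a2)))⟩
    · exact lt_of_lt_of_le (by exact_mod_cast a1) (ge_of_tendsto (e1 _ k') (mem_of_superset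
        ((hU _ (c1 s' F k)).1 ((hq _ (c1 s' F k)).2 a2)) fun _ a => le_of_lt a))
  have e3 := h1 G π (fun w => ∀ n : ℕ, Hd G (b (w.1.map fun t => |t - w.2| < 1 / (n + 1)))) h
    fun F k k' => ⟨e2 F k k', fun r k1 => ⟨fun a => tendsto_nhds_unique (e1 _ k')
      (Metric.tendsto_nhds.2 fun ε hε => let ⟨n, hn⟩ := exists_nat_one_div_lt hε
        mem_of_superset ((hU _ (c2 F r k k1 n)).1 ((hq _ (c2 F r k k1 n)).2 (a n)))
          fun _ c => lt_trans c hn), fun a n => (hq _ (c2 F r k k1 n)).1 ((hU _ (c2 F r k k1 n)).2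
      (a ▸ Metric.tendsto_nhds.1 (e1 _ k') _ Nat.one_div_pos_of_nat))⟩⟩
  refine ⟨⟨h, e3 ▸ h3 G hG (π, b) ((p2 _ _).2 ⟨hπ, hb⟩), ⟨fun f k g k' =>
    ⟨tendsto_nhds_unique (e1 _ (hA.add f k g k')) ((e1 f k).add (e1 g k')),
      tendsto_nhds_unique (e1 _ (hA.mul f k g k')) ((e1 f k).mul (e1 g k'))⟩,
    fun r k => tendsto_nhds_unique (e1 _ (hA.const r k)) tendsto_const_nhds, fun f k => ?_⟩,
    fun f k => if_neg k⟩, e1⟩
  obtain ⟨F, k1, rfl⟩ := k.1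
  exact (re G hG _).2 (e2 F k1 k)

theorem fc_sep : Fc Le fun (z : Nm Cn × Cp × Cp) N G =>
    Sepa (AM N G z.1) (st N G z.2.1) (st N G z.2.2) :=
  (Fc.ex fo (Θ := fun (z : Nm Cn × Cp × Cp) (F : Cd ℝ) N G => (SX N G).fC (fn N G F) ∈ val N G z.1 ∧
    st N G z.2.1 ⊆ st N G (F.map fun t => t = 1) ∧ st N G z.2.2 ⊆ st N G (F.map fun t => t = 0))
    ((fc_am.comap fun v : (Nm Cn × Cp × Cp) × Cd ℝ => (v.1.1, v.2)).and
      ((fc_sub.comap fun v : (Nm Cn × Cp × Cp) × Cd ℝ => (v.1.2.1, v.2.map fun t => t = 1)).and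
        (fc_sub.comap fun v : (Nm Cn × Cp × Cp) × Cd ℝ => (v.1.2.2, v.2.map fun t => t = 0))))).congr
    (Eventually.of_forall fun _ _ _ _ _ => ⟨fun ⟨_, ⟨⟨F, a, rfl⟩, b⟩, c⟩ => ⟨F, a, b, c⟩,
      fun ⟨F, a, b, c⟩ => ⟨_, ⟨⟨F, a, rfl⟩, b⟩, c⟩⟩)

theorem club_kc : ∀ᶠ N in Club, ∀ G, GG N Le G → ∀ π, In N π →
    IsALG (Mod N G) (SX N G) (AM N G π) → ∀ c H : Cp, In N c → In N H →
    (∀ i : P, In N i → c.ev G i → ¬ H.ev G i) →
    (∀ h : Hom (Mod N G) (SX N G) (AM N G π),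
      (∀ w ∈ AM N G π, h.1 w ≠ 0 → ∃ x ∈ st N G H, w x ≠ 0) →
      ∃ w ∈ AM N G π, h.1 w ≠ 0 ∧ ∀ x ∈ st N G c, w x = 0) →
    ∃ v ∈ AM N G π, ∀ x, 0 ≤ v x ∧ (x ∈ st N G H → v x = 0) ∧ (x ∈ st N G c → 0 < v x) := by
  filter_upwards [club_main (Sep := fun π N G => Sepa (AM N G π)) fc_sep, club_al, club_uf,
    club_hom, club_C, club_bool, club_zfc le_tp fo, club_base, club_val ℝ, club_real le_tp fo sc,
    club_all fun q : ℚ => clo1 fun F : Cd ℝ => F.map fun t : ℝ => t ≤ q,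
    club_all fun q : ℚ => clo1 fun F : Cd ℝ => F.map fun t : ℝ => q ≤ t,
    clo1 fun (F : Cd ℝ) (n : ℕ) => ((F.map fun t : ℝ => 2 * ((1 / (n + 1) : ℚ) : ℝ) ≤ t),
      F.map fun t : ℝ => t ≤ (1 / (n + 1) : ℚ)),
    clo2 fun (c d : Cp) (_ : ℕ) => (c, d), clo1 fun s : ℕ → Cd ℝ => Cd.mapn sm s,
    clo1n fun (s : ℕ → Cd ℝ) n => s n,
    clo_pair Cp (ℕ → Cp), clo_pair (Nm Cn) (Cp × (ℕ → Cp)),
    icc fo sc (Θ := fun (a : Nm Cn × Cp × (ℕ → Cp)) n (F : Cd ℝ) N G =>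
      (SX N G).fC (fn N G F) ∈ val N G a.1 ∧ st N G (a.2.2 n) ⊆ st N G (F.map fun t => t = 1) ∧
        st N G a.2.1 ⊆ st N G (F.map fun t => t = 0))
      ((fc_am.comap fun v : (Nm Cn × Cp × (ℕ → Cp)) × ℕ × Cd ℝ => (v.1.1, v.2.2)).and
        ((fc_sub.comap fun v : (Nm Cn × Cp × (ℕ → Cp)) × ℕ × Cd ℝ =>
          (v.1.2.2 v.2.1, v.2.2.map fun t => t = 1)).and
          (fc_sub.comap fun v : (Nm Cn × Cp × (ℕ → Cp)) × ℕ × Cd ℝ =>
            (v.1.2.1, v.2.2.map fun t => t = 0))))]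
    with N mn al uf hm hC bo zf hB vl re c1 c2 c3 c4 c5 c6 p1 p2 ic G hG π hπ hA c H hc hH dj hy
  have hL : Al (X := X N) _ (AM N G π) _ := (al G hG _ hA).1
  have hR := hL.toRn
  obtain ⟨s, a1, a2, a3⟩ := mn G hG π hπ c H hc hH
    (fun _ _ _ _ k k' ⟨u, b1, b2, b3⟩ => ⟨u, b1, fun x a => b2 x (k a), fun x a => b3 x (k' a)⟩)
    (fun _ _ _ _ ⟨u, b1, b2, b3⟩ ⟨v, b4, b5, b6⟩ => ⟨_, hR.mul u b1 v b4,
      fun x a => by simp [b2 x a.1, b5 x a.2],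
      fun x a => mul_eq_zero.2 (a.imp (b3 x) (b6 x))⟩)
    ⟨_, hR.one, fun _ _ => rfl, fun _ a => a.elim⟩ ⟨_, hR.zero, fun _ a => a.elim, fun _ _ => rfl⟩
    dj (fun i hi => by
      obtain ⟨f, b1, b2⟩ := hA.sep _ (gen_base (zf G hG) (hB G hG) ⟨_, bo.2.2.1 H hH, rfl⟩) i
        (dj i.1 i.2 hi)
      simp only [Metric.mem_closure_iff, not_forall, not_exists, not_and, not_lt] at b2
      obtain ⟨ε, b2, b3⟩ := b2
      have b4 := hR.sub b1 (hR.const (f i) (by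
        obtain ⟨F, b, rfl⟩ := b1.1
        exact (re G hG _).2 (vl G hG F i.1 b i.2)))
      have b5 := hR.mul _ b4 _ b4
      obtain ⟨W, b6, b7⟩ := b5.1
      obtain ⟨α, b8, b9⟩ := exists_rat_btwn (mul_pos b2 b2)
      obtain ⟨u, b10, b11, b12⟩ := hR.symm (hL.trunc b5 b9)
      refine ⟨_, c1 α W b6, (congrFun b7 i).trans_le (by simpa using b8.le), u, b10,
        fun x a => b11 x ((congrFun b7 x).symm.trans_le a), fun x a => b12 x ?_⟩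
      have := b3 _ ⟨x, fun k => k a, rfl⟩
      rw [Real.dist_eq, abs_sub_comm] at this
      exact (mul_self_le_mul_self b2.le this).trans_eq (abs_mul_abs_self _))
    fun q b1 b2 b3 => by
      obtain ⟨U, hU⟩ := uf G q b2
      by_cases k : ∃ w ∈ AM N G π, (∀ x, 0 < w x) ∧ ∀ ε : ℚ, 0 < ε → {x | w x ≤ ε} ∈ U
      · obtain ⟨w, k1, k2, k3⟩ := k
        obtain ⟨F, k4, rfl⟩ := k1.1
        refine ⟨_, c3 F k4, fun i _ => ?_, fun n => ⟨(hU _ (c1 _ F k4)).2 (k3 _ (by positivity)),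
          hL.trunc k1 (lt_two_mul_self (by positivity))⟩⟩
        obtain ⟨n, hn⟩ := exists_nat_one_div_lt (half_pos (k2 i))
        refine ⟨n, show 2 * ((1 / (n + 1) : ℚ) : ℝ) ≤ fn N G F i from ?_⟩
        push_cast
        linarith
      obtain ⟨h, k1⟩ := hm G hG π hπ hR q b1 U hU fun a ha => by
        have k0 : ∀ x, 0 < 1 + a x ^ 2 := fun x => by positivity
        obtain ⟨ε, k1, k2⟩ : ∃ ε : ℚ, 0 < ε ∧ {x | 1 / (1 + a x ^ 2) ≤ ε} ∉ U := by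
          by_contra k'
          exact k ⟨_, hR.div hR.one (hR.sq ha) fun x => (k0 x).ne', fun x => one_div_pos.2 (k0 x),
            fun ε k1 => not_not.1 fun k2 => k' ⟨ε, k1, k2⟩⟩
        obtain ⟨r, -, k3⟩ := (isCompact_Icc (a := -(1 / ε : ℝ)) (b := 1 / ε)).ultrafilter_le_nhds
          (U.map a) (le_principal_iff.2 (mem_map.2 (mem_of_superset
            (Ultrafilter.compl_mem_iff_notMem.2 k2) fun x (k : ¬ 1 / (1 + a x ^ 2) ≤ (ε : ℝ)) => abs_le.1 (by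
              have := (lt_one_div (by exact_mod_cast k1) (k0 x)).1 (not_le.1 k)
              nlinarith [sq_nonneg (|a x| - 1), sq_abs (a x), abs_nonneg (a x)]))))
        exact ⟨r, k3⟩
      obtain ⟨w, k2, k3, k4⟩ := hy h fun w k2 k3 => Ultrafilter.nonempty_of_mem
        (inter_mem ((hU H hH).1 b3) ((k1 w k2).eventually_ne k3))
      have k5 := hR.mul _ k2 _ k2
      obtain ⟨W, k6, k7⟩ := k5.1
      obtain ⟨β, k8, k9⟩ := exists_rat_btwn (mul_self_pos.2 k3)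
      obtain ⟨u, k10, k11, k12⟩ := hR.symm (hL.trunc k5 k8)
      exact ⟨_, c4 c _ hc (c2 β W k6), fun i a => ⟨0, a⟩, fun _ => ⟨(hU _ (c2 β W k6)).2
        (mem_of_superset (((k1 w k2).mul (k1 w k2)).eventually (lt_mem_nhds k9)) fun x a =>
          (le_of_lt a).trans_eq (congrFun k7 x).symm), u, k10,
        fun x a => k11 x (show w x * w x ≤ 0 by simp [k4 x a]), fun x a => k12 x (le_of_le_of_eq a (congrFun k7 x))⟩⟩
  obtain ⟨F, b1, b2⟩ := ic G hG (π, H, s) ((p2 _ _).2 ⟨hπ, (p1 _ _).2 ⟨hH, a1⟩⟩) fun n =>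
    let ⟨_, ⟨⟨F, b1, rfl⟩, b2⟩, b3⟩ := a2 n; ⟨F, b1, b2, b3⟩
  refine ⟨_, hL.sm (u := fun n => fn N G (F n)) (fun n => ⟨⟨_, c6 F b1 n, rfl⟩, (b2 n).1⟩)
    ((hC G hG _).2 ⟨_, c5 F b1, rfl⟩), fun x => ⟨sm_nonneg _, fun k => ?_, fun k => ?_⟩⟩
  · have : ∀ n, fn N G (F n) x = 0 := fun n => (b2 n).2.2 k
    simp [sm, this]
  · obtain ⟨n, k'⟩ := a3 x k
    have : fn N G (F n) x = 1 := (b2 n).2.1 k'
    exact sm_pos (n := n) (this.trans_ne one_ne_zero)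

end Pool.Agent.Lib.MP_d63cb0_gt.H15
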