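import Pool.Agent.Lib.MP_d63cb0_gt.H15.Dens

/-!
The generic labels and their basic properties in the extension.
-/

namespace Pool.Agent.Lib.MP_d63cb0_gt.H15

open Pool.Agent.Lib.MP_fecf72_lc Set Filter

universe u

/-- Points. -/
abbrev P : Type := D

instance : Nonempty P := ⟨⟨d0, d0_mem⟩⟩

/-- The generic label of a point. -/
def x (G : Set Cn) (i : K) : Set K := {ξ | ∃ p ∈ G, i ∈ p.I ∧ ξ ∈ p.S ∧ ξ ∈ p.l i}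

variable {T T' T'' : Type}

/-- The value of a code at a point. -/
def Cd.ev (e : Cd T) (G : Set Cn) (i : P) : T := e.1 (x G i.1)

/-- Codes that only depend on coordinates below `δ`. -/
def Lev (δ : K) (e : Cd T) : Prop := Sup (Iio δ) e.1

/-- The filter says that two points agree below `δ`. -/
def Lf (G : Set Cn) (δ : K) (i k : P) : Prop :=
  Hd G {p | δ ∈ p.S ∧ i.1 ∈ p.I ∧ k.1 ∈ p.I ∧ Ag p δ i k}

/-- A countable support. -/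
noncomputable def Cd.sp (e : Cd T) : Set K := e.2.choose

theorem Cd.sp_c (e : Cd T) : e.sp.Countable := e.2.choose_spec.1

theorem Cd.sp_s (e : Cd T) : Sup e.sp e.1 := e.2.choose_spec.2

/-- Constant codes. -/
def Cd.cst (t : T) : Cd T := ⟨fun _ => t, ∅, countable_empty, fun _ _ _ => rfl⟩

instance [Nonempty T] : Nonempty (Cd T) := ⟨Cd.cst (Classical.arbitrary T)⟩

/-- Composition. -/
def Cd.map (f : T → T') (e : Cd T) : Cd T' :=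
  ⟨fun y => f (e.1 y), e.sp, e.sp_c, fun y y' h => congrArg f (e.sp_s y y' h)⟩

/-- Binary composition. -/
def Cd.map2 (f : T → T' → T'') (e : Cd T) (d : Cd T') : Cd T'' :=
  ⟨fun y => f (e.1 y) (d.1 y), e.sp ∪ d.sp, e.sp_c.union d.sp_c, fun y y' h =>
    congrArg₂ f (e.sp_s y y' (h.mono subset_union_left)) (d.sp_s y y' (h.mono subset_union_right))⟩

/-- Countable composition. -/
def Cd.mapn {ι : Type} [Countable ι] (f : (ι → T) → T') (e : ι → Cd T) : Cd T' :=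
  ⟨fun y => f fun n => (e n).1 y, ⋃ n, (e n).sp, countable_iUnion fun n => (e n).sp_c,
    fun y y' h => congrArg f (funext fun n =>
      (e n).sp_s y y' (h.mono (subset_iUnion (fun n => (e n).sp) n)))⟩

/-- A coordinate. -/
def Cd.crd (ξ : K) : Cp :=
  ⟨fun y => ξ ∈ y, {ξ}, countable_singleton _, fun _ _ h => propext (h ξ rfl)⟩

/-- The neighbourhood given by a condition. -/
def Cd.nb (q : Cn) (δ i : K) : Cp :=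
  ⟨fun y => Val q → Eqo (q.S ∩ Iio δ) y (q.l i), by
    by_cases h : Val q
    · exact ⟨_, h.cS, fun y y' k => propext (forall_congr' fun _ =>
        ⟨(k.symm.mono inter_subset_left).trans, (k.mono inter_subset_left).trans⟩)⟩
    · exact ⟨∅, countable_empty, fun y y' _ => by simp [h]⟩⟩

theorem lev_nb (q : Cn) (δ i : K) : Lev δ (Cd.nb q δ i) := fun _ _ k =>
  propext (forall_congr' fun _ =>
    ⟨(k.symm.mono inter_subset_right).trans, (k.mono inter_subset_right).trans⟩)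

variable {δ : K}

theorem Lev.map {e : Cd T} (h : Lev δ e) (f : T → T') : Lev δ (e.map f) :=
  fun y y' k => congrArg f (h y y' k)

theorem Lev.map2 {e : Cd T} {d : Cd T'} (h : Lev δ e) (h' : Lev δ d) (f : T → T' → T'') :
    Lev δ (e.map2 f d) := fun y y' k => congrArg₂ f (h y y' k) (h' y y' k)

theorem Lev.mapn {ι : Type} [Countable ι] {e : ι → Cd T} (h : ∀ n, Lev δ (e n))
    (f : (ι → T) → T') : Lev δ (Cd.mapn f e) :=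
  fun y y' k => congrArg f (funext fun n => h n y y' k)

theorem lev_cst (t : T) : Lev δ (Cd.cst t) := fun _ _ _ => rfl

theorem Lev.le {e : Cd T} (h : Lev δ e) {γ : K} (k : δ ≤ γ) : Lev γ e :=
  Sup.mono h (Iio_subset_Iio k)

theorem lev_crd {ξ : K} (h : ξ < δ) : Lev δ (Cd.crd ξ) := fun _ _ k => propext (k ξ h)

theorem ex_lev (s : ℕ → Cd T) : ∃ γ, ∀ n, Lev γ (s n) :=
  let ⟨γ, _, h⟩ := (bdd2 _ (ctbl_le (countable_iUnion fun n => (s n).sp_c))).1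
  ⟨γ, fun n => (s n).sp_s.mono fun ξ a => h ξ (mem_iUnion.2 ⟨n, a⟩)⟩

variable {G : Set Cn} {p q : Cn}

theorem val_of (hG : IsF Le G) (hp : p ∈ G) : Val p := (hG.self fo hp).vq

theorem x_eq (hG : IsF Le G) (hp : p ∈ G) {i : K} (hi : i ∈ p.I) : Eqo p.S (x G i) (p.l i) := by
  refine fun ξ hξ => ⟨fun ⟨q, a1, a2, a3, a4⟩ => ?_, fun a => ⟨p, hp, hi, hξ, a⟩⟩
  obtain ⟨r, -, b1, b2⟩ := hG.2 p hp q a1
  exact (b1.l i hi ξ hξ).1 ((b2.l i a2 ξ a3).2 a4)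

theorem ev_eq (hG : IsF Le G) (hp : p ∈ G) {i : P} (hi : i.1 ∈ p.I) {e : Cd T} (h : Sup p.S e.1) :
    e.ev G i = e.1 (p.l i) := h _ _ (x_eq hG hp hi)

theorem x_tr (hG : IsF Le G) (hp : p ∈ G) (hq : q ∈ G) {j : K} (hj : j ∈ q.I) :
    ∃ i ∈ p.I, Eqo p.S (x G j) (p.l i) := by
  obtain ⟨r, a, b1, b2⟩ := hG.2 p hp q hq
  obtain ⟨i, c1, c2⟩ := b1.o3 j (b2.I hj)
  exact ⟨i, c1, ((x_eq hG a (b2.I hj)).mono b1.S).trans c2⟩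

theorem Lf.eqo (hG : IsF Le G) {i k : P} (h : Lf G δ i k) : Eqo (Iio δ) (x G i) (x G k) := by
  obtain ⟨p, a0, a1, a2, a3, a4⟩ := h
  have key : ∀ i ∈ p.I, ∀ k ∈ p.I, Ag p δ i k → ∀ ξ < δ, ξ ∈ x G i → ξ ∈ x G k := by
    rintro i a2 k a3 a4 ξ b ⟨q, c1, c2, c3, c4⟩
    obtain ⟨r, d0, d1, d2⟩ := hG.2 p a0 q c1
    exact ⟨r, d0, d1.I a3, d2.S c3, (d1.o2 i a2 k a3 δ a1 a4 ξ ⟨d2.S c3, b⟩).1
      ((d2.l i c2 ξ c3).2 c4)⟩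
  exact fun ξ b => ⟨key _ a2 _ a3 a4 ξ b, key _ a3 _ a2 a4.symm ξ b⟩

theorem Lf.ev (hG : IsF Le G) {i k : P} (h : Lf G δ i k) {e : Cd T} (he : Lev δ e) :
    e.ev G i = e.ev G k := he _ _ (h.eqo hG)

theorem Fb.hd (hG : IsF Le G) (hp : p ∈ G) {b : Set Cn} (h : Fb b p) : Hd G b :=
  let ⟨s, a1, a2⟩ := h; ⟨s, hG.1 p hp s a2, a1⟩

theorem club_cov {A : Type u} [Srt A] (Z : A → Set K) (hZ : ∀ a, (Z a).Countable) :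
    ∀ᶠ N in Club, ∀ G, GG N Le G → ∀ a, In N a → ∀ p ∈ G, ∃ q ∈ G, Le q p ∧ Z a ⊆ q.S := by
  filter_upwards [clo1 fun a => {p : Cn | Z a ⊆ p.S}] with N h G hG a ha p hp
  obtain ⟨d, a1, a2, -⟩ := hG.g _ (h a ha) fun p hp =>
    let ⟨q, b1, b2, _⟩ := ext hp.vq (hZ a); ⟨q, b2, b1⟩
  obtain ⟨r, b0, b1, b2⟩ := hG.f.2 p hp d a2
  exact ⟨r, b0, b1, Subset.trans a1 b2.S⟩

theorem club_in {A : Type u} [Srt A] (Q : A → Cn → Prop) : ∀ᶠ N in Club, ∀ G, GG N Le G →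
    ∀ a, In N a → (∃ p ∈ G, Q a p) → ∃ p ∈ G, In N p ∧ Q a p := by
  filter_upwards [club_wit1 fo fun a s (t : Cn) => t = s ∧ Q a s] with N h G hG a ha ⟨p, a1, a2⟩
  obtain ⟨s, b1, _, b2, rfl, b3⟩ := h G hG a ha ⟨p, a1, p, rfl, a2⟩
  exact ⟨_, b1, b2, b3⟩

theorem club_pt : ∀ᶠ N in Club, ∀ i : P, In N i ↔ In N i.1 := by
  filter_upwards [clo1 fun i : P => i.1, sk1 fun (k : K) (i : P) => i.1 = k] with N h1 h2 i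
  exact ⟨h1 i, fun h => let ⟨_, a, b⟩ := h2 _ h ⟨i, rfl⟩; Subtype.ext b ▸ a⟩

theorem club_I : ∀ᶠ N in Club, ∀ p : Cn, In N p → Val p → ∀ i : P, i.1 ∈ p.I → In N i := by
  filter_upwards [club_pt, clo_sub (fun p : Cn => {i | Val p ∧ i ∈ p.I}) fun p => by
    by_cases h : Val p
    · exact h.cI.mono fun _ a => a.2
    · simp [h]] with N h1 h2 p a b i c using (h1 i).2 (h2 p a i.1 ⟨b, c⟩)

theorem club_p1 : ∀ᶠ N in Club, ∀ G, GG N Le G → ∀ i : P, In N i → ∀ p ∈ G,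
    ∃ q ∈ G, Le q p ∧ i.1 ∈ q.S ∧ i.1 ∈ q.I := by
  filter_upwards [club_cov (fun i : P => {i.1}) fun _ => countable_singleton _]
    with N h G hG i a p b
  obtain ⟨q, c1, c2, c3⟩ := h G hG i a p b
  exact ⟨q, c1, c2, c3 rfl, c2.vq.sI _ (c3 rfl) i.2⟩

theorem club_p2 (T : Type) : ∀ᶠ N in Club, ∀ G, GG N Le G → ∀ e : Cd T, In N e → ∀ p ∈ G,
    ∃ q ∈ G, Le q p ∧ Sup q.S e.1 := by
  filter_upwards [club_cov (fun e : Cd T => e.sp) Cd.sp_c] with N h G hG e a p b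
  obtain ⟨q, c1, c2, c3⟩ := h G hG e a p b
  exact ⟨q, c1, c2, e.sp_s.mono c3⟩

theorem club_p3 : ∀ᶠ N in Club, ∀ G, GG N Le G → ∀ δ : K, In N δ → ∀ p ∈ G,
    ∃ q ∈ G, Le q p ∧ δ ∈ q.S := by
  filter_upwards [club_cov (fun i : K => {i}) fun _ => countable_singleton _]
    with N h G hG i a p b
  obtain ⟨q, c1, c2, c3⟩ := h G hG i a p b
  exact ⟨q, c1, c2, c3 rfl⟩

theorem fc_ev : Fc Le fun (z : Cp × P) _ G => z.1.ev G z.2 := by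
  refine ⟨fun z => {p | z.2.1 ∈ p.I ∧ Sup p.S z.1.1 ∧ z.1.1 (p.l z.2)}, ?_⟩
  filter_upwards [club_ne, club_p1, club_p2 Prop, clo_pair Cp P] with N ne h1 h2 h3 G hG ⟨e, i⟩ a
  obtain ⟨p, b⟩ := ne G hG
  obtain ⟨q, c1, -, -, c3⟩ := h1 G hG i ((h3 _ _).1 a).2 p b
  obtain ⟨r, d1, d2, d3⟩ := h2 G hG e ((h3 _ _).1 a).1 q c1
  exact ⟨fun k => ⟨r, d1, d2.I c3, d3, ev_eq hG.f d1 (d2.I c3) d3 ▸ k⟩,
    fun ⟨s, k1, k2, k3, k4⟩ => (ev_eq hG.f k1 k2 k3).symm ▸ k4⟩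

theorem club_rs : ∀ᶠ N in Club, ∀ G, GG N Le G → ∀ i : P, In N i →
    i.1 ∈ x G i ∧ ∀ j : P, i.1 ∈ x G j → j ≤ i := by
  filter_upwards [club_ne, club_p1] with N ne h1 G hG i a
  obtain ⟨p, b⟩ := ne G hG
  obtain ⟨q, c1, c2, c3, c4⟩ := h1 G hG i a p b
  exact ⟨⟨q, c1, c4, c3, c2.vq.self _ c3 i.2⟩, fun j ⟨r, d1, d2, d3, d4⟩ =>
    (val_of hG.f d1).rs _ d3 i.2 _ d2 d4⟩

theorem club_lift : ∀ᶠ N in Club, ∀ G, GG N Le G → ∀ (i : P) (δ γ : K), In N i → In N δ → In N γ →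
    δ ≤ i.1 → ∃ ξ : K, In N ξ ∧ ∀ b : Prop, ∃ k : P, In N k ∧ ξ < k.1 ∧ γ < k.1 ∧ Lf G δ i k ∧
      (ξ ∈ x G k ↔ b) := by
  filter_upwards [club_ne, club_p1, club_p3, clo_pair P K, clo_pair (P × K) K, clo1 fun z : K × (Prop → P) => z.1,
    clo3 fun (z : K × (Prop → P)) (_ : K) (b : Prop) => z.2 b,
    club_wit2 fo fun (a : (P × K) × K) q (z : K × (Prop → P)) => z.1 ∈ q.S ∧ a.2 ∈ q.S ∧
      a.1.2 ∈ q.S ∧ a.1.1.1 ∈ q.I ∧ ∀ b, Top q (z.2 b) ∧ (z.1 ∈ q.l (z.2 b) ↔ b) ∧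
        Ag q a.1.2 a.1.1 (z.2 b)] with N ne h1 h3 p1 p2 c1 c2 w G hG i δ γ a1 a2 a3 a4
  obtain ⟨p, b⟩ := ne G hG
  obtain ⟨p1', b1, -, -, b2⟩ := h1 G hG i a1 p b
  obtain ⟨p2', b3, b4, b5⟩ := h3 G hG δ a2 _ b1
  obtain ⟨q, d1, z, d2, d3, d4, d5, d6, d7⟩ := w G hG ((i, δ), γ)
    ((p2 _ _).2 ⟨(p1 _ _).2 ⟨a1, a2⟩, a3⟩) ⟨_, b3, fun r hr => by
      obtain ⟨q, e1, e2, ξ, e3, e4⟩ := ext hr.vq (countable_singleton γ)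
      have e5 := hr.I (b4.I b2)
      obtain ⟨t, e6, e7⟩ := hr.vq.up _ e5
      choose u e8 e9 e10 using e4 t e6
      exact ⟨q, (ξ, fun b => ⟨u b, e1.vq.iD (e8 b).1⟩), e1, e3, e2 rfl, e1.S (hr.S b5), e1.I e5,
        fun b => ⟨e8 b, e9 b, Eqo.trans (e1.o2 _ e5 t e6.1 δ (hr.S b5) (e7.mono
          (inter_subset_inter_right _ (Iio_subset_Iio a4)))) (e10 b δ (hr.S b5))⟩⟩⟩
  exact ⟨z.1, c1 z d2, fun b => ⟨z.2 b, c2 z δ b d2 a2, (d7 b).1.2 _ d3, (d7 b).1.2 _ d4,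
    ⟨q, d1, d5, d6, (d7 b).1.1, (d7 b).2.2⟩, (x_eq hG.f d1 (d7 b).1.1 _ d3).trans (d7 b).2.1⟩⟩

theorem club_dense : ∀ᶠ N in Club, ∀ G, GG N Le G → ∀ (e : Cp) (i : P), In N e → In N i →
    e.ev G i → ∃ k : P, In N k ∧ k.1 < om ∧ e.ev G k := by
  filter_upwards [club_ne, club_p1, club_p2 Prop, club_wit2 fo fun (e : Cp) q (k : P) =>
    Sup q.S e.1 ∧ k.1 ∈ q.I ∧ k.1 < om ∧ e.1 (q.l k)] with N ne h1 h2 w G hG e i a1 a2 a3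
  obtain ⟨p, b⟩ := ne G hG
  obtain ⟨p1, b1, -, -, b2⟩ := h1 G hG i a2 p b
  obtain ⟨p2, b3, b4, b5⟩ := h2 G hG e a1 _ b1
  have b6 := b4.I b2
  obtain ⟨q, d1, k, d2, d3, d4, d5, d6⟩ := w G hG e a1 ⟨_, b3, fun r hr => by
    obtain ⟨q, e1, k, e2, e3, e4⟩ := ext1 hr.vq (hr.I b6)
    exact ⟨q, ⟨k, e1.vq.iD e2⟩, e1, b5.mono (hr.S.trans e1.S), e2, e3, b5.imp
      ((e4.mono hr.S).trans (hr.l _ b6)).symm (ev_eq hG.f b3 b6 b5 ▸ a3)⟩⟩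
  exact ⟨k, d2, d5, (ev_eq hG.f d1 d4 d3).symm ▸ d6⟩

theorem club_lin (T : Type) [Nonempty T] : ∀ᶠ N in Club, ∀ G, GG N Le G →
    ∀ Q : Cp × T → Prop, Int N G Q → ∀ δ : K, In N δ →
    (∀ i : P, In N i → ∃ w : Cp × T, In N w ∧ Lev δ w.1 ∧ w.1.ev G i ∧ Q w) →
    ∃ s : ℕ → Cp × T, In N s ∧ (∀ n, Lev δ (s n).1 ∧ Q (s n)) ∧
      ∀ i : P, In N i → ∃ n, (s n).1.ev G i := by
  filter_upwards [club_ne, club_p1, club_p2 Prop, clo_pair (Cp × T → Set Cn) K,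
    clo_pair P (ℕ → Cp × T), clo1n fun (s : ℕ → Cp × T) n => s n, clo1 fun w : Cp × T => w.1,
    club_wit2 fo fun (a : (Cp × T → Set Cn) × K) q (z : P × (ℕ → Cp × T)) =>
      ((∀ n, Gd a.1 a.2 q (z.2 n)) ∧ ∀ u ∈ q.I, ∃ n, (z.2 n).1.1 (q.l u)) ∨
      (z.1.1 ∈ q.I ∧ ∀ r w, Le r q → Gd a.1 a.2 r w → ¬ w.1.1 (r.l z.1))]
    with N ne h1 h2 p1 p2 c1 c2 w G hG Q ⟨b, hb, hQ⟩ δ a1 a2
  obtain ⟨p, b0⟩ := ne G hG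
  obtain ⟨q, d1, ⟨i, s⟩, d2, ⟨d3, d4⟩ | ⟨d3, d4⟩⟩ := w G hG (b, δ) ((p1 _ _).2 ⟨hb, a1⟩)
    ⟨p, b0, fun r hr => by
      by_cases k : ∀ p, Le p r → ∀ i ∈ p.I, ∃ q w, Le q p ∧ Gd b δ q w ∧ w.1.1 (q.l i)
      · obtain ⟨q, s, e1, e2⟩ := glin b δ hr.vq k
        exact ⟨q, (Classical.arbitrary _, s), e1, Or.inl e2⟩
      · simp only [not_forall, not_exists, not_and] at k
        obtain ⟨q, e1, i, e2, e3⟩ := k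
        exact ⟨q, (⟨i, e1.vq.iD e2⟩, Classical.arbitrary _), e1, Or.inr ⟨e2, e3⟩⟩⟩
  · have d5 := ((p2 _ _).1 d2).2
    refine ⟨s, d5, fun n => ⟨(d3 n).2.1, (hQ _ (c1 s d5 n)).2 ((d3 n).2.2.hd hG.f d1)⟩,
      fun j hj => ?_⟩
    obtain ⟨r, e1, -, -, e2⟩ := h1 G hG j hj p b0
    obtain ⟨u, e3, e4⟩ := x_tr hG.f d1 e1 e2
    obtain ⟨n, e5⟩ := d4 u e3
    exact ⟨n, (d3 n).1.imp e4.symm e5⟩
  · obtain ⟨v, e1, e2, e3, e4⟩ := a2 i ((p2 _ _).1 d2).1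
    obtain ⟨s', e5, e6⟩ := (hQ v e1).1 e4
    obtain ⟨r, e7, e8, e9⟩ := hG.f.2 q d1 s' e5
    obtain ⟨r', f1, f2, f3⟩ := h2 G hG v.1 (c2 v e1) r e7
    exact (d4 r' v (f2.trans e8) ⟨f3, e2, s', e6, f2.trans e9⟩
      (ev_eq hG.f f1 ((f2.trans e8).I d3) f3 ▸ e3)).elim

theorem club_split : ∀ᶠ N in Club, ∀ G, GG N Le G → ∀ (e : Cp) (δ : K), In N e → In N δ →
    om ≤ δ → ∃ z : ℕ → P, In N z ∧ ∀ i : P, In N i → (∃ m, Lf G δ i (z m)) ∨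
      ∃ e0 : Cp, In N e0 ∧ Lev δ e0 ∧ e0.ev G i ∧
        ∀ j : P, In N j → e0.ev G j → (e.ev G j ↔ e.ev G i) := by
  filter_upwards [club_ne, club_p1, club_p2 Prop, club_p3, club_pt, clo_pair Cp K, clo_pair Cn P,
    club_in fun (a : Cp × K) p => Sup p.S a.1.1 ∧ a.2 ∈ p.S,
    club_in fun (a : Cn × P) q => Le q a.1 ∧ a.2.1 ∈ q.I,
    sk1 fun (p : Cn) (z : ℕ → P) => ∀ k ∈ p.I, ∃ m, (z m).1 = k, clo3' Cd.nb]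
    with N ne h1 h2 h3 cp p1 p2 i1 i2 s1 c1 G hG e δ a1 a2 a3
  obtain ⟨p0, b0⟩ := ne G hG
  obtain ⟨p, b1, b2, b3, b4⟩ := i1 G hG (e, δ) ((p1 _ _).2 ⟨a1, a2⟩) (by
    obtain ⟨q, c1, -, c2⟩ := h2 G hG e a1 p0 b0
    obtain ⟨r, c3, c4, c5⟩ := h3 G hG δ a2 q c1
    exact ⟨r, c3, c2.mono c4.S, c5⟩)
  have vp := val_of hG.f b1
  obtain ⟨z, b5, b6⟩ := s1 p b2 (by
    obtain ⟨g, hg⟩ := vp.cI.exists_eq_range ⟨_, vp.d0⟩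
    exact ⟨fun n => ⟨g n, vp.iD (hg ▸ mem_range_self n)⟩, fun k hk => (hg ▸ hk : k ∈ range g)⟩)
  refine ⟨z, b5, fun i hi => ?_⟩
  obtain ⟨q, d1, d2, d3, d4⟩ := i2 G hG (p, i) ((p2 _ _).2 ⟨b2, hi⟩)
    (let ⟨q, c1, c2, _, c3⟩ := h1 G hG i hi p b1; ⟨q, c1, c2, c3⟩)
  by_cases k : ∃ k ∈ p.I, Ag q δ i k
  · obtain ⟨k, k1, k2⟩ := k
    obtain ⟨m, rfl⟩ := b6 k k1
    exact Or.inl ⟨m, q, d1, d3.S b4, d4, d3.I k1, k2⟩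
  refine Or.inr ⟨_, c1 q δ i d2 a2 ((cp i).1 hi), lev_nb _ _ _,
    fun _ => (x_eq hG.f d1 d4).mono inter_subset_left, fun j hj e1 => ?_⟩
  obtain ⟨r, e2, -, -, e3⟩ := h1 G hG j hj p b1
  obtain ⟨u, e4, e5⟩ := x_tr hG.f d1 e2 e3
  have e6 := (d3.o4 δ b4 a3 i d4 u e4 ((e1 d3.vq).symm.trans
    (e5.mono inter_subset_left))).resolve_right k
  exact (b3 _ _ ((e5.mono d3.S).trans (e6.symm.trans ((x_eq hG.f d1 d4).mono d3.S).symm))).to_iff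

theorem club_refl : ∀ᶠ N in Club, ∀ G, GG N Le G → ∀ A : Cp → Prop, Int N G A →
    ∀ γ : K, In N γ → ∃ δ : K, In N δ ∧ γ < δ ∧ om ≤ δ ∧ ∀ (e d : Cp) (y : ℕ → P), In N e → In N d →
      In N y → A e → (∀ n, e.ev G (y n) ∧ ((y n).1 < δ ∨ Lev (y n) e)) → Lev δ d →
      (∀ i : P, In N i → d.ev G i → e.ev G i) → ∃ e0 : Cp, In N e0 ∧ Lev δ e0 ∧ A e0 ∧
        (∀ n, e0.ev G (y n)) ∧ ∀ i : P, In N i → d.ev G i → e0.ev G i := by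
  choose dl hd using grefl
  filter_upwards [club_p1, club_p2 Prop, club_p3, club_I, clo2 dl,
    club_cov (fun y : ℕ → P => range fun n => (y n).1) fun _ => countable_range _,
    clo_pair (Cp → Set Cn) K, clo_pair Cp (ℕ → P), clo_pair ((Cp → Set Cn) × K) (Cp × (ℕ → P)),
    clo_pair Cp (((Cp → Set Cn) × K) × Cp × (ℕ → P)),
    club_in fun (a : Cp × ((Cp → Set Cn) × K) × Cp × (ℕ → P)) p => a.2.1.2 ∈ p.S ∧ Sup p.S a.1.1 ∧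
      Fb (a.2.1.1 a.1) p ∧ (∀ n, (a.2.2.2 n).1 ∈ p.I) ∧ Sup p.S a.2.2.1.1,
    club_wit2 fo fun (a : ((Cp → Set Cn) × K) × Cp × (ℕ → P)) q (e0 : Cp) => Sup q.S e0.1 ∧
      Lev a.1.2 e0 ∧ Fb (a.1.1 e0) q ∧ (∀ n, (a.2.2 n).1 ∈ q.I ∧ e0.1 (q.l (a.2.2 n))) ∧
        Sup q.S a.2.1.1 ∧ ∀ u ∈ q.I, a.2.1.1 (q.l u) → e0.1 (q.l u)]
    with N h1 h2 h3 cI c1 h4 p1 p2 p3 p4 i1 w G hG A ⟨β, hβ, hA⟩ γ hγ
  obtain ⟨k1, k2, k3⟩ := hd β γ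
  have k0 := c1 β γ hβ hγ
  refine ⟨_, k0, k1, k2, fun e d y a1 a2 a3 a4 a5 a6 a7 => ?_⟩
  have a8 := (p3 _ _).2 ⟨(p1 _ _).2 ⟨hβ, k0⟩, (p2 _ _).2 ⟨a2, a3⟩⟩
  obtain ⟨p, b1, b2, b3, b4, b5, b6, b7⟩ := i1 G hG _ ((p4 _ _).2 ⟨a1, a8⟩) (by
    obtain ⟨s, c1, c2⟩ := (hA e a1).1 a4
    obtain ⟨q1, d1, d2, d3⟩ := h3 G hG _ k0 s c1
    obtain ⟨q2, e1, e2, e3⟩ := h2 G hG e a1 _ d1
    obtain ⟨q3, f1, f2, f3⟩ := h2 G hG d a2 _ e1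
    obtain ⟨q4, g1, g2, g3⟩ := h4 G hG y a3 _ f1
    exact ⟨q4, g1, g2.S (f2.S (e2.S d3)), e3.mono (g2.trans f2).S,
      ⟨s, c2, ((g2.trans f2).trans e2).trans d2⟩,
      fun n => g2.vq.sI _ (g3 ⟨n, rfl⟩) (y n).2, f3.mono g2.S⟩)
  have vp := val_of hG.f b1
  obtain ⟨q, d1, e0, d2, d3, d4, d5, d6, d7, d8⟩ := w G hG _ a8 ⟨p, b1, fun r hr => by
    obtain ⟨q, e0, e1, e2, e3, e4, e5, e6⟩ := k3 r e d (range fun n => (y n).1) hr.vq (hr.S b3)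
      (b4.mono hr.S) (b5.le hr) (range_subset_iff.2 fun n => hr.I (b6 n))
      (forall_mem_range.2 fun n => ⟨b4.imp (hr.l _ (b6 n)).symm
        (ev_eq hG.f b1 (b6 n) b4 ▸ (a5 n).1), (a5 n).2⟩) (b7.mono hr.S) a6 fun j f1 f2 => by
          obtain ⟨i, f3, f4⟩ := hr.o3 j f1
          have := a7 ⟨i, vp.iD f3⟩ (cI p b2 vp _ f3)
          rw [ev_eq hG.f b1 f3 b4, ev_eq hG.f b1 f3 b7] at this
          exact b4.imp f4.symm (this (b7.imp f4 f2))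
    exact ⟨q, e0, e1, e2, e3, e4, fun n => ⟨e1.I (hr.I (b6 n)), e5 _ ⟨n, rfl⟩⟩,
      b7.mono (e1.trans hr).S, e6⟩⟩
  refine ⟨e0, d2, d4, (hA e0 d2).2 (d5.hd hG.f d1),
    fun n => (ev_eq hG.f d1 (d6 n).1 d3).symm ▸ (d6 n).2, fun i f1 f2 => ?_⟩
  obtain ⟨r, e1, -, -, e2⟩ := h1 G hG i f1 p b1
  obtain ⟨u, e3, e4⟩ := x_tr hG.f d1 e1 e2
  exact d3.imp e4.symm (d8 u e3 (d7.imp e4 f2))

theorem club_star : ∀ᶠ N in Club, ∀ G, GG N Le G → ∀ W : P × P → Prop, Int N G W →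
    ∃ δ : K, In N δ ∧ ∀ (e : Cp) (i k0 : P), In N e → In N i → In N k0 → k0.1 < om → e.ev G i →
      (∃ k : P, In N k ∧ e.ev G k ∧ W (k0, k)) ∨ ∃ e0 : Cp, In N e0 ∧ Lev δ e0 ∧ e0.ev G i ∧
        ∀ k : P, In N k → k.1 < om → e0.ev G k → ¬ W (k0, k) := by
  choose dl hd using fun β : P × P → Set Cn =>
    gstar fun z => {p | ∃ h : z.1 ∈ D ∧ z.2 ∈ D, p ∈ β (⟨z.1, h.1⟩, ⟨z.2, h.2⟩)}
  filter_upwards [club_ne, club_p1, club_p2 Prop, club_p3, club_pt, clo1 dl, clo_pair P P,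
    clo_pair Cp P, clo_pair (P × P → Set Cn) P, clo_pair P Cn,
    clo_pair ((P × P → Set Cn) × P) (Cp × P), clo3' Cd.nb,
    club_wit2 fo fun (a : ((P × P → Set Cn) × P) × Cp × P) q (z : P × Cn) =>
      (Sup q.S a.2.1.1 ∧ z.1.1 ∈ q.I ∧ a.2.1.1 (q.l z.1) ∧ Fb (a.1.1 (a.1.2, z.1)) q) ∨
        (Le q z.2 ∧ a.2.2.1 ∈ z.2.I ∧ ∀ r, Le r q → ∀ k : P, k.1 ∈ r.I → k.1 < om →
          Eqo (z.2.S ∩ Iio (dl a.1.1)) (r.l k) (z.2.l a.2.2) → ¬ Fb (a.1.1 (a.1.2, k)) r)]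
    with N ne h1 h2 h3 cp c1 p1 p2 p4 p5 p6 c2 w G hG W ⟨β, hβ, hW⟩
  obtain ⟨k2, k3⟩ := hd β
  have k0 := c1 β hβ
  refine ⟨_, k0, fun e i k a1 a2 a3 a4 a5 => ?_⟩
  obtain ⟨s, c1⟩ := ne G hG
  obtain ⟨q1, d1, -, d3⟩ := h3 G hG _ k0 s c1
  obtain ⟨q2, e1, e2, e3⟩ := h2 G hG e a1 _ d1
  obtain ⟨p, b1, b2, -, b5⟩ := h1 G hG i a2 _ e1
  have b3 := b2.S (e2.S d3)
  have b4 := e3.mono b2.S
  obtain ⟨q, d1, ⟨j, r⟩, d2, ⟨d3, d4, d5, d6⟩ | ⟨d3, d4, d5⟩⟩ := w G hG ((β, k), e, i)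
    ((p6 _ _).2 ⟨(p4 _ _).2 ⟨hβ, a3⟩, (p2 _ _).2 ⟨a1, a2⟩⟩) ⟨p, b1, fun r hr => by
      obtain ⟨q, e1, ⟨j, e2, -, e3, s, ⟨e4, e5⟩, e6⟩ | e2⟩ :=
        k3 r i k hr.vq (hr.S b3) (hr.I b5) (a4.trans_le k2)
      · exact ⟨q, (⟨j, e4.2⟩, r), e1, Or.inl ⟨b4.mono (e1.trans hr).S, e2, b4.imp
          ((e3.mono hr.S).trans (hr.l _ b5)).symm (ev_eq hG.f b1 b5 b4 ▸ a5), s, e5, e6⟩⟩
      · exact ⟨q, (i, r), e1, Or.inr ⟨e1, hr.I b5, fun r' f1 j f2 f3 f4 ⟨s, f5, f6⟩ =>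
          e2 r' f1 j f2 f3 f4 ⟨s, ⟨⟨k.2, j.2⟩, f5⟩, f6⟩⟩⟩⟩
  · have d7 := ((p5 _ _).1 d2).1
    exact Or.inl ⟨j, d7, (ev_eq hG.f d1 d4 d3).symm ▸ d5,
      (hW _ ((p1 _ _).2 ⟨a3, d7⟩)).2 (d6.hd hG.f d1)⟩
  · refine Or.inr ⟨_, c2 r _ i ((p5 _ _).1 d2).2 k0 ((cp i).1 a2), lev_nb _ _ _,
      fun _ => (x_eq hG.f (hG.f.1 q d1 r d3) d4).mono inter_subset_left, fun j e1 e2 e3 e4 => ?_⟩
    obtain ⟨s, e5, e6⟩ := (hW _ ((p1 _ _).2 ⟨a3, e1⟩)).1 e4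
    obtain ⟨r0, e7, e8, e9⟩ := hG.f.2 q d1 s e5
    obtain ⟨r', f1, f2, -, f3⟩ := h1 G hG j e1 r0 e7
    exact d5 r' (f2.trans e8) j f3 e2 (((x_eq hG.f f1 f3).symm.mono
      (inter_subset_left.trans ((f2.trans e8).trans d3).S)).trans (e3 d3.vp)) ⟨s, e6, f2.trans e9⟩

end Pool.Agent.Lib.MP_d63cb0_gt.H15
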