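import Mathlib

/-!
The well ordered index set of the construction and a reflection lemma.
-/

namespace Pool.Agent.Lib.MP_d63cb0_gt.H15

open Set Cardinal

theorem reg_bdd {c : Cardinal.{0}} (hc : ℵ₀ ≤ c) (s : Set (Order.succ c).ord.ToType)
    (hs : #s ≤ c) : ∃ a, ∀ k ∈ s, k < a := by
  refine not_isCofinal_iff.1 fun h => ?_
  have := Order.cof_le h
  rw [Ordinal.cof_toType, (isRegular_succ hc).cof_ord] at this
  exact (Order.lt_succ c).not_ge (this.trans hs)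

/-- Coordinates. -/
def K : Type := (Order.succ continuum.{0}).ord.ToType ×ₗ Bool

noncomputable instance : LinearOrder K := inferInstanceAs (LinearOrder (_ ×ₗ _))

instance : WellFoundedLT K := inferInstanceAs (WellFoundedLT (_ ×ₗ _))

/-- The coordinates that are also points. -/
def D : Set K := {k | (ofLex k).2 = true}

theorem bdd2 (s : Set K) (hs : #s ≤ 𝔠) : (∃ d ∈ D, ∀ k ∈ s, k < d) ∧ ∃ d ∉ D, ∀ k ∈ s, k < d := by
  obtain ⟨a, ha⟩ := reg_bdd aleph0_le_continuum ((fun k : K => (ofLex k).1) '' s)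
    (mk_image_le.trans hs)
  exact ⟨⟨toLex (a, true), rfl, fun k hk => Prod.Lex.toLex_lt_toLex.2 (Or.inl (ha _ ⟨k, hk, rfl⟩))⟩,
    toLex (a, false), fun h => Bool.noConfusion h,
    fun k hk => Prod.Lex.toLex_lt_toLex.2 (Or.inl (ha _ ⟨k, hk, rfl⟩))⟩

instance : Nonempty K := let ⟨d, _⟩ := (bdd2 ∅ (by simp)).1; ⟨d⟩

theorem ctbl_le {α : Type} {s : Set α} (h : s.Countable) : #s ≤ 𝔠 :=
  (le_aleph0_iff_set_countable.2 h).trans aleph0_le_continuum

theorem mk_Iic (k : K) : #(Iic k) ≤ 𝔠 := by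
  have h1 : #(Iic (ofLex k).1) ≤ 𝔠 := by
    rw [← Iio_insert]
    refine mk_insert_le.trans (add_le_of_le aleph0_le_continuum ?_
      (one_le_aleph0.trans aleph0_le_continuum))
    have := mk_Iio_lt (ofLex k).1 (by simp)
    rw [mk_ord_toType] at this
    exact Order.lt_succ_iff.1 this
  have h2 : Iic k ⊆ (fun z => toLex z) '' (Iic (ofLex k).1 ×ˢ (univ : Set Bool)) := by
    intro j hj
    refine ⟨ofLex j, ⟨?_, trivial⟩, rfl⟩
    rcases Prod.Lex.toLex_le_toLex.1 (show toLex (ofLex j) ≤ toLex (ofLex k) from hj) with h | h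
    exacts [h.le, h.1.le]
  refine (mk_le_mk_of_subset h2).trans (mk_image_le.trans ?_)
  rw [mk_setProd]
  exact mul_le_of_le aleph0_le_continuum h1 (ctbl_le (to_countable _))

/-- Countable subsets of `J` have strict upper bounds in `J` that are points. -/
def Lim (J : Set K) : Prop := ∀ s ⊆ J, s.Countable → ∃ d ∈ J, d ∈ D ∧ ∀ k ∈ s, k < d

theorem lim_univ : Lim univ := fun s _ hs =>
  let ⟨d, h1, h2⟩ := (bdd2 s (ctbl_le hs)).1; ⟨d, trivial, h1, h2⟩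

theorem Lim.fresh {J s : Set K} (hJ : Lim J) (h : s ⊆ J) (hs : s.Countable) {α : Type}
    {C : Set α} (hC : C.Countable) :
    ∃ n : α → K, InjOn n C ∧ ∀ a, n a ∈ J ∧ n a ∈ D ∧ ∀ k ∈ s, k < n a := by
  have : ∀ d ∈ J, ∃ d' ∈ J, d' ∈ D ∧ ∀ k ∈ insert d s, k < d' := fun d hd =>
    hJ _ (insert_subset hd h) (hs.insert d)
  choose! f hf using this
  obtain ⟨d, hd, -⟩ := hJ s h hs
  let g : ℕ → K := fun n => f^[n] d
  have h1 : ∀ n, g n ∈ J := by
    intro n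
    induction n with
    | zero => exact hd
    | succ n ih => simpa only [g, Function.iterate_succ_apply'] using (hf _ ih).1
  have h2 : ∀ n, g (n + 1) = f (g n) := fun n => Function.iterate_succ_apply' _ _ _
  have h3 : StrictMono g := strictMono_nat_of_lt_succ fun n =>
    h2 n ▸ (hf _ (h1 n)).2.2 _ (mem_insert _ _)
  obtain ⟨e, he⟩ := countable_iff_exists_injOn.1 hC
  refine ⟨fun a => g (e a + 1), fun a ha b hb k => he ha hb (Nat.succ_injective (h3.injective k)),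
    fun a => ⟨h1 _, ?_, fun k hk => ?_⟩⟩
  · simp only [h2]; exact (hf _ (h1 _)).2.1
  · simp only [h2]; exact (hf _ (h1 _)).2.2 k (mem_insert_of_mem _ hk)

/-- Small data. -/
abbrev Dt : Type := Set (K × K × ℕ)

/-- Data inside a set of coordinates. -/
def Ins (J : Set K) (d : Dt) : Prop := d.Countable ∧ ∀ z ∈ d, z.1 ∈ J ∧ z.2.1 ∈ J

theorem mk_ins (k : K) : #{d | Ins (Iic k) d} ≤ 𝔠 := by
  have h1 : #(Iic k ×ˢ Iic k ×ˢ (univ : Set ℕ) : Set (K × K × ℕ)) ≤ 𝔠 := by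
    rw [mk_setProd, mk_setProd]
    exact mul_le_of_le aleph0_le_continuum (mk_Iic k) (mul_le_of_le aleph0_le_continuum (mk_Iic k)
      (ctbl_le (to_countable _)))
  have h2 := mk_bounded_subset_le (Iic k ×ˢ Iic k ×ˢ (univ : Set ℕ) : Set (K × K × ℕ)) ℵ₀
  refine le_trans (mk_le_of_injective (f := fun d => ⟨d.1, fun z hz =>
    ⟨(d.2.2 z hz).1, (d.2.2 z hz).2, trivial⟩, le_aleph0_iff_set_countable.2 d.2.1⟩)
    fun d d' h => Subtype.ext (by simpa using h)) (h2.trans ?_)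
  exact (power_le_power_right (max_le h1 aleph0_le_continuum)).trans continuum_power_aleph0.le

theorem refl {W : Type 1} (Ψ : Dt → W → Prop) (sp : W → Set K)
    (h : ∀ d r, Ψ d r → (sp r).Countable) (γ : K) : ∃ δ, γ < δ ∧ Lim (Iio δ) ∧
      ∀ d, Ins (Iio δ) d → (∃ r, Ψ d r) → ∃ r, Ψ d r ∧ sp r ⊆ Iio δ := by
  classical
  have h0 : ∀ d, ∃ s : Set K, s.Countable ∧ ((∃ r, Ψ d r) → ∃ r, Ψ d r ∧ sp r ⊆ s) := fun d => by
    by_cases k : ∃ r, Ψ d r
    · obtain ⟨r, k⟩ := k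
      exact ⟨_, h d r k, fun _ => ⟨r, k, subset_rfl⟩⟩
    · exact ⟨∅, countable_empty, fun k' => (k k').elim⟩
  choose w hw hw' using h0
  let F : K → Set K := fun k => insert k (⋃ d : {d | Ins (Iic k) d}, w d)
  have hF : ∀ k, #(F k) ≤ 𝔠 := fun k => mk_insert_le.trans (add_le_of_le aleph0_le_continuum
    ((mk_iUnion_le _).trans (mul_le_of_le aleph0_le_continuum (mk_ins k)
      (ciSup_le' fun d => ctbl_le (hw d)))) (one_le_aleph0.trans aleph0_le_continuum))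
  choose! bd hbd using fun s hs => (bdd2 s hs).1
  let O := (Order.succ ℵ₀).ord.ToType
  have hO : #O ≤ 𝔠 := by
    rw [mk_ord_toType]
    exact Order.succ_le_of_lt aleph0_lt_continuum
  let g : O → K := wellFounded_lt.fix fun a m => bd (insert γ (⋃ b : Iio a, F (m b b.2)))
  have hg : ∀ a, g a = bd (insert γ (⋃ b : Iio a, F (g b))) := fun a => WellFounded.fix_eq _ _ _
  have hg' : ∀ a, g a ∈ D ∧ ∀ k ∈ insert γ (⋃ b : Iio a, F (g b)), k < g a := fun a => by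
    rw [hg]
    exact hbd _ (mk_insert_le.trans (add_le_of_le aleph0_le_continuum ((mk_iUnion_le _).trans
      (mul_le_of_le aleph0_le_continuum ((mk_set_le _).trans hO) (ciSup_le' fun b => hF _)))
      (one_le_aleph0.trans aleph0_le_continuum)))
  have h1 : ∀ a b, b < a → ∀ k ∈ F (g b), k < g a := fun a b hb k hk =>
    (hg' a).2 k (mem_insert_of_mem _ (mem_iUnion.2 ⟨⟨b, hb⟩, hk⟩))
  obtain ⟨δ, h2, h3⟩ := wellFounded_lt.has_min {δ | ∀ k ∈ range g, k < δ}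
    (let ⟨d, _, k⟩ := (bdd2 (range g) (mk_range_le.trans hO)).1; ⟨d, k⟩)
  have h4 : ∀ s ⊆ Iio δ, s.Countable → ∃ a, s ⊆ Iic (g a) := by
    intro s k1 k2
    have k0 : ∀ ξ ∈ s, ∃ a, ξ ≤ g a := fun ξ hξ => by
      by_contra k
      exact h3 ξ (forall_mem_range.2 fun a => not_le.1 fun k' => k ⟨a, k'⟩) (k1 hξ)
    obtain ⟨a0, -⟩ := reg_bdd le_rfl (∅ : Set O) (by simp)
    have : Nonempty O := ⟨a0⟩
    choose! i hi using k0
    obtain ⟨a, ha⟩ := reg_bdd le_rfl (i '' s) (le_aleph0_iff_set_countable.2 (k2.image i))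
    exact ⟨a, fun ξ hξ => (hi ξ hξ).trans (h1 a _ (ha _ ⟨ξ, hξ, rfl⟩) _ (mem_insert _ _)).le⟩
  have h5 : ∀ a : O, ∃ a', a < a' := fun a =>
    let ⟨a', k⟩ := reg_bdd le_rfl ({a} : Set O) (by simp); ⟨a', k a rfl⟩
  obtain ⟨a0, -⟩ := h4 ∅ (empty_subset _) countable_empty
  refine ⟨δ, ((hg' a0).2 γ (mem_insert _ _)).trans (h2 _ ⟨a0, rfl⟩), fun s k1 k2 => ?_,
    fun d hd k => ?_⟩
  · obtain ⟨a, ha⟩ := h4 s k1 k2
    obtain ⟨a', k3⟩ := h5 a
    exact ⟨g a', h2 _ ⟨a', rfl⟩, (hg' a').1, fun k hk =>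
      (ha hk).trans_lt (h1 a' a k3 _ (mem_insert _ _))⟩
  · obtain ⟨a, ha⟩ := h4 ((fun z => z.1) '' d ∪ (fun z => z.2.1) '' d) (by
      rintro _ (⟨z, hz, rfl⟩ | ⟨z, hz, rfl⟩)
      exacts [(hd.2 z hz).1, (hd.2 z hz).2]) ((hd.1.image _).union (hd.1.image _))
    obtain ⟨a', k3⟩ := h5 a
    obtain ⟨r, k4, k5⟩ := hw' d k
    refine ⟨r, k4, fun ξ hξ => (h1 a' a k3 ξ (mem_insert_of_mem _ (mem_iUnion.2 ⟨⟨d, hd.1,
      fun z hz => ⟨ha (Or.inl ⟨z, hz, rfl⟩), ha (Or.inr ⟨z, hz, rfl⟩)⟩⟩, k5 hξ⟩))).trans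
      (h2 _ ⟨a', rfl⟩)⟩

theorem ex_om : ∃ w : K, Lim (Iio w) :=
  let ⟨d, _⟩ := (bdd2 ∅ (by simp)).1
  let ⟨w, _, h, _⟩ := refl (W := PUnit) (fun _ _ => False) (fun _ => ∅) (fun _ _ h => h.elim) d
  ⟨w, h⟩

/-- A coordinate with uncountably many points below it. -/
noncomputable def om : K := ex_om.choose

theorem lim_om : Lim (Iio om) := ex_om.choose_spec

theorem ex_lt_om {s : Set K} (hs : s.Countable) : ∃ k ∈ D, k < om ∧ k ∉ s :=
  let ⟨d, h1, h2, h3⟩ := lim_om (s ∩ Iio om) inter_subset_right (hs.mono inter_subset_left)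
  ⟨d, h2, h1, fun k => lt_irrefl _ (h3 d ⟨k, h1⟩)⟩

/-- A fixed point. -/
noncomputable def d0 : K := (ex_lt_om countable_empty).choose

theorem d0_mem : d0 ∈ D := (ex_lt_om countable_empty).choose_spec.1

theorem d0_lt : d0 < om := (ex_lt_om countable_empty).choose_spec.2.1

end Pool.Agent.Lib.MP_d63cb0_gt.H15
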