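import Pool.Agent.Lib.MP_d63cb0_gt.H15.Base
import Pool.Agent.Lib.MP_d63cb0_gt.H15.Glue
import Pool.Agent.Lib.MP_d63cb0_gt.H15.Alg

/-!
The generic space: it is Tychonoff, realcompact and not Lindelof in the extension.
-/

namespace Pool.Agent.Lib.MP_d63cb0_gt.H15

open Pool.Agent.Lib.MP_fecf72_lc Set Filter

/-- Names for the points. -/
noncomputable def ptN : K → Nm Cn :=
  wellFounded_lt.fix fun i m => famN tp fun j : ULift.{1} (Iio i) => m j.down j.down.2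

theorem ptN_eq (i : K) : ptN i = famN tp fun j : ULift.{1} (Iio i) => ptN j.down :=
  WellFounded.fix_eq _ _ _

/-- Codes of the points. -/
noncomputable def pc (N : Set Wd) (G : Set Cn) (i : X N) : V := val N G (ptN i.1.1)

/-- The generic space. -/
noncomputable def SX (N : Set Wd) (G : Set Cn) : Sp :=
  gen (Mod N G) (pc N G) {b | ∃ e : Cp, In N e ∧ st N G e = b}

/-- The function with a given code. -/
def fn (N : Set Wd) (G : Set Cn) (F : Cd ℝ) : X N → ℝ := fun i => F.ev G i.1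

theorem club_inj : ∀ᶠ N in Club, ∀ G, GG N Le G → Function.Injective (pc N G) := by
  filter_upwards [club_countable, club_names le_tp fo, club_pt, clo1 ptN] with N hc nm cp c1 G hG
  have key : ∀ i j : X N, j.1.1 < i.1.1 → pc N G j ≠ pc N G i := fun i j h e => by
    have : pc N G j ∈ pc N G i := (mem_val hc).2 ⟨ptN j.1.1, tp, by
      rw [ptN_eq i.1.1]; exact ch_famN.2 ⟨⟨⟨⟨_, h⟩⟩, rfl⟩, rfl⟩, (nm G hG).1,
      c1 _ ((cp _).1 j.2), rfl⟩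
    exact ZFSet.mem_irrefl _ (e ▸ this)
  intro i j e
  rcases lt_trichotomy i.1.1 j.1.1 with h | h | h
  exacts [(key j i h e).elim, Subtype.ext (Subtype.ext h), (key i j h e.symm).elim]

theorem club_val (T : Type) : ∀ᶠ N in Club, ∀ G, GG N Le G → ∀ (F : Cd T) (i : P), In N F →
    In N i → In N (F.ev G i) := by
  filter_upwards [club_ne, club_p1, club_p2 T, clo_pair (Cd T) P,
    club_in fun (a : Cd T × P) p => Sup p.S a.1.1 ∧ a.2.1 ∈ p.I,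
    clo3' fun (F : Cd T) (p : Cn) (i : P) => F.1 (p.l i)] with N ne h1 h2 p1 i1 c1 G hG F i a1 a2
  obtain ⟨p, b⟩ := ne G hG
  obtain ⟨q, b1, -, b2⟩ := h2 G hG F a1 p b
  obtain ⟨r, b3, b4, -, b5⟩ := h1 G hG i a2 q b1
  obtain ⟨s, d1, d2, d3, d4⟩ := i1 G hG (F, i) ((p1 _ _).2 ⟨a1, a2⟩) ⟨r, b3, b2.mono b4.S, b5⟩
  exact ev_eq hG.f d1 d4 d3 ▸ c1 F s i a1 d2 a2

theorem tm_pt : Tm Le fun (i : P) N G => val N G (ptN i.1) := Tm.val _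

theorem tm_real : Tm Le fun (r : ℝ) _ _ => realC r := Tm.real le_tp fo

theorem tm_st : Tm Le fun (e : Cp) N G => img (st N G e) (pc N G) :=
  (Tm.img le_tp fo (Θ := fun (e : Cp) (i : P) _ G => e.ev G i)
    (s := fun _ i N G => val N G (ptN i.1)) fc_ev (Tm.val _)).congr
    (Eventually.of_forall fun _ _ _ _ _ => ZFSet.ext fun _ => mem_img.trans (Iff.trans
      ⟨fun ⟨i, a, b⟩ => ⟨⟨i, a.1⟩, a.2, b⟩, fun ⟨i, a, b⟩ => ⟨i.1, ⟨i.2, a⟩, b⟩⟩ mem_img.symm))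

theorem tm_fn : Tm Le fun (F : Cd ℝ) N G => (SX N G).fC (fn N G F) := by
  refine (Tm.img le_tp fo (Θ := fun (F : Cd ℝ) (z : P × ℝ) _ G => F.ev G z.1 = z.2)
    (s := fun _ z N G => ZFSet.pair (val N G (ptN z.1.1)) (realC z.2))
    (fc_ev.comap fun y : Cd ℝ × P × ℝ => (y.1.map fun t => t = y.2.2, y.2.1))
    ((Tm.val _).pair le_tp fo (tm_real.comap fun y : Cd ℝ × P × ℝ => y.2.2))).congr ?_
  filter_upwards [club_val ℝ, clo_pair P ℝ] with N h1 p1 G hG F hF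
  refine ZFSet.ext fun _ => mem_img.trans (Iff.trans ⟨?_, ?_⟩ mem_img.symm)
  · rintro ⟨⟨i, r⟩, ⟨a, k⟩, b⟩
    obtain rfl : F.ev G i = r := k
    exact ⟨⟨i, ((p1 _ _).1 a).1⟩, trivial, b⟩
  · rintro ⟨i, -, b⟩
    exact ⟨(i.1, _), ⟨(p1 _ _).2 ⟨i.2, h1 G hG F i.1 hF i.2⟩, rfl⟩, b⟩

theorem club_base : ∀ᶠ N in Club, ∀ G, GG N Le G →
    img {b | ∃ e : Cp, In N e ∧ st N G e = b} (fun b => img b (pc N G)) ∈ Mod N G := by
  filter_upwards [(Tm.img le_tp fo (Θ := fun (_ : ℕ) (_ : Cp) _ _ => True)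
    (s := fun _ e N G => img (st N G e) (pc N G)) (Fc.ground _)
    (tm_st.comap fun y : ℕ × Cp => y.2)).mod, clo0 (0 : ℕ)] with N h1 h2 G hG
  convert h1 G hG 0 h2 using 1
  exact ZFSet.ext fun _ => mem_img.trans (Iff.trans ⟨fun ⟨_, ⟨e, a, rfl⟩, b⟩ => ⟨e, ⟨a, trivial⟩, b⟩,
    fun ⟨e, a, b⟩ => ⟨_, ⟨e, a.1, rfl⟩, b⟩⟩ mem_img.symm)

theorem Int.congr {N : Set Wd} {G : Set Cn} {κ : Type} {P Q : κ → Prop} (h : Int N G P)
    (k : ∀ a : κ, In N a → (Q a ↔ P a)) : Int N G Q :=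
  let ⟨b, h1, h2⟩ := h; ⟨b, h1, fun a ha => (k a ha).trans (h2 a ha)⟩

theorem fc_gr : Fc Le fun (z : Nm Cn × P × ℝ) N G =>
    ZFSet.pair (val N G (ptN z.2.1.1)) (realC z.2.2) ∈ val N G z.1 :=
  ((Tm.val _).pair le_tp fo (tm_real.comap fun y : Nm Cn × P × ℝ => y.2.2)).mem fo (Tm.val _)

theorem club_cont : ∀ᶠ N in Club, ∀ G, GG N Le G → ∀ f : X N → ℝ, (SX N G).fC f ∈ Mod N G →
    (∀ i, ∀ q : ℚ, ∃ e : Cp, In N e ∧ i ∈ st N G e ∧ ∀ j ∈ st N G e,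
      (f i < q → f j < q) ∧ (q < f i → q < f j)) → ∃ F : Cd ℝ, In N F ∧ fn N G F = f := by
  filter_upwards [club_code ℝ, club_inj, club_zfc le_tp fo, club_real le_tp fo sc, clo_pair P ℝ,
    clo_pair (Nm Cn) (P × ℝ), clo1 fun s : ℕ → Cp => Cd.mapn (fun v : ℕ → Prop => ∀ n, v n) s,
    Fc.int (Θ := fun (π : Nm Cn) (z : P × ℝ) N G =>
      ZFSet.pair (val N G (ptN z.1.1)) (realC z.2) ∈ val N G π) fc_gr,
    icc fo sc (Θ := fun (a : Nm Cn × P × ℝ) n (e : Cp) N G => e.ev G a.2.1 ∧ ∀ z : P × ℝ, In N z →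
      ZFSet.pair (val N G (ptN z.1.1)) (realC z.2) ∈ val N G a.1 → e.ev G z.1 →
        (a.2.2 < Denumerable.ofNat ℚ n → z.2 < Denumerable.ofNat ℚ n) ∧
          (Denumerable.ofNat ℚ n < a.2.2 → Denumerable.ofNat ℚ n < z.2))
      ((fc_ev.comap fun y : (Nm Cn × P × ℝ) × ℕ × Cp => (y.2.2, y.1.2.1)).and
        (Fc.all fo (Θ := fun (y : (Nm Cn × P × ℝ) × ℕ × Cp) (z : P × ℝ) N G =>
          ZFSet.pair (val N G (ptN z.1.1)) (realC z.2) ∈ val N G y.1.1 → y.2.2.ev G z.1 →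
            (y.1.2.2 < Denumerable.ofNat ℚ y.2.1 → z.2 < Denumerable.ofNat ℚ y.2.1) ∧
              (Denumerable.ofNat ℚ y.2.1 < y.1.2.2 → Denumerable.ofNat ℚ y.2.1 < z.2))
          ((fc_gr.comap fun v : ((Nm Cn × P × ℝ) × ℕ × Cp) × P × ℝ => (v.1.1.1, v.2)).imp
            ((fc_ev.comap fun v : ((Nm Cn × P × ℝ) × ℕ × Cp) × P × ℝ => (v.1.2.2, v.2.1)).imp
              (Fc.ground _)))))]
    with N cd inj zf re p1 p2 c1 i1 ic G hG f ⟨π, hπ, e0⟩ h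
  have hR : ∀ (i : X N) (r : ℝ), ZFSet.pair (pc N G i) (realC r) ∈ val N G π ↔ f i = r :=
    fun i r => e0 ▸ pair_mem_fC (S := SX N G) (inj G hG)
  have hv : ∀ i, In N (f i) := fun i => (re G hG _).1
    (zf_pair (zf G hG) ((zf G hG).trans _ ⟨π, hπ, rfl⟩ _ ((hR i _).2 rfl))).2
  obtain ⟨F, a1, a2⟩ := cd G hG f ((i1 G hG π hπ).congr fun z hz =>
    ⟨fun k => (hR ⟨z.1, ((p1 _ _).1 hz).1⟩ _).2 (k _), fun k a => (hR ⟨z.1, a⟩ _).1 k⟩) hv fun i => by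
      obtain ⟨s, b1, b2⟩ := ic G hG (π, i.1, f i) ((p2 _ _).2 ⟨hπ, (p1 _ _).2 ⟨i.2, hv i⟩⟩) fun n =>
        let ⟨e, b1, b2, b3⟩ := h i (Denumerable.ofNat ℚ n)
        ⟨e, b1, b2, fun z hz k1 k2 =>
          (hR ⟨z.1, ((p1 _ _).1 hz).1⟩ _).1 k1 ▸ b3 ⟨z.1, ((p1 _ _).1 hz).1⟩ k2⟩
      refine ⟨_, c1 s b1, fun n => (b2 n).1, fun j hj => ?_⟩
      have b3 : ∀ q : ℚ, (f i < q → f j < q) ∧ (q < f i → q < f j) := fun q => by
        obtain ⟨n, rfl⟩ := (Denumerable.eqv ℚ).symm.surjective q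
        exact (b2 n).2 (j.1, f j) ((p1 _ _).2 ⟨j.2, hv j⟩) ((hR j _).2 rfl) (hj _)
      rcases lt_trichotomy (f j) (f i) with k | k | k
      · obtain ⟨q, k1, k2⟩ := exists_rat_btwn k
        exact absurd ((b3 q).2 k2) k1.not_gt
      · exact k
      · obtain ⟨q, k1, k2⟩ := exists_rat_btwn k
        exact absurd ((b3 q).1 k1) k2.not_gt
  exact ⟨F, a1, funext a2⟩

theorem club_C : ∀ᶠ N in Club, ∀ G, GG N Le G → ∀ f : X N → ℝ,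
    (f ∈ (SX N G).C (Mod N G) ↔ ∃ F : Cd ℝ, In N F ∧ fn N G F = f) := by
  filter_upwards [club_cont, club_zfc le_tp fo, club_base, tm_fn.mod, club_bool,
    club_all fun q : ℚ => clo1 fun F : Cd ℝ => F.map fun t : ℝ => t < q,
    club_all fun q : ℚ => clo1 fun F : Cd ℝ => F.map fun t : ℝ => q < t]
    with N h1 zf h2 h3 bo c1 c2 G hG f
  refine ⟨fun ⟨a, b⟩ => h1 G hG f a fun i q => ?_, ?_⟩
  · rcases lt_trichotomy (f i) q with k | k | k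
    · obtain ⟨_, ⟨e, k1, rfl⟩, k2, k3⟩ := (b q).1.2 i k
      exact ⟨e, k1, k2, fun j hj => ⟨fun _ => k3 hj, fun k' => absurd k k'.not_gt⟩⟩
    · exact ⟨_, bo.2.2.2.1 True, trivial, fun j _ => by simp [k]⟩
    · obtain ⟨_, ⟨e, k1, rfl⟩, k2, k3⟩ := (b q).2.2 i k
      exact ⟨e, k1, k2, fun j hj => ⟨fun k' => absurd k k'.not_gt, fun _ => k3 hj⟩⟩
  · rintro ⟨F, a, rfl⟩
    exact ⟨h3 G hG F a, fun q => ⟨gen_base (zf G hG) (h2 G hG) ⟨_, c1 q F a, rfl⟩,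
      gen_base (zf G hG) (h2 G hG) ⟨_, c2 q F a, rfl⟩⟩⟩

open Classical in
/-- Indicator functions. -/
noncomputable def ind (e : Cp) : Cd ℝ := e.map fun b => if b then 1 else 0

theorem fn_ind {N : Set Wd} {G : Set Cn} {e : Cp} {i : X N} :
    fn N G (ind e) i = 1 ↔ i ∈ st N G e := by
  simp [fn, ind, st, Cd.ev, Cd.map]

theorem club_tych : ∀ᶠ N in Club, ∀ G, GG N Le G → Tych (Mod N G) (SX N G) := by
  filter_upwards [club_zfc le_tp fo, club_inj, club_base, tm_st.mod, club_bool, club_C, club_rs,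
    clo1 fun i : P => Cd.crd i.1, clo1 ind] with N zf inj h1 h2 ⟨bA, _, bN, bC, _⟩ h3 h4 c1 c2 G hG
  refine tych_gen (zf G hG) (inj G hG) (h2 G hG _ (bC True)) (h1 G hG)
    (fun a => ⟨_, ⟨_, bC True, rfl⟩, trivial⟩) ?_ (fun a a' k => ?_) ?_
  · rintro _ ⟨e, a, rfl⟩ _ ⟨d, b, rfl⟩
    exact ⟨_, bA e d a b, rfl⟩
  · rcases lt_or_gt_of_ne (fun e => k (Subtype.ext e) : a'.1 ≠ a.1) with k | k
    · exact ⟨_, ⟨_, c1 _ a'.2, rfl⟩, (h4 G hG _ a'.2).1, fun b => k.not_ge ((h4 G hG _ a'.2).2 _ b)⟩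
    · exact ⟨_, ⟨_, bN _ (c1 _ a.2), rfl⟩, fun b => k.not_ge ((h4 G hG _ a.2).2 _ b),
        fun b => b (h4 G hG _ a.2).1⟩
  · rintro _ ⟨e, a, rfl⟩ i b
    exact ⟨_, (h3 G hG _).2 ⟨_, c2 _ (bN e a), rfl⟩, if_neg fun k => k b, fun j k => fn_ind.2 k⟩

theorem club_rn : ∀ᶠ N in Club, ∀ G, GG N Le G →
    Rn ((SX N G).C (Mod N G)) {r | realC r ∈ Mod N G} := by
  filter_upwards [club_C, club_real le_tp fo sc, club_all fun q : ℚ => clo0 (q : ℝ),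
    clo1 fun r : ℝ => Cd.cst r, clo2 fun F F' : Cd ℝ => F.map2 (fun s t => s + t) F',
    clo2 fun F F' : Cd ℝ => F.map2 (fun s t => s * t) F', clo1 fun F : Cd ℝ => F.map fun t => t⁻¹]
    with N h re c1 c2 c3 c4 c5 G hG
  refine ⟨fun q => (re G hG _).2 (c1 q), fun r a => (h G hG _).2 ⟨_, c2 r ((re G hG _).1 a), rfl⟩,
    fun f a g b => ?_, fun f a g b => ?_, fun f a _ => ?_⟩ <;> obtain ⟨F, a', rfl⟩ := (h G hG _).1 a
  · obtain ⟨F', b', rfl⟩ := (h G hG _).1 b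
    exact (h G hG _).2 ⟨_, c3 F F' a' b', rfl⟩
  · obtain ⟨F', b', rfl⟩ := (h G hG _).1 b
    exact (h G hG _).2 ⟨_, c4 F F' a' b', rfl⟩
  · exact (h G hG _).2 ⟨_, c5 F a', rfl⟩

theorem club_rc : ∀ᶠ N in Club, ∀ G, GG N Le G → RealCpt (Mod N G) (SX N G) := by
  filter_upwards [club_zfc le_tp fo, club_inj, club_C, club_rn, club_fix, club_real le_tp fo sc,
    clo1 ind, clo1n fun (s : ℕ → Cp) n => s n,
    clo1 fun s : ℕ → Cp => Cd.mapn (fun v : ℕ → Prop => ((sInf {n | v n} : ℕ) : ℝ)) s,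
    clo2 fun (F : Cd ℝ) (r : ℝ) => F.map fun t => t = r,
    Fc.int (Θ := fun (π : Nm Cn) (e : Cp) N G =>
      ZFSet.pair ((SX N G).fC (fn N G (ind e))) (realC 1) ∈ val N G π)
      (((tm_fn.comap fun y : Nm Cn × Cp => ind y.2).pair le_tp fo
        (tm_real.comap fun _ => 1)).mem fo (Tm.val _))]
    with N zf inj hC rn fx re c1 c2 c3 c4 i1 G hG h ⟨π, hπ, e0⟩ h1 h2
  have hR : ∀ f r, ZFSet.pair ((SX N G).fC f) (realC r) ∈ val N G π ↔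
      f ∈ (SX N G).C (Mod N G) ∧ h f = r := fun f r =>
    e0 ▸ (pair_mem_gr (fC_inj (inj G hG))).trans (and_congr_right fun _ => realC_inj.eq_iff)
  have hh : Hm _ {r | realC r ∈ Mod N G} h := ⟨h1, h2, fun f a =>
    (zf_pair (zf G hG) ((zf G hG).trans _ ⟨π, hπ, rfl⟩ _ ((hR f _).2 ⟨a, rfl⟩))).2⟩
  have hi : ∀ e : Cp, In N e → fn N G (ind e) ∈ (SX N G).C (Mod N G) := fun e a =>
    (hC G hG _).2 ⟨_, c1 e a, rfl⟩
  obtain ⟨i, k⟩ := fx G hG (fun e => h (fn N G (ind e)) = 1)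
    ((i1 G hG π hπ).congr fun e a => ((hR _ _).trans (and_iff_right (hi e a))).symm)
    ⟨fun d e f a1 a2 a3 a4 a5 a6 => by
      obtain ⟨x, b1, b2, b3⟩ := hh.ex3 (rn G hG) (hi d a1) (hi e a2) (hi f a3)
      exact b3 ▸ fn_ind.2 (a4 ⟨fn_ind.1 (b1.trans a5), fn_ind.1 (b2.trans a6)⟩),
    fun d e a1 a2 a3 => by
      obtain ⟨x, b1, b2⟩ := hh.ex2 (rn G hG) (hi d a1) (hi e a2)
      exact (a3 ▸ mem_univ x : x ∈ st N G d ∪ st N G e).imp (fun b => b1 ▸ fn_ind.2 b)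
        fun b => b2 ▸ fn_ind.2 b,
    fun d a1 a2 => let ⟨x, b1, _⟩ := hh.ex2 (rn G hG) (hi d a1) (hi d a1)
      ⟨x, fn_ind.1 (b1.trans a2)⟩⟩ fun s a1 a2 => by
      have b0 := (hC G hG _).2 ⟨_, c3 s a1, rfl⟩
      obtain ⟨x, b1, -⟩ := hh.ex2 (rn G hG) b0 b0
      obtain ⟨y, b2, b3⟩ := hh.ex2 (rn G hG) b0 (hi _ (c2 s a1 (sInf {n | x ∈ st N G (s n)})))
      refine ⟨_, b3 ▸ fn_ind.2 ?_⟩
      have b4 : sInf {n | y ∈ st N G (s n)} = sInf {n | x ∈ st N G (s n)} :=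
        Nat.cast_injective (R := ℝ) (b2.trans b1.symm)
      exact b4 ▸ Nat.sInf_mem (s := {n | y ∈ st N G (s n)}) (a2 y)
  refine ⟨i, fun f a => ?_⟩
  obtain ⟨F, b, rfl⟩ := (hC G hG _).1 a
  have b1 := c4 F _ b ((re G hG _).1 (hh.val _ a))
  obtain ⟨x, b2, b3⟩ := hh.ex2 (rn G hG) a (hi _ b1)
  exact (k _ b1 (b3 ▸ fn_ind.2 b2)).symm

theorem club_nl : ∀ᶠ N in Club, ∀ G, GG N Le G → ¬ Lind (Mod N G) (SX N G) := by
  filter_upwards [club_zfc le_tp fo, club_inj, club_base, club_rs, clo0 (0 : ℕ),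
    clo0 (⟨d0, d0_mem⟩ : P), clo1 fun i : P => Cd.crd i.1,
    sk1 fun (s : ℕ → P) (i : P) => ∀ n, s n < i,
    (Tm.img le_tp fo (Θ := fun (_ : ℕ) (_ : P) _ _ => True)
      (s := fun _ i N G => img (st N G (Cd.crd i.1)) (pc N G)) (Fc.ground _)
      (tm_st.comap fun y : ℕ × P => Cd.crd y.2.1)).mod,
    icc fo sc (Θ := fun (π : Nm Cn) n (i : P) N G => ∀ j : P, In N j →
      ZFSet.pair (natC n) (img (st N G (Cd.crd j.1)) (pc N G)) ∈ val N G π →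
        st N G (Cd.crd j.1) ⊆ st N G (Cd.crd i.1))
      (Fc.all fo (Θ := fun (y : Nm Cn × ℕ × P) (j : P) N G =>
        ZFSet.pair (natC y.2.1) (img (st N G (Cd.crd j.1)) (pc N G)) ∈ val N G y.1 →
          st N G (Cd.crd j.1) ⊆ st N G (Cd.crd y.2.2.1))
        ((((Tm.nat le_tp fo _).pair le_tp fo (tm_st.comap fun v : (Nm Cn × ℕ × P) × P =>
          Cd.crd v.2.1)).mem fo (Tm.val _)).imp (fc_sub.comap fun v : (Nm Cn × ℕ × P) × P =>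
            (Cd.crd v.2.1, Cd.crd v.1.2.2.1)))), clo1n fun (s : ℕ → P) n => s n]
    with N zf inj h1 h2 c0 c1 c2 s1 h3 ic c3 G hG h
  obtain ⟨F, a1, -, ⟨f, ⟨π, hπ, e0⟩, a2⟩, a3⟩ := h (range fun i : X N => st N G (Cd.crd i.1.1))
    (range_subset_iff.2 fun i => gen_base (zf G hG) (h1 G hG) ⟨_, c2 _ i.2, rfl⟩) (by
      convert h3 G hG 0 c0 using 1
      exact ZFSet.ext fun _ => mem_img.trans (Iff.trans ⟨fun ⟨_, ⟨i, rfl⟩, b⟩ =>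
        ⟨i.1, ⟨i.2, trivial⟩, b⟩, fun ⟨i, a, b⟩ => ⟨_, ⟨⟨i, a.1⟩, rfl⟩, b⟩⟩ mem_img.symm))
    (eq_univ_of_forall fun i => ⟨_, ⟨i, rfl⟩, (h2 G hG _ i.2).1⟩)
  obtain ⟨s, b1, b2⟩ := ic G hG π hπ fun n => by
    simp only [e0, pair_mem_seqC]
    by_cases k : ∃ i : P, In N i ∧ img (st N G (Cd.crd i.1)) (pc N G) = f n
    · obtain ⟨i, k1, k2⟩ := k
      exact ⟨i, k1, fun j _ k3 => (img_inj (inj G hG) (k3.trans k2.symm)).subset⟩
    · exact ⟨_, c1, fun j k1 k2 => (k ⟨j, k1, k2⟩).elim⟩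
  obtain ⟨i, b3, b4⟩ := s1 s b1 (
    let ⟨d, k1, k2⟩ := (bdd2 _ (ctbl_le (countable_range fun n => (s n).1))).1
    ⟨⟨d, k1⟩, fun n => k2 _ ⟨n, rfl⟩⟩)
  obtain ⟨W, b5, b6⟩ : (⟨i, b3⟩ : X N) ∈ ⋃₀ F := a3 ▸ mem_univ _
  obtain ⟨n, b7⟩ := a2 _ (mem_img.2 ⟨W, b5, rfl⟩)
  obtain ⟨j, rfl⟩ := a1 b5
  exact (b4 n).not_ge ((h2 G hG _ (c3 s b1 n)).2 i
    (b2 n j.1 j.2 (e0 ▸ pair_mem_seqC.2 b7.symm) b6))

end Pool.Agent.Lib.MP_d63cb0_gt.H15
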