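import Pool.Agent.Lib.MP_d63cb0_gt.H15.Space

/-!
The real spectrum of an algebra on the generic space.
-/

namespace Pool.Agent.Lib.MP_d63cb0_gt.H15

open Pool.Agent.Lib.MP_fecf72_lc Set Filter Topology

/-- The graph of a homomorphism. -/
noncomputable def hc (S : Sp) (A : Set (S.X → ℝ)) (h : (S.X → ℝ) → ℝ) : V :=
  img A fun f => ZFSet.pair (S.fC f) (realC (h f))

/-- Real homomorphisms that belong to the model. -/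
def Hom (M : Set V) (S : Sp) (A : Set (S.X → ℝ)) : Type :=
  {h // hc S A h ∈ M ∧ Hm A {r | realC r ∈ M} h ∧ ∀ f ∉ A, h f = 0}

/-- The real spectrum. -/
noncomputable def SY (M : Set V) (S : Sp) (A : Set (S.X → ℝ)) : Sp :=
  gen M (fun h : Hom M S A => hc S A h.1) {b | ∃ a ∈ A, {h | h.1 a ≠ 0} = b}

theorem mem_hc {S : Sp} (inj : Function.Injective S.c) {A : Set (S.X → ℝ)} {h : (S.X → ℝ) → ℝ}
    {f : S.X → ℝ} {r : ℝ} : ZFSet.pair (S.fC f) (realC r) ∈ hc S A h ↔ f ∈ A ∧ h f = r :=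
  (pair_mem_gr (fC_inj inj)).trans (and_congr_right fun _ => realC_inj.eq_iff)

theorem hc_inj {M : Set V} {S : Sp} (inj : Function.Injective S.c) {A : Set (S.X → ℝ)} :
    Function.Injective fun h : Hom M S A => hc S A h.1 := fun h h' e =>
  Subtype.ext (funext fun f => by
    by_cases k : f ∈ A
    · exact ((mem_hc inj).1 ((show hc S A h.1 = hc S A h'.1 from e) ▸ (mem_hc inj).2 ⟨k, rfl⟩)).2.symm
    · rw [h.2.2.2 f k, h'.2.2.2 f k])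

theorem Hm.app {X : Type} {A : Set (X → ℝ)} {Rg : Set ℝ} {h : (X → ℝ) → ℝ} (hh : Hm A Rg h)
    (hA : Rn A Rg) {a : X → ℝ} (ha : a ∈ A) (φ : ℝ → ℝ) (hb : (fun x => φ (a x)) ∈ A) :
    h (fun x => φ (a x)) = φ (h a) :=
  let ⟨_, h1, h2⟩ := hh.ex2 hA ha hb; h1 ▸ h2.symm

/-- The coded functions that belong to the value of a name. -/
def AM (N : Set Wd) (G : Set Cn) (π : Nm Cn) : Set (X N → ℝ) :=
  {f | (∃ F : Cd ℝ, In N F ∧ fn N G F = f) ∧ (SX N G).fC f ∈ val N G π}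

/-- A pair of a function and a real. -/
noncomputable def pr (N : Set Wd) (G : Set Cn) (w : Cd ℝ × ℝ) : V :=
  ZFSet.pair ((SX N G).fC (fn N G w.1)) (realC w.2)

theorem tm_pr : Tm Le fun (w : Cd ℝ × ℝ) N G => pr N G w :=
  (tm_fn.comap fun w : Cd ℝ × ℝ => w.1).pair le_tp fo (tm_real.comap fun w : Cd ℝ × ℝ => w.2)

theorem fc_pr : Fc Le fun (z : Nm Cn × Cd ℝ × ℝ) N G => pr N G z.2 ∈ val N G z.1 :=
  (tm_pr.comap fun z : Nm Cn × Cd ℝ × ℝ => z.2).mem fo (Tm.val _)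

theorem fc_am : Fc Le fun (z : Nm Cn × Cd ℝ) N G => (SX N G).fC (fn N G z.2) ∈ val N G z.1 :=
  (tm_fn.comap fun z : Nm Cn × Cd ℝ => z.2).mem fo (Tm.val _)

/-- A relation between functions of the algebra and reals. -/
noncomputable def gr (N : Set Wd) (G : Set Cn) (π : Nm Cn) (Θ : Cd ℝ × ℝ → Prop) : V :=
  img {w | In N w ∧ (SX N G).fC (fn N G w.1) ∈ val N G π ∧ Θ w} (pr N G)

theorem tm_gr {ι : Type 2} {π : ι → Nm Cn} {Θ : ι → Cd ℝ × ℝ → Set Wd → Set Cn → Prop}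
    (h : Fc Le fun z : ι × Cd ℝ × ℝ => Θ z.1 z.2) :
    Tm Le fun a N G => gr N G (π a) fun w => Θ a w N G := by
  have h1 := (fc_am.comap fun z : ι × Cd ℝ × ℝ => (π z.1, z.2.1)).and h
  have h2 := Tm.img le_tp fo (ι := ι) (κ := Cd ℝ × ℝ)
    (Θ := fun a w N G => (SX N G).fC (fn N G w.1) ∈ val N G (π a) ∧ Θ a w N G)
    (s := fun _ w N G => pr N G w) h1 (tm_pr.comap fun z : ι × Cd ℝ × ℝ => z.2)
  exact h2

theorem club_gr : ∀ᶠ N in Club, ∀ G π (Θ : Cd ℝ × ℝ → Prop) (h : (X N → ℝ) → ℝ),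
    (∀ F : Cd ℝ, In N F → fn N G F ∈ AM N G π → In N (h (fn N G F)) ∧
      ∀ r : ℝ, In N r → (Θ (F, r) ↔ h (fn N G F) = r)) →
    gr N G π Θ = hc (SX N G) (AM N G π) h := by
  filter_upwards [clo_pair (Cd ℝ) ℝ] with N p1 G π Θ h k
  refine ZFSet.ext fun _ => mem_img.trans (Iff.trans ⟨?_, ?_⟩ mem_img.symm)
  · rintro ⟨⟨F, r⟩, ⟨a1, a2, a3⟩, rfl⟩
    have a4 : fn N G F ∈ AM N G π := ⟨⟨F, ((p1 _ _).1 a1).1, rfl⟩, a2⟩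
    exact ⟨_, a4, by rw [((k F ((p1 _ _).1 a1).1 a4).2 r ((p1 _ _).1 a1).2).1 a3]; rfl⟩
  · rintro ⟨_, ⟨⟨F, a1, rfl⟩, a2⟩, rfl⟩
    have a3 := k F a1 ⟨⟨F, a1, rfl⟩, a2⟩
    exact ⟨(F, _), ⟨(p1 _ _).2 ⟨a1, a3.1⟩, a2, (a3.2 _ a3.1).2 rfl⟩, rfl⟩

theorem club_al : ∀ᶠ N in Club, ∀ G, GG N Le G → ∀ A, IsALG (Mod N G) (SX N G) A →
    Al ((SX N G).C (Mod N G)) A {r | realC r ∈ Mod N G} ∧ ∃ π, In N π ∧ AM N G π = A := by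
  filter_upwards [club_rn, club_C, club_inj, clo1 fun F : Cd ℝ => F.map fun t => |t|]
    with N rn hC inj c1 G hG A hA
  refine ⟨⟨⟨(rn G hG).rat, hA.const, hA.add, hA.mul, hA.inv⟩, hA.sub, hA.unif, fun f a => ?_⟩, ?_⟩
  · obtain ⟨F, b, rfl⟩ := (hC G hG _).1 a
    exact (hC G hG _).2 ⟨_, c1 F b, rfl⟩
  · obtain ⟨π, a, b⟩ := hA.mem
    have k : ∀ f, (SX N G).fC f ∈ val N G π ↔ f ∈ A := fun f => b ▸ mem_img' (fC_inj (inj G hG))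
    exact ⟨π, a, Set.ext fun f => ⟨fun c => (k f).1 c.2,
      fun c => ⟨(hC G hG _).1 (hA.sub c), (k f).2 c⟩⟩⟩

open Classical in
/-- Evaluation at a point. -/
noncomputable def evh {X : Type} (A : Set (X → ℝ)) (i : X) (f : X → ℝ) : ℝ := if f ∈ A then f i else 0

theorem tm_ev : Tm Le fun (a : Nm Cn × P) N G => gr N G a.1 fun w => w.1.ev G a.2 = w.2 :=
  tm_gr (π := fun a : Nm Cn × P => a.1) (Θ := fun a w _ G => w.1.ev G a.2 = w.2)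
    (fc_ev.comap fun z : (Nm Cn × P) × Cd ℝ × ℝ => (z.2.1.map fun t => t = z.2.2, z.1.2))

theorem club_ev : ∀ᶠ N in Club, ∀ G, GG N Le G → ∀ π, In N π →
    Rn (AM N G π) {r | realC r ∈ Mod N G} → ∀ i : X N,
    (gr N G π fun w => w.1.ev G i.1 = w.2) = hc (SX N G) (AM N G π) (evh (AM N G π) i) ∧
    ∃ h : Hom (Mod N G) (SX N G) (AM N G π), h.1 = evh (AM N G π) i := by
  filter_upwards [club_gr, club_val ℝ, tm_ev.mod, clo_pair (Nm Cn) P, club_real le_tp fo sc]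
    with N h1 h2 h3 p1 re G hG π hπ hA i
  have e : ∀ f ∈ AM N G π, evh (AM N G π) i f = f i := fun f a => if_pos a
  have k := h1 G π (fun w => w.1.ev G i.1 = w.2) (evh (AM N G π) i) fun F a b =>
    (e _ b).symm ▸ ⟨h2 G hG F i.1 a i.2, fun _ _ => Iff.rfl⟩
  refine ⟨k, ⟨_, k ▸ h3 G hG (π, i.1) ((p1 _ _).2 ⟨hπ, i.2⟩), ⟨fun f a g b => ?_,
    fun r a => e _ (hA.const r a), fun f a => ?_⟩, fun f a => if_neg a⟩, rfl⟩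
  · exact ⟨(e _ (hA.add f a g b)).trans (congrArg₂ _ (e f a).symm (e g b).symm),
      (e _ (hA.mul f a g b)).trans (congrArg₂ _ (e f a).symm (e g b).symm)⟩
  · obtain ⟨F, b, rfl⟩ := a.1
    exact (e _ a).symm ▸ (re G hG _).2 (h2 G hG F i.1 b i.2)

/-- The set is the graph of a homomorphism. -/
def IsH (N : Set Wd) (G : Set Cn) (π : Nm Cn) (z : V) : Prop :=
  (∀ F : Cd ℝ, In N F → (SX N G).fC (fn N G F) ∈ val N G π → ∃ r : ℝ, In N r ∧ pr N G (F, r) ∈ z) ∧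
  (∀ w : (Cd ℝ × ℝ) × Cd ℝ × ℝ, In N w → pr N G w.1 ∈ z → pr N G w.2 ∈ z →
    (w.1.1 = w.2.1 → w.1.2 = w.2.2) ∧
    pr N G (w.1.1.map2 (fun s t => s + t) w.2.1, w.1.2 + w.2.2) ∈ z ∧
    pr N G (w.1.1.map2 (fun s t => s * t) w.2.1, w.1.2 * w.2.2) ∈ z) ∧
  ∀ r : ℝ, In N r → pr N G (Cd.cst r, r) ∈ z

theorem fc_isH : Fc Le fun (a : Nm Cn × Nm Cn) N G => IsH N G a.1 (val N G a.2) :=
  (Fc.all fo (Θ := fun (a : Nm Cn × Nm Cn) (F : Cd ℝ) N G =>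
    (SX N G).fC (fn N G F) ∈ val N G a.1 → ∃ r : ℝ, In N r ∧ pr N G (F, r) ∈ val N G a.2)
    ((fc_am.comap fun z : (Nm Cn × Nm Cn) × Cd ℝ => (z.1.1, z.2)).imp
      (Fc.ex fo (Θ := fun (z : (Nm Cn × Nm Cn) × Cd ℝ) (r : ℝ) N G => pr N G (z.2, r) ∈ val N G z.1.2)
        (fc_pr.comap fun v : ((Nm Cn × Nm Cn) × Cd ℝ) × ℝ => (v.1.1.2, v.1.2, v.2))))).and
  ((Fc.all fo (Θ := fun (a : Nm Cn × Nm Cn) (w : (Cd ℝ × ℝ) × Cd ℝ × ℝ) N G =>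
    pr N G w.1 ∈ val N G a.2 → pr N G w.2 ∈ val N G a.2 → (w.1.1 = w.2.1 → w.1.2 = w.2.2) ∧
      pr N G (w.1.1.map2 (fun s t => s + t) w.2.1, w.1.2 + w.2.2) ∈ val N G a.2 ∧
      pr N G (w.1.1.map2 (fun s t => s * t) w.2.1, w.1.2 * w.2.2) ∈ val N G a.2)
    ((fc_pr.comap fun z : (Nm Cn × Nm Cn) × (Cd ℝ × ℝ) × Cd ℝ × ℝ => (z.1.2, z.2.1)).imp
      ((fc_pr.comap fun z : (Nm Cn × Nm Cn) × (Cd ℝ × ℝ) × Cd ℝ × ℝ => (z.1.2, z.2.2)).imp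
        ((Fc.ground _).and ((fc_pr.comap fun z : (Nm Cn × Nm Cn) × (Cd ℝ × ℝ) × Cd ℝ × ℝ =>
          (z.1.2, z.2.1.1.map2 (fun s t => s + t) z.2.2.1, z.2.1.2 + z.2.2.2)).and
          (fc_pr.comap fun z : (Nm Cn × Nm Cn) × (Cd ℝ × ℝ) × Cd ℝ × ℝ =>
            (z.1.2, z.2.1.1.map2 (fun s t => s * t) z.2.2.1, z.2.1.2 * z.2.2.2))))))).and
  (Fc.all fo (Θ := fun (a : Nm Cn × Nm Cn) (r : ℝ) N G => pr N G (Cd.cst r, r) ∈ val N G a.2)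
    (fc_pr.comap fun z : (Nm Cn × Nm Cn) × ℝ => (z.1.2, Cd.cst z.2, z.2))))

theorem club_Y : ∀ᶠ N in Club, ∀ G, GG N Le G → ∀ π, In N π →
    Rn (AM N G π) {r | realC r ∈ Mod N G} →
    (SY (Mod N G) (SX N G) (AM N G π)).sC univ ∈ Mod N G := by
  classical
  filter_upwards [club_zfc le_tp fo, club_inj, club_real le_tp fo sc, clo_pair (Nm Cn) (Nm Cn),
    clo_pair (Cd ℝ) ℝ, clo_pair (Cd ℝ × ℝ) (Cd ℝ × ℝ), clo_ctbl Unit,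
    (tm_gr (π := id) (Θ := fun _ _ _ _ => True) (Fc.ground _)).mod,
    (Tm.imS fo (t := fun (a : Nm Cn × Nm Cn) N G => val N G a.2)
      (Θ := fun a z (_ : Unit) N G => IsH N G a.1 z) (s := fun _ z _ _ _ => z) (Tm.val _)
      (fc_isH.comap fun v : (Nm Cn × Nm Cn) × Nm Cn × Unit => (v.1.1, v.2.1)) (Tm.val _)).mod]
    with N zf inj re p1 p2 p3 cU h1 h2 G hG π hπ hA
  obtain ⟨_, ⟨ρ, a1, rfl⟩, a2⟩ := (zf G hG).power _ (h1 G hG π hπ)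
  convert h2 G hG (π, ρ) ((p1 _ _).2 ⟨hπ, a1⟩) using 1
  refine ZFSet.ext fun z => mem_img.trans (Iff.trans ⟨?_, ?_⟩ mem_imS.symm)
  · rintro ⟨h, -, rfl⟩
    have e : ∀ w : Cd ℝ × ℝ, pr N G w ∈ hc (SX N G) (AM N G π) h.1 ↔
        fn N G w.1 ∈ AM N G π ∧ h.1 (fn N G w.1) = w.2 := fun w => mem_hc (inj G hG)
    refine ⟨_, (a2 _ h.2.1).2 fun y hy => ?_, (), ⟨cU _, fun F b1 b2 => ?_, fun w _ b1 b2 => ?_,
      fun r b => ?_⟩, rfl⟩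
    · obtain ⟨_, ⟨⟨F, b1, rfl⟩, b2⟩, rfl⟩ := mem_img.1 hy
      exact mem_img.2 ⟨(F, _), ⟨(p2 _ _).2 ⟨b1, (re G hG _).1 (h.2.2.1.val _ ⟨⟨F, b1, rfl⟩, b2⟩)⟩,
        b2, trivial⟩, rfl⟩
    · exact ⟨_, (re G hG _).1 (h.2.2.1.val _ ⟨⟨F, b1, rfl⟩, b2⟩), (e _).2 ⟨⟨⟨F, b1, rfl⟩, b2⟩, rfl⟩⟩
    · obtain ⟨b1, b3⟩ := (e _).1 b1
      obtain ⟨b2, b4⟩ := (e _).1 b2
      have b5 := h.2.2.1.op _ b1 _ b2
      rw [b3, b4] at b5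
      exact ⟨fun k => by rw [← b3, ← b4, k], (e _).2 ⟨hA.add _ b1 _ b2, b5.1⟩,
        (e _).2 ⟨hA.mul _ b1 _ b2, b5.2⟩⟩
    · exact (e _).2 ⟨hA.const r ((re G hG _).2 b), h.2.2.1.const r ((re G hG _).2 b)⟩
  · rintro ⟨z, b1, -, ⟨-, b2, b3, b4⟩, rfl⟩
    have b5 := (zf G hG).trans _ ⟨ρ, a1, rfl⟩ _ b1
    let h : (X N → ℝ) → ℝ := fun f => if f ∈ AM N G π then
      Classical.epsilon fun r => In N r ∧ ZFSet.pair ((SX N G).fC f) (realC r) ∈ z else 0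
    have e1 : ∀ F : Cd ℝ, fn N G F ∈ AM N G π → In N F →
        In N (h (fn N G F)) ∧ pr N G (F, h (fn N G F)) ∈ z := fun F k k' => by
      simp only [h, if_pos k]
      exact Classical.epsilon_spec (b2 F k' k.2)
    have e2 : ∀ (F : Cd ℝ) (r : ℝ), fn N G F ∈ AM N G π → In N F → pr N G (F, r) ∈ z →
        h (fn N G F) = r := fun F r k k1 k2 =>
      (b3 ((F, _), F, r) ((p3 _ _).2 ⟨(p2 _ _).2 ⟨k1, (e1 F k k1).1⟩, (p2 _ _).2 ⟨k1, (re G hG _).1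
        (zf_pair (zf G hG) ((zf G hG).trans _ b5 _ k2)).2⟩⟩) (e1 F k k1).2 k2).1 rfl
    have e3 : hc (SX N G) (AM N G π) h = z := ZFSet.ext fun y => mem_img.trans ⟨by
      rintro ⟨_, ⟨⟨F, k1, rfl⟩, k2⟩, rfl⟩
      exact (e1 F ⟨⟨F, k1, rfl⟩, k2⟩ k1).2, fun k => by
        obtain ⟨⟨F, r⟩, ⟨k1, k2, -⟩, rfl⟩ := mem_img.1 ((a2 _ b5).1 b1 k)
        have k3 := ((p2 _ _).1 k1).1
        exact ⟨_, ⟨⟨F, k3, rfl⟩, k2⟩, by rw [e2 F r ⟨⟨F, k3, rfl⟩, k2⟩ k3 k]; rfl⟩⟩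
    refine ⟨⟨h, e3 ▸ b5, ⟨fun f k g k' => ?_, fun r k => ?_, fun f k => ?_⟩, fun f k => if_neg k⟩,
      trivial, e3⟩
    · obtain ⟨F, k1, rfl⟩ := k.1
      obtain ⟨F', k2, rfl⟩ := k'.1
      have k3 := (b3 ((F, _), F', _) ((p3 _ _).2 ⟨(p2 _ _).2 ⟨k1, (e1 F k k1).1⟩,
        (p2 _ _).2 ⟨k2, (e1 F' k' k2).1⟩⟩) (e1 F k k1).2 (e1 F' k' k2).2).2
      rw [← e3] at k3
      exact ⟨((mem_hc (inj G hG)).1 k3.1).2, ((mem_hc (inj G hG)).1 k3.2).2⟩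
    · exact ((mem_hc (inj G hG)).1 (e3 ▸ b4 r ((re G hG _).1 k))).2
    · obtain ⟨F, k1, rfl⟩ := k.1
      exact (re G hG _).2 (e1 F k k1).1

end Pool.Agent.Lib.MP_d63cb0_gt.H15
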